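import Pool.Agent.E98.Chn

/-! Arrangement lemmas and the step from one level to the next. Slots `(c, i)`: `i`-th member of
group `c`. -/

namespace Pool.E98

open Finset

-- BEGIN A1
/-- sorting by colour: equal colours are at distance less than the size of the colour class -/
theorem exists_sort {α : Type} [DecidableEq α] (s : Finset α) (col : α → ℕ) :
    ∃ e : α → ℕ, (∀ x ∈ s, e x < s.card) ∧ Set.InjOn e s ∧
      ∀ x ∈ s, ∀ y ∈ s, col x = col y →
        e x < e y + (s.filter (fun z => col z = col x)).card := by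
  classical
  obtain ⟨idx, hidx⟩ : ∃ idx : α → ℕ, ∀ x ∈ s, ∀ y ∈ s, idx x = idx y → x = y := by
    refine ⟨fun z => if h : z ∈ s then (s.equivFin ⟨z, h⟩ : ℕ) else 0, ?_⟩
    intro x hx y hy h
    simp only [dif_pos hx, dif_pos hy] at h
    have h2 := s.equivFin.injective (Fin.ext h)
    exact congrArg Subtype.val h2
  have hlt : ∀ x ∈ s, ∀ y ∈ s, (col x < col y ∨ (col x = col y ∧ idx x < idx y)) →
      (s.filter (fun z => col z < col x ∨ (col z = col x ∧ idx z < idx x))).card <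
      (s.filter (fun z => col z < col y ∨ (col z = col y ∧ idx z < idx y))).card := by
    intro x hx y hy h
    apply card_lt_card
    rw [ssubset_iff_of_subset]
    · refine ⟨x, mem_filter.2 ⟨hx, h⟩, ?_⟩
      intro h'
      have := (mem_filter.1 h').2
      omega
    · intro z hz
      rw [mem_filter] at hz ⊢
      refine ⟨hz.1, ?_⟩
      omega
  refine ⟨fun x => (s.filter (fun z => col z < col x ∨ (col z = col x ∧ idx z < idx x))).card,
    ?_, ?_, ?_⟩
  · intro x hx
    apply card_lt_card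
    rw [ssubset_iff_of_subset (filter_subset _ _)]
    refine ⟨x, hx, ?_⟩
    intro h'
    have := (mem_filter.1 h').2
    omega
  · intro x hx y hy h
    simp only at h
    by_contra hne
    have h1 : idx x ≠ idx y := fun h' => hne (hidx x hx y hy h')
    rcases lt_trichotomy (col x) (col y) with hc | hc | hc
    · exact absurd h (hlt x hx y hy (Or.inl hc)).ne
    · rcases lt_or_gt_of_ne h1 with hi | hi
      · exact absurd h (hlt x hx y hy (Or.inr ⟨hc, hi⟩)).ne
      · exact absurd h (hlt y hy x hx (Or.inr ⟨hc.symm, hi⟩)).ne'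
    · exact absurd h (hlt y hy x hx (Or.inl hc)).ne'
  · intro x hx y hy hc
    simp only
    have h1 : (s.filter (fun z => col z < col x ∨ (col z = col x ∧ idx z < idx x))).card ≤
        (s.filter (fun z => col z < col x)).card +
          (s.filter (fun z => col z = col x ∧ idx z < idx x)).card := by
      rw [filter_or]
      exact card_union_le _ _
    have h2 : (s.filter (fun z => col z < col x)).card ≤
        (s.filter (fun z => col z < col y ∨ (col z = col y ∧ idx z < idx y))).card := by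
      apply card_le_card
      intro z hz
      rw [mem_filter] at hz ⊢
      exact ⟨hz.1, Or.inl (by omega)⟩
    have h3 : (s.filter (fun z => col z = col x ∧ idx z < idx x)).card <
        (s.filter (fun z => col z = col x)).card := by
      apply card_lt_card
      rw [ssubset_iff_of_subset]
      · refine ⟨x, mem_filter.2 ⟨hx, rfl⟩, ?_⟩
        intro h'
        have := (mem_filter.1 h').2
        omega
      · intro z hz
        rw [mem_filter] at hz ⊢
        exact ⟨hz.1, hz.2.1⟩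
    omega
-- END A1

-- BEGIN A2
/-- Positions for `p` pairs (groups `c ∈ [a2, a2+p)`) and `q` triples (groups `c ∈ [a3, a3+q)`) in
`[0, N)` with distance at least `N/3` inside a group. With `M = N/3`, `m = M - q`,
`h = (N - 3q)/2`, `r x = x + q * (1 + [m ≤ x] + [2m ≤ x])`:
triples `ρ c i = i * M + (c - a3)`, pairs `ρ c i = r (c - a2 + i * h)`. -/
theorem exists_spread {N a2 p a3 q : ℕ} (hd : a2 + p ≤ a3)
    (h : 3 * q + 2 * p < N ∨ (q = 0 ∧ p = 0)) :
    ∃ ρ : ℕ → ℕ → ℕ,
      (∀ c i, ((a2 ≤ c ∧ c < a2 + p ∧ i < 2) ∨ (a3 ≤ c ∧ c < a3 + q ∧ i < 3)) → ρ c i < N) ∧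
      (∀ c i c' i', ((a2 ≤ c ∧ c < a2 + p ∧ i < 2) ∨ (a3 ≤ c ∧ c < a3 + q ∧ i < 3)) →
        ((a2 ≤ c' ∧ c' < a2 + p ∧ i' < 2) ∨ (a3 ≤ c' ∧ c' < a3 + q ∧ i' < 3)) →
        ρ c i = ρ c' i' → c = c' ∧ i = i') ∧
      (∀ c i i', ((a2 ≤ c ∧ c < a2 + p ∧ i' < 2) ∨ (a3 ≤ c ∧ c < a3 + q ∧ i' < 3)) → i < i' →
        ρ c i + N / 3 ≤ ρ c i') := by
  rcases h with h | h
  swap
  · refine ⟨fun _ _ => 0, ?_, ?_, ?_⟩
    · intro c i hc
      omega
    · intro c i c' i' hc
      omega
    · intro c i i' hc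
      omega
  -- `r` is the numbering of the positions free of triples
  obtain ⟨M, hM⟩ : ∃ M, M = N / 3 := ⟨_, rfl⟩
  obtain ⟨m, hm⟩ : ∃ m, m = M - q := ⟨_, rfl⟩
  obtain ⟨t, ht⟩ : ∃ t, t = (N - 3 * q) / 2 := ⟨_, rfl⟩
  have hqM : q ≤ M := by omega
  obtain ⟨r, hr1, hr2, hr3⟩ : ∃ r : ℕ → ℕ, (∀ x, x < m → r x = x + q) ∧
      (∀ x, m ≤ x → x < 2 * m → r x = x + 2 * q) ∧ (∀ x, 2 * m ≤ x → r x = x + 3 * q) := by
    refine ⟨fun x => if x < m then x + q else if x < 2 * m then x + 2 * q else x + 3 * q,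
      ?_, ?_, ?_⟩
    · intro x hx
      simp only [if_pos hx]
    · intro x hx hx'
      simp only [if_neg (not_lt.2 hx), if_pos hx']
    · intro x hx
      have h1 : ¬ x < m := by omega
      have h2 : ¬ x < 2 * m := by omega
      simp only [if_neg h1, if_neg h2]
  -- description of `r`
  have hr : ∀ x, (x < m ∧ r x = x + q) ∨ (m ≤ x ∧ x < 2 * m ∧ r x = x + 2 * q) ∨
      (2 * m ≤ x ∧ r x = x + 3 * q) := by
    intro x
    rcases lt_or_ge x m with h1 | h1
    · exact Or.inl ⟨h1, hr1 x h1⟩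
    · rcases lt_or_ge x (2 * m) with h2 | h2
      · exact Or.inr (Or.inl ⟨h1, h2, hr2 x h1 h2⟩)
      · exact Or.inr (Or.inr ⟨h2, hr3 x h2⟩)
  obtain ⟨ρ, hρ⟩ : ∃ ρ : ℕ → ℕ → ℕ, ρ = fun c i => if a3 ≤ c then i * M + (c - a3) else
    r (c - a2 + i * t) := ⟨_, rfl⟩
  have hρ3 : ∀ c i, a3 ≤ c → i < 3 → (i = 0 ∧ ρ c i = c - a3) ∨ (i = 1 ∧ ρ c i = M + (c - a3)) ∨
      (i = 2 ∧ ρ c i = 2 * M + (c - a3)) := by
    intro c i hc hi
    rw [hρ]
    simp only [if_pos hc]
    interval_cases i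
    · left; omega
    · right; left; omega
    · right; right; omega
  have hρ2 : ∀ c i, c < a2 + p → i < 2 → (i = 0 ∧ ρ c i = r (c - a2)) ∨
      (i = 1 ∧ ρ c i = r (c - a2 + t)) := by
    intro c i hc hi
    have hc' : ¬ a3 ≤ c := by omega
    rw [hρ]
    simp only [if_neg hc']
    interval_cases i
    · left
      refine ⟨rfl, ?_⟩
      rw [zero_mul, add_zero]
    · right
      refine ⟨rfl, ?_⟩
      rw [one_mul]
  refine ⟨ρ, ?_, ?_, ?_⟩
  · intro c i hc
    rcases hc with hc | hc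
    · rcases hρ2 c i hc.2.1 hc.2.2 with h1 | h1
      · have h2 := hr (c - a2)
        omega
      · have h2 := hr (c - a2 + t)
        omega
    · have h1 := hρ3 c i hc.1 hc.2.2
      omega
  · intro c i c' i' hc hc' heq
    rcases hc with hc | hc
    · rcases hc' with hc' | hc'
      · rcases hρ2 c i hc.2.1 hc.2.2 with h1 | h1 <;> rcases hρ2 c' i' hc'.2.1 hc'.2.2 with h2 | h2
        · have h3 := hr (c - a2)
          have h4 := hr (c' - a2)
          omega
        · have h3 := hr (c - a2)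
          have h4 := hr (c' - a2 + t)
          omega
        · have h3 := hr (c - a2 + t)
          have h4 := hr (c' - a2)
          omega
        · have h3 := hr (c - a2 + t)
          have h4 := hr (c' - a2 + t)
          omega
      · have h2 := hρ3 c' i' hc'.1 hc'.2.2
        rcases hρ2 c i hc.2.1 hc.2.2 with h1 | h1
        · have h3 := hr (c - a2)
          omega
        · have h3 := hr (c - a2 + t)
          omega
    · have h1 := hρ3 c i hc.1 hc.2.2
      rcases hc' with hc' | hc'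
      · rcases hρ2 c' i' hc'.2.1 hc'.2.2 with h2 | h2
        · have h3 := hr (c' - a2)
          omega
        · have h3 := hr (c' - a2 + t)
          omega
      · have h2 := hρ3 c' i' hc'.1 hc'.2.2
        omega
  · intro c i i' hc hi
    rcases hc with hc | hc
    · have h1 := hρ2 c i hc.2.1 (by omega)
      have h2 := hρ2 c i' hc.2.1 hc.2.2
      have h3 := hr (c - a2)
      have h4 := hr (c - a2 + t)
      omega
    · have h1 := hρ3 c i hc.1 (by omega)
      have h2 := hρ3 c i' hc.1 hc.2.2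
      omega
-- END A2

-- BEGIN A3
theorem A3_cut {w f0 b0 p0 e0 : ℕ} (hbp : b0 = 0 ∨ p0 = 0) (hw : w ≤ f0 + b0 + p0 + e0 + 12) :
    ∃ f b p e : ℕ, f ≤ f0 ∧ b ≤ b0 ∧ p ≤ p0 ∧ e ≤ e0 ∧ f + b + p + e ≤ w ∧
      w ≤ f + b + p + e + 12 ∧ (b = 0 ∨ p = 0) := by
  by_cases h1 : w ≤ f0
  · exact ⟨w, 0, 0, 0, by omega, by omega, by omega, by omega, by omega, by omega, by omega⟩
  by_cases h2 : w ≤ f0 + b0
  · exact ⟨f0, w - f0, 0, 0, by omega, by omega, by omega, by omega, by omega, by omega, by omega⟩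
  by_cases h3 : w ≤ f0 + b0 + p0
  · exact ⟨f0, b0, w - f0 - b0, 0, by omega, by omega, by omega, by omega, by omega, by omega,
      by omega⟩
  by_cases h4 : w ≤ f0 + b0 + p0 + e0
  · exact ⟨f0, b0, p0, w - f0 - b0 - p0, by omega, by omega, by omega, by omega, by omega,
      by omega, by omega⟩
  · exact ⟨f0, b0, p0, e0, by omega, by omega, by omega, by omega, by omega, by omega, by omega⟩

theorem exists_counts {k u v w : ℕ} (hu : u ≤ k) (hv : v ≤ k) (h1 : 6 * w + u ≤ 3 * k + 3 * v)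
    (h2 : 6 * w + 3 * u ≤ 5 * k + v) :
    ∃ f b p e : ℕ, f + b + p + e ≤ w ∧ w ≤ f + b + p + e + 12 ∧ (b = 0 ∨ p = 0) ∧
      f + 2 * b ≤ k - u ∧ (3 * e + 2 * p < u ∨ (e = 0 ∧ p = 0)) ∧ f + 2 * p ≤ v ∧
      (3 * e + 2 * b < k - v ∨ (e = 0 ∧ b = 0)) ∧
      (f + b = 0 ∨ 6 ≤ k - u) ∧ (f + p = 0 ∨ 6 ≤ v) := by
  obtain ⟨N, hN⟩ : ∃ N, k = u + N := ⟨k - u, by omega⟩
  obtain ⟨K, hK⟩ : ∃ K, k = v + K := ⟨k - v, by omega⟩
  have hNk : k - u = N := by omega
  have hKk : k - v = K := by omega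
  rw [hNk, hKk]
  by_cases hvN : v ≤ N
  · by_cases hN6 : N < 6
    · -- f = b = p = 0
      obtain ⟨f, b, p, e, a1, a2, a3, a4, a5, a6, a7⟩ :=
        @A3_cut w 0 0 0 ((u - 1) / 3) (by omega) (by omega)
      exact ⟨f, b, p, e, by omega, by omega, by omega, by omega, by omega, by omega, by omega,
        by omega, by omega⟩
    · by_cases hv6 : v < 6
      · obtain ⟨f, b, p, e, a1, a2, a3, a4, a5, a6, a7⟩ :=
          @A3_cut w 0 ((N - v - 1) / 2) 0 ((u - 1) / 3) (by omega) (by omega)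
        exact ⟨f, b, p, e, by omega, by omega, by omega, by omega, by omega, by omega, by omega,
          by omega, by omega⟩
      · obtain ⟨f, b, p, e, a1, a2, a3, a4, a5, a6, a7⟩ :=
          @A3_cut w v ((N - v - 1) / 2) 0 ((u - 1) / 3) (by omega) (by omega)
        exact ⟨f, b, p, e, by omega, by omega, by omega, by omega, by omega, by omega, by omega,
          by omega, by omega⟩
  · by_cases hv6 : v < 6
    · obtain ⟨f, b, p, e, a1, a2, a3, a4, a5, a6, a7⟩ :=
        @A3_cut w 0 0 0 ((K - 1) / 3) (by omega) (by omega)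
      exact ⟨f, b, p, e, by omega, by omega, by omega, by omega, by omega, by omega, by omega,
        by omega, by omega⟩
    · by_cases hN6 : N < 6
      · obtain ⟨f, b, p, e, a1, a2, a3, a4, a5, a6, a7⟩ :=
          @A3_cut w 0 0 ((v - N - 1) / 2) ((K - 1) / 3) (by omega) (by omega)
        exact ⟨f, b, p, e, by omega, by omega, by omega, by omega, by omega, by omega, by omega,
          by omega, by omega⟩
      · obtain ⟨f, b, p, e, a1, a2, a3, a4, a5, a6, a7⟩ :=
          @A3_cut w N 0 ((v - N - 1) / 2) ((K - 1) / 3) (by omega) (by omega)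
        exact ⟨f, b, p, e, by omega, by omega, by omega, by omega, by omega, by omega, by omega,
          by omega, by omega⟩
-- END A3

-- BEGIN A4
theorem A4_surj {k : ℕ} (P : Finset (Fin k)) (φ : Fin k → ℕ) (hφ : ∀ L ∈ P, φ L < P.card)
    (hinj : ∀ L ∈ P, ∀ L' ∈ P, φ L = φ L' → L = L') (n : ℕ) (hn : n < P.card) :
    ∃ L ∈ P, φ L = n := by
  have himg : P.image φ = range P.card := by
    apply Finset.eq_of_subset_of_card_le
    · intro x hx
      obtain ⟨L, hL, rfl⟩ := mem_image.1 hx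
      exact mem_range.2 (hφ L hL)
    · rw [card_range, Finset.card_image_of_injOn]
      intro a ha b hb h
      exact hinj a ha b hb h
  have hmem : n ∈ P.image φ := by
    rw [himg]
    exact mem_range.2 hn
  obtain ⟨L, hL, h⟩ := mem_image.1 hmem
  exact ⟨L, hL, h⟩

/-- placing slots: `φ` numbers the elements of `P`, `r` numbers the slots -/
theorem exists_place {k : ℕ} (P : Finset (Fin k)) (φ : Fin k → ℕ) (hφ : ∀ L ∈ P, φ L < P.card)
    (hinj : ∀ L ∈ P, ∀ L' ∈ P, φ L = φ L' → L = L') (SL : Finset (ℕ × ℕ)) (r : ℕ × ℕ → ℕ)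
    (hr : ∀ s ∈ SL, r s < P.card) (hrinj : ∀ s ∈ SL, ∀ s' ∈ SL, r s = r s' → s = s') :
    ∃ g : Fin k → Option (ℕ × ℕ), (∀ L s, g L = some s → L ∈ P ∧ s ∈ SL ∧ r s = φ L) ∧
      (∀ s ∈ SL, ∃ L ∈ P, g L = some s) := by
  classical
  refine ⟨fun L => if h : ∃ s, L ∈ P ∧ s ∈ SL ∧ r s = φ L then some h.choose else none, ?_, ?_⟩
  · intro L s hs
    by_cases h : ∃ s, L ∈ P ∧ s ∈ SL ∧ r s = φ L
    · simp only [dif_pos h] at hs
      have h2 := Option.some.inj hs
      rw [← h2]
      exact h.choose_spec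
    · simp only [dif_neg h] at hs
      exact absurd hs (by simp)
  · intro s hs
    obtain ⟨L, hL, hLs⟩ := A4_surj P φ hφ hinj (r s) (hr s hs)
    refine ⟨L, hL, ?_⟩
    have h : ∃ s, L ∈ P ∧ s ∈ SL ∧ r s = φ L := ⟨s, hL, hs, hLs.symm⟩
    show (if h : ∃ s, L ∈ P ∧ s ∈ SL ∧ r s = φ L then some h.choose else none) = some s
    rw [dif_pos h]
    have h3 := h.choose_spec
    congr 1
    exact hrinj _ h3.2.1 _ hs (h3.2.2.trans hLs)

/-- a partial numbering extends to a full one -/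
theorem exists_extend {k : ℕ} (P S : Finset (Fin k)) (hS : S ⊆ P) (r : Fin k → ℕ)
    (hr : ∀ L ∈ S, r L < P.card) (hinj : ∀ L ∈ S, ∀ L' ∈ S, r L = r L' → L = L') :
    ∃ φ : Fin k → ℕ, (∀ L ∈ S, φ L = r L) ∧ (∀ L ∈ P, φ L < P.card) ∧
      (∀ L ∈ P, ∀ L' ∈ P, φ L = φ L' → L = L') := by
  classical
  have himg : (S.image r).card = S.card := by
    rw [Finset.card_image_of_injOn]
    intro a ha b hb h
    exact hinj a ha b hb h
  have hsub : S.image r ⊆ range P.card := by
    intro x hx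
    obtain ⟨L, hL, rfl⟩ := mem_image.1 hx
    exact mem_range.2 (hr L hL)
  have hcard : (P \ S).card = (range P.card \ S.image r).card := by
    rw [Finset.card_sdiff_of_subset hS, Finset.card_sdiff_of_subset hsub, himg, card_range]
  have e := Finset.equivOfCardEq hcard
  have he : ∀ (L : Fin k) (h : L ∈ P \ S),
      (e ⟨L, h⟩ : ℕ) < P.card ∧ (e ⟨L, h⟩ : ℕ) ∉ S.image r := by
    intro L h
    have h1 := (e ⟨L, h⟩).2
    rw [mem_sdiff, mem_range] at h1
    exact h1
  refine ⟨fun L => if L ∈ S then r L else if h : L ∈ P \ S then (e ⟨L, h⟩ : ℕ) else 0, ?_, ?_, ?_⟩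
  · intro L hL
    simp only [if_pos hL]
  · intro L hL
    by_cases hLS : L ∈ S
    · simp only [if_pos hLS]
      exact hr L hLS
    · have h : L ∈ P \ S := mem_sdiff.2 ⟨hL, hLS⟩
      simp only [if_neg hLS, dif_pos h]
      exact (he L h).1
  · intro L hL L' hL' heq
    by_cases hLS : L ∈ S
    · by_cases hLS' : L' ∈ S
      · simp only [if_pos hLS, if_pos hLS'] at heq
        exact hinj L hLS L' hLS' heq
      · have h' : L' ∈ P \ S := mem_sdiff.2 ⟨hL', hLS'⟩
        simp only [if_pos hLS, if_neg hLS', dif_pos h'] at heq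
        exact absurd (heq ▸ mem_image_of_mem r hLS) (he L' h').2
    · have h : L ∈ P \ S := mem_sdiff.2 ⟨hL, hLS⟩
      by_cases hLS' : L' ∈ S
      · simp only [if_neg hLS, dif_pos h, if_pos hLS'] at heq
        exact absurd (heq.symm ▸ mem_image_of_mem r hLS') (he L h).2
      · have h' : L' ∈ P \ S := mem_sdiff.2 ⟨hL', hLS'⟩
        simp only [if_neg hLS, dif_pos h, if_neg hLS', dif_pos h'] at heq
        have h2 := e.injective (Subtype.ext heq)
        exact congrArg Subtype.val h2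
-- END A4

/-- state at a boundary: bits `hb`, groups `g` of the level above it with colours `Y` -/
def State (k u : ℕ) (hb : Fin k → Bool) (g : Fin k → Option (ℕ × ℕ)) (Y : ℕ → ℕ) : Prop :=
  (univ.filter (fun L => hb L = true)).card = u ∧
  (∃ φ : Fin k → ℕ, (∀ L, hb L = false → φ L < k - u) ∧
    (∀ L L', hb L = false → hb L' = false → φ L = φ L' → L = L') ∧
    (∀ L L' c i i', hb L = false → hb L' = false → g L = some (c, i) → g L' = some (c, i') →
      L ≠ L' → φ L + (k - u) / 3 ≤ φ L' ∨ φ L' + (k - u) / 3 ≤ φ L)) ∧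
  (∃ ψ : Fin k → ℕ, (∀ L, hb L = true → ψ L < u) ∧
    (∀ L L', hb L = true → hb L' = true → ψ L = ψ L' → L = L') ∧
    (∀ L L' c i c' i', hb L = true → hb L' = true → g L = some (c, i) → g L' = some (c', i') →
      L ≠ L' → Y c = Y c' → ψ L < ψ L' + u / 3))

/-- a level: bits `hb` above, `hb'` below, slots `g`, group sizes `sz` -/
def Lvl (k w : ℕ) (hb hb' : Fin k → Bool) (g : Fin k → Option (ℕ × ℕ)) (sz : ℕ → ℕ) : Prop :=
  (∀ L c i, g L = some (c, i) → c < w ∧ i < sz c ∧
    sz c = 1 + (if hb L = true then 1 else 0) + (if hb' L = true then 0 else 1)) ∧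
  (∀ L L' c i i', g L = some (c, i) → g L' = some (c, i') →
    hb L = hb L' ∧ hb' L = hb' L' ∧ (i = i' → L = L')) ∧
  (∀ c i, i < sz c → ∃ L, g L = some (c, i)) ∧
  ((range w).filter (fun c => sz c = 0)).card ≤ 12

/-- lo rainbow -/
def LoR {k : ℕ} (X : ℕ → ℕ) (hb : Fin k → Bool) (g0 g : Fin k → Option (ℕ × ℕ)) : Prop :=
  ∀ L L' c0 i0 i0' c i c' i', L ≠ L' → hb L = false → hb L' = false → g0 L = some (c0, i0) →
    g0 L' = some (c0, i0') → g L = some (c, i) → g L' = some (c', i') → X c ≠ X c'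

/-- hi rainbow -/
def HiR {k : ℕ} (Y0 : ℕ → ℕ) (hb : Fin k → Bool) (g0 g : Fin k → Option (ℕ × ℕ)) : Prop :=
  ∀ L L' c i i' c0 i0 c0' i0', L ≠ L' → hb L = true → hb L' = true → g L = some (c, i) →
    g L' = some (c, i') → g0 L = some (c0, i0) → g0 L' = some (c0', i0') → Y0 c0 ≠ Y0 c0'

-- BEGIN A5
theorem A5_mem1 {f a q : ℕ} {s : ℕ × ℕ} :
    s ∈ (range f) ×ˢ (range 1) ∪ (Ico a (a + q)) ×ˢ (range 2) ↔
      (s.1 < f ∧ s.2 < 1) ∨ ((a ≤ s.1 ∧ s.1 < a + q) ∧ s.2 < 2) := by
  simp only [mem_union, mem_product, mem_range, mem_Ico]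

theorem A5_mem2 {a2 p a3 q : ℕ} {s : ℕ × ℕ} :
    s ∈ (Ico a2 (a2 + p)) ×ˢ (range 2) ∪ (Ico a3 (a3 + q)) ×ˢ (range 3) ↔
      ((a2 ≤ s.1 ∧ s.1 < a2 + p) ∧ s.2 < 2) ∨ ((a3 ≤ s.1 ∧ s.1 < a3 + q) ∧ s.2 < 3) := by
  simp only [mem_union, mem_product, mem_range, mem_Ico]

theorem A5_card1 (f a q : ℕ) :
    ((range f) ×ˢ (range 1) ∪ (Ico a (a + q)) ×ˢ (range 2)).card ≤ f + 2 * q := by
  refine (card_union_le _ _).trans ?_
  simp only [card_product, card_range, Nat.card_Ico]
  omega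

theorem A5_card2 (a2 p a3 q : ℕ) :
    ((Ico a2 (a2 + p)) ×ˢ (range 2) ∪ (Ico a3 (a3 + q)) ×ˢ (range 3)).card ≤ 2 * p + 3 * q := by
  refine (card_union_le _ _).trans ?_
  simp only [card_product, card_range, Nat.card_Ico]
  omega

/-- a sorted side -/
theorem A5_sort {w N f a q : ℕ} (X : ℕ → ℕ) (hX : Pref w X) (ha : a = f ∨ q = 0)
    (hw : f + q ≤ w) (hN : f + 2 * q ≤ N) (h6 : f + q = 0 ∨ 6 ≤ N) :
    ∃ e : ℕ × ℕ → ℕ,
      (∀ s ∈ (range f) ×ˢ (range 1) ∪ (Ico a (a + q)) ×ˢ (range 2), e s < N) ∧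
      (∀ s ∈ (range f) ×ˢ (range 1) ∪ (Ico a (a + q)) ×ˢ (range 2),
        ∀ s' ∈ (range f) ×ˢ (range 1) ∪ (Ico a (a + q)) ×ˢ (range 2), e s = e s' → s = s') ∧
      (∀ s ∈ (range f) ×ˢ (range 1) ∪ (Ico a (a + q)) ×ˢ (range 2),
        ∀ s' ∈ (range f) ×ˢ (range 1) ∪ (Ico a (a + q)) ×ˢ (range 2),
          X s.1 = X s'.1 → e s < e s' + N / 3) := by
  classical
  obtain ⟨e, h1, h2, h3⟩ := exists_sort
    ((range f) ×ˢ (range 1) ∪ (Ico a (a + q)) ×ˢ (range 2)) (fun s => X s.1)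
  have hcard := A5_card1 f a q
  refine ⟨e, fun s hs => (h1 s hs).trans_le (hcard.trans hN), fun s hs s' hs' h => h2 hs hs' h, ?_⟩
  intro s hs s' hs' hc
  have h4 := h3 s hs s' hs' hc
  have hpos : 0 < f + q := by
    rcases A5_mem1.1 hs with h | h <;> omega
  have hm := hX (f + q) hw (X s.1)
  have hsub : (((range f) ×ˢ (range 1) ∪ (Ico a (a + q)) ×ˢ (range 2)).filter
      (fun z => X z.1 = X s.1)) ⊆ ((range (f + q)).filter (fun c => X c = X s.1)) ×ˢ range 2 := by
    intro z hz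
    rw [mem_filter, A5_mem1] at hz
    rw [mem_product, mem_filter, mem_range, mem_range]
    refine ⟨⟨?_, hz.2⟩, ?_⟩
    · rcases hz.1 with h | h
      · omega
      · rcases ha with ha | ha <;> omega
    · rcases hz.1 with h | h <;> omega
  have h5 := card_le_card hsub
  rw [card_product, card_range] at h5
  have h6' : 6 ≤ N := by omega
  have h7 : max 6 (f + q) ≤ N := by
    apply max_le h6'
    omega
  omega

/-- the placed slots of a level -/
theorem A5_place {k u w f b p e : ℕ} (hu : u ≤ k) (X Y0 : ℕ → ℕ) (hX : Pref w X)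
    (hb : Fin k → Bool) (g0 : Fin k → Option (ℕ × ℕ)) (hst : State k u hb g0 Y0)
    (hw : f + b + p + e ≤ w) (hlo : f + 2 * b ≤ k - u)
    (hhi : 3 * e + 2 * p < u ∨ (e = 0 ∧ p = 0)) (h6 : f + b = 0 ∨ 6 ≤ k - u) :
    ∃ g : Fin k → Option (ℕ × ℕ),
      (∀ L c i, g L = some (c, i) →
        (hb L = false ∧ ((c < f ∧ i < 1) ∨ ((f ≤ c ∧ c < f + b) ∧ i < 2))) ∨
        (hb L = true ∧ (((f + b ≤ c ∧ c < f + b + p) ∧ i < 2) ∨
          ((f + b + p ≤ c ∧ c < f + b + p + e) ∧ i < 3)))) ∧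
      (∀ L L' s, g L = some s → g L' = some s → L = L') ∧
      (∀ c i, ((c < f ∧ i < 1) ∨ ((f ≤ c ∧ c < f + b) ∧ i < 2)) ∨
        (((f + b ≤ c ∧ c < f + b + p) ∧ i < 2) ∨
          ((f + b + p ≤ c ∧ c < f + b + p + e) ∧ i < 3)) → ∃ L, g L = some (c, i)) ∧
      LoR X hb g0 g ∧ HiR Y0 hb g0 g := by
  classical
  obtain ⟨hcard, ⟨φ, hφ1, hφ2, hφ3⟩, ⟨ψ, hψ1, hψ2, hψ3⟩⟩ := hst
  have hPt : (univ.filter (fun L => hb L = true)).card = u := hcard
  have hPf : (univ.filter (fun L => hb L = false)).card = k - u := by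
    have h := card_filter_add_card_filter_not (s := (univ : Finset (Fin k)))
      (fun L => hb L = true)
    rw [card_univ, Fintype.card_fin, hPt] at h
    have h' : (univ.filter (fun L : Fin k => ¬ hb L = true)) = univ.filter (fun L => hb L = false) := by
      apply filter_congr
      intro L _
      simp
    rw [h'] at h
    omega
  obtain ⟨e1, he1, he1i, he1c⟩ := A5_sort (N := k - u) (f := f) (a := f) (q := b) X hX (Or.inl rfl)
    (by omega) hlo h6
  obtain ⟨g1, hg1, hg1s⟩ := exists_place (univ.filter (fun L => hb L = false)) φ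
    (fun L hL => by rw [hPf]; exact hφ1 L (mem_filter.1 hL).2)
    (fun L hL L' hL' h => hφ2 L L' (mem_filter.1 hL).2 (mem_filter.1 hL').2 h)
    ((range f) ×ˢ (range 1) ∪ (Ico f (f + b)) ×ˢ (range 2)) e1
    (fun s hs => by rw [hPf]; exact he1 s hs) he1i
  obtain ⟨ρ, hρ1, hρ2, hρ3⟩ := exists_spread (N := u) (a2 := f + b) (p := p) (a3 := f + b + p)
    (q := e) le_rfl hhi
  have hmem2 : ∀ s : ℕ × ℕ, s ∈ (Ico (f + b) (f + b + p)) ×ˢ (range 2) ∪
      (Ico (f + b + p) (f + b + p + e)) ×ˢ (range 3) →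
      ((f + b ≤ s.1 ∧ s.1 < f + b + p ∧ s.2 < 2) ∨
        (f + b + p ≤ s.1 ∧ s.1 < f + b + p + e ∧ s.2 < 3)) := by
    intro s hs
    rcases A5_mem2.1 hs with h | h
    · exact Or.inl ⟨h.1.1, h.1.2, h.2⟩
    · exact Or.inr ⟨h.1.1, h.1.2, h.2⟩
  obtain ⟨g2, hg2, hg2s⟩ := exists_place (univ.filter (fun L => hb L = true)) ψ
    (fun L hL => by rw [hPt]; exact hψ1 L (mem_filter.1 hL).2)
    (fun L hL L' hL' h => hψ2 L L' (mem_filter.1 hL).2 (mem_filter.1 hL').2 h)
    ((Ico (f + b) (f + b + p)) ×ˢ (range 2) ∪ (Ico (f + b + p) (f + b + p + e)) ×ˢ (range 3))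
    (fun s => ρ s.1 s.2)
    (fun s hs => by rw [hPt]; exact hρ1 _ _ (hmem2 s hs))
    (fun s hs s' hs' h => by
      have h' := hρ2 _ _ _ _ (hmem2 s hs) (hmem2 s' hs') h
      exact Prod.ext h'.1 h'.2)
  -- facts on the two parts
  have hgf : ∀ L, hb L = false → (if hb L = false then g1 L else g2 L) = g1 L := by
    intro L h
    rw [if_pos h]
  have hgt : ∀ L, hb L = true → (if hb L = false then g1 L else g2 L) = g2 L := by
    intro L h
    rw [if_neg (by simp [h])]
  refine ⟨fun L => if hb L = false then g1 L else g2 L, ?_, ?_, ?_, ?_, ?_⟩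
  · intro L c i h
    simp only at h
    cases hL : hb L with
    | false =>
      rw [hgf L hL] at h
      exact Or.inl ⟨rfl, A5_mem1.1 (hg1 L _ h).2.1⟩
    | true =>
      rw [hgt L hL] at h
      exact Or.inr ⟨rfl, A5_mem2.1 (hg2 L _ h).2.1⟩
  · intro L L' s h h'
    simp only at h h'
    cases hL : hb L with
    | false =>
      rw [hgf L hL] at h
      cases hL' : hb L' with
      | false =>
        rw [hgf L' hL'] at h'
        apply hφ2 L L' hL hL'
        rw [← (hg1 L _ h).2.2, ← (hg1 L' _ h').2.2]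
      | true =>
        rw [hgt L' hL'] at h'
        have e1' := A5_mem1.1 (hg1 L _ h).2.1
        have e2' := A5_mem2.1 (hg2 L' _ h').2.1
        omega
    | true =>
      rw [hgt L hL] at h
      cases hL' : hb L' with
      | false =>
        rw [hgf L' hL'] at h'
        have e1' := A5_mem1.1 (hg1 L' _ h').2.1
        have e2' := A5_mem2.1 (hg2 L _ h).2.1
        omega
      | true =>
        rw [hgt L' hL'] at h'
        apply hψ2 L L' hL hL'
        rw [← (hg2 L _ h).2.2, ← (hg2 L' _ h').2.2]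
  · intro c i h
    rcases h with h | h
    · obtain ⟨L, hL, hLs⟩ := hg1s (c, i) (A5_mem1.2 h)
      refine ⟨L, ?_⟩
      simp only
      rw [hgf L (mem_filter.1 hL).2]
      exact hLs
    · obtain ⟨L, hL, hLs⟩ := hg2s (c, i) (A5_mem2.2 h)
      refine ⟨L, ?_⟩
      simp only
      rw [hgt L (mem_filter.1 hL).2]
      exact hLs
  · intro L L' c0 i0 i0' c i c' i' hne hL hL' hg0 hg0' hg hg' hXc
    simp only at hg hg'
    rw [hgf L hL] at hg
    rw [hgf L' hL'] at hg'
    have a1 := hg1 L _ hg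
    have a2 := hg1 L' _ hg'
    have a3 := he1c _ a1.2.1 _ a2.2.1 hXc
    have a4 := he1c _ a2.2.1 _ a1.2.1 hXc.symm
    have a5 := hφ3 L L' c0 i0 i0' hL hL' hg0 hg0' hne
    rw [a1.2.2, a2.2.2] at a3 a4
    omega
  · intro L L' c i i' c0 i0 c0' i0' hne hL hL' hg hg' hg0 hg0' hYc
    simp only at hg hg'
    rw [hgt L hL] at hg
    rw [hgt L' hL'] at hg'
    have a1 := hg2 L _ hg
    have a2 := hg2 L' _ hg'
    have a3 := hψ3 L L' c0 i0 c0' i0' hL hL' hg0 hg0' hne hYc
    have a4 := hψ3 L' L c0' i0' c0 i0 hL' hL hg0' hg0 (Ne.symm hne) hYc.symm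
    have b1 := hmem2 _ a1.2.1
    have b2 := hmem2 _ a2.2.1
    have c1 : ρ c i = ψ L := a1.2.2
    have c2 : ρ c i' = ψ L' := a2.2.2
    rcases lt_trichotomy i i' with hi | hi | hi
    · have := hρ3 c i i' b2 hi
      omega
    · subst hi
      exact hne (hψ2 L L' hL hL' (c1.symm.trans c2))
    · have := hρ3 c i' i b1 hi
      omega

/-- the next boundary -/
theorem A5_next {k v w f b p e : ℕ} (hv : v ≤ k) (Y : ℕ → ℕ) (hY : Pref w Y)
    (hb : Fin k → Bool) (g : Fin k → Option (ℕ × ℕ)) (hw : f + b + p + e ≤ w)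
    (hbp : b = 0 ∨ p = 0) (hv1 : f + 2 * p ≤ v)
    (hv2 : 3 * e + 2 * b < k - v ∨ (e = 0 ∧ b = 0)) (h6 : f + p = 0 ∨ 6 ≤ v)
    (hg : ∀ L c i, g L = some (c, i) →
        (hb L = false ∧ ((c < f ∧ i < 1) ∨ ((f ≤ c ∧ c < f + b) ∧ i < 2))) ∨
        (hb L = true ∧ (((f + b ≤ c ∧ c < f + b + p) ∧ i < 2) ∨
          ((f + b + p ≤ c ∧ c < f + b + p + e) ∧ i < 3))))
    (hinj : ∀ L L' s, g L = some s → g L' = some s → L = L') :
    ∃ hb' : Fin k → Bool, State k v hb' g Y ∧
      ∀ L c i, g L = some (c, i) →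
        (hb' L = true ∧ ((c < f ∧ i < 1) ∨ ((f + b ≤ c ∧ c < f + b + p) ∧ i < 2))) ∨
        (hb' L = false ∧ (((f ≤ c ∧ c < f + b) ∧ i < 2) ∨
          ((f + b + p ≤ c ∧ c < f + b + p + e) ∧ i < 3))) := by
  classical
  -- elements forced to be true, false
  have hA : ∀ S : Finset (ℕ × ℕ), (univ.filter (fun L => ∃ s ∈ S, g L = some s)).card ≤ S.card := by
    intro S
    have h1 : (univ.filter (fun L => ∃ s ∈ S, g L = some s)) ⊆
        (S.biUnion (fun s => univ.filter (fun L => g L = some s))) := by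
      intro L hL
      obtain ⟨s, hs, hLs⟩ := (mem_filter.1 hL).2
      exact mem_biUnion.2 ⟨s, hs, mem_filter.2 ⟨mem_univ _, hLs⟩⟩
    refine (card_le_card h1).trans (card_biUnion_le.trans ?_)
    refine (Finset.sum_le_card_nsmul S _ 1 ?_).trans (by simp)
    intro s _
    apply card_le_one.2
    intro L hL L' hL'
    exact hinj L L' s (mem_filter.1 hL).2 (mem_filter.1 hL').2
  set ST := (range f) ×ˢ (range 1) ∪ (Ico (f + b) (f + b + p)) ×ˢ (range 2) with hST
  set SF := (Ico f (f + b)) ×ˢ (range 2) ∪ (Ico (f + b + p) (f + b + p + e)) ×ˢ (range 3) with hSF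
  have hdisj : ∀ s, s ∈ ST → s ∈ SF → False := by
    intro s h1 h2
    rw [hST] at h1
    rw [hSF] at h2
    have h1' := A5_mem1.1 h1
    have h2' := A5_mem2.1 h2
    omega
  have hcov : ∀ L c i, g L = some (c, i) → (c, i) ∈ ST ∨ (c, i) ∈ SF := by
    intro L c i h
    rw [hST, hSF, A5_mem1, A5_mem2]
    rcases hg L c i h with h | h
    · rcases h.2 with h | h
      · exact Or.inl (Or.inl h)
      · exact Or.inr (Or.inl h)
    · rcases h.2 with h | h
      · exact Or.inl (Or.inr h)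
      · exact Or.inr (Or.inr h)
  have hTc : (univ.filter (fun L => ∃ s ∈ ST, g L = some s)).card ≤ v :=
    (hA ST).trans ((A5_card1 f (f + b) p).trans hv1)
  have hFc : (univ.filter (fun L => ∃ s ∈ SF, g L = some s)).card ≤ k - v := by
    refine (hA SF).trans ((A5_card2 f b (f + b + p) e).trans ?_)
    omega
  have hsub : (univ.filter (fun L => ∃ s ∈ ST, g L = some s)) ⊆
      univ \ (univ.filter (fun L => ∃ s ∈ SF, g L = some s)) := by
    intro L hL
    rw [mem_sdiff]
    refine ⟨mem_univ _, fun h => ?_⟩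
    obtain ⟨s, hs, hLs⟩ := (mem_filter.1 hL).2
    obtain ⟨s', hs', hLs'⟩ := (mem_filter.1 h).2
    have : s = s' := Option.some.inj (hLs.symm.trans hLs')
    subst this
    exact hdisj s hs hs'
  have hvc : v ≤ (univ \ (univ.filter (fun L => ∃ s ∈ SF, g L = some s)) : Finset (Fin k)).card := by
    rw [card_sdiff_of_subset (subset_univ _), card_univ, Fintype.card_fin]
    omega
  obtain ⟨T, hT1, hT2, hT3⟩ := exists_subsuperset_card_eq hsub hTc hvc
  have hbT : ∀ L, (decide (L ∈ T) = true) ↔ L ∈ T := by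
    intro L
    simp
  have hbF : ∀ L, (decide (L ∈ T) = false) ↔ L ∉ T := by
    intro L
    simp
  have hTST : ∀ L c i, g L = some (c, i) → L ∈ T → (c, i) ∈ ST := by
    intro L c i h hL
    rcases hcov L c i h with h' | h'
    · exact h'
    · have h3 := hT2 hL
      rw [mem_sdiff] at h3
      exact absurd (mem_filter.2 ⟨mem_univ _, (c, i), h', h⟩) h3.2
  have hTSF : ∀ L c i, g L = some (c, i) → L ∉ T → (c, i) ∈ SF := by
    intro L c i h hL
    rcases hcov L c i h with h' | h'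
    · exact absurd (hT1 (mem_filter.2 ⟨mem_univ _, (c, i), h', h⟩)) hL
    · exact h'
  have hPt : (univ.filter (fun L : Fin k => decide (L ∈ T) = true)) = T := by
    ext L
    simp
  have hPf : (univ.filter (fun L : Fin k => decide (L ∈ T) = false)) = univ \ T := by
    ext L
    simp
  have hPfc : (univ \ T : Finset (Fin k)).card = k - v := by
    rw [card_sdiff_of_subset (subset_univ _), card_univ, Fintype.card_fin, hT3]
  refine ⟨fun L => decide (L ∈ T), ⟨?_, ?_, ?_⟩, ?_⟩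
  · rw [hPt, hT3]
  · obtain ⟨ρ, hρ1, hρ2, hρ3⟩ := exists_spread (N := k - v) (a2 := f) (p := b) (a3 := f + b + p)
      (q := e) (by omega) hv2
    have hmem2 : ∀ s : ℕ × ℕ, s ∈ SF →
        ((f ≤ s.1 ∧ s.1 < f + b ∧ s.2 < 2) ∨
          (f + b + p ≤ s.1 ∧ s.1 < f + b + p + e ∧ s.2 < 3)) := by
      intro s hs
      rw [hSF] at hs
      rcases A5_mem2.1 hs with h | h
      · exact Or.inl ⟨h.1.1, h.1.2, h.2⟩
      · exact Or.inr ⟨h.1.1, h.1.2, h.2⟩
    have hS : ∀ L, L ∈ (univ \ T).filter (fun L => (g L).isSome = true) →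
        ∃ s, g L = some s ∧ s ∈ SF := by
      intro L hL
      rw [mem_filter, mem_sdiff] at hL
      obtain ⟨s, hs⟩ := Option.isSome_iff_exists.1 hL.2
      exact ⟨s, hs, hTSF L s.1 s.2 hs hL.1.2⟩
    obtain ⟨φ, hφ1, hφ2, hφ3⟩ := exists_extend (univ \ T)
      ((univ \ T).filter (fun L => (g L).isSome = true)) (filter_subset _ _)
      (fun L => ρ ((g L).getD (0, 0)).1 ((g L).getD (0, 0)).2)
      (by
        intro L hL
        obtain ⟨s, hs, hsF⟩ := hS L hL
        rw [hPfc]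
        simp only [hs, Option.getD_some]
        exact hρ1 _ _ (hmem2 s hsF))
      (by
        intro L hL L' hL' h
        obtain ⟨s, hs, hsF⟩ := hS L hL
        obtain ⟨s', hs', hsF'⟩ := hS L' hL'
        simp only [hs, hs', Option.getD_some] at h
        have h' := hρ2 _ _ _ _ (hmem2 s hsF) (hmem2 s' hsF') h
        have h'' : s = s' := Prod.ext h'.1 h'.2
        subst h''
        exact hinj L L' s hs hs')
    have hval : ∀ L s, L ∉ T → g L = some s → φ L = ρ s.1 s.2 := by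
      intro L s hL hs
      rw [hφ1 L (mem_filter.2 ⟨mem_sdiff.2 ⟨mem_univ _, hL⟩, by rw [hs]; rfl⟩)]
      simp only [hs, Option.getD_some]
    refine ⟨φ, ?_, ?_, ?_⟩
    · intro L hL
      rw [← hPfc]
      exact hφ2 L (mem_sdiff.2 ⟨mem_univ _, (hbF L).1 hL⟩)
    · intro L L' hL hL' h
      exact hφ3 L (mem_sdiff.2 ⟨mem_univ _, (hbF L).1 hL⟩) L'
        (mem_sdiff.2 ⟨mem_univ _, (hbF L').1 hL'⟩) h
    · intro L L' c i i' hL hL' hgL hgL' hne
      have a1 := hval L _ ((hbF L).1 hL) hgL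
      have a2 := hval L' _ ((hbF L').1 hL') hgL'
      have b1 := hmem2 _ (hTSF L c i hgL ((hbF L).1 hL))
      have b2 := hmem2 _ (hTSF L' c i' hgL' ((hbF L').1 hL'))
      simp only at a1 a2 b1 b2
      rcases lt_trichotomy i i' with hi | hi | hi
      · have := hρ3 c i i' b2 hi
        omega
      · subst hi
        exact absurd (hinj L L' _ hgL hgL') hne
      · have := hρ3 c i' i b1 hi
        omega
  · obtain ⟨e1, he1, he1i, he1c⟩ := A5_sort (N := v) (f := f) (a := f + b) (q := p) Y hY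
      (by omega) (by omega) hv1 h6
    have hS : ∀ L, L ∈ T.filter (fun L => (g L).isSome = true) →
        ∃ s, g L = some s ∧ s ∈ ST := by
      intro L hL
      rw [mem_filter] at hL
      obtain ⟨s, hs⟩ := Option.isSome_iff_exists.1 hL.2
      exact ⟨s, hs, hTST L s.1 s.2 hs hL.1⟩
    obtain ⟨ψ, hψ1, hψ2, hψ3⟩ := exists_extend T
      (T.filter (fun L => (g L).isSome = true)) (filter_subset _ _)
      (fun L => e1 ((g L).getD (0, 0)))
      (by
        intro L hL
        obtain ⟨s, hs, hsF⟩ := hS L hL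
        rw [hT3]
        simp only [hs, Option.getD_some]
        exact he1 _ hsF)
      (by
        intro L hL L' hL' h
        obtain ⟨s, hs, hsF⟩ := hS L hL
        obtain ⟨s', hs', hsF'⟩ := hS L' hL'
        simp only [hs, hs', Option.getD_some] at h
        have h'' : s = s' := he1i _ hsF _ hsF' h
        subst h''
        exact hinj L L' s hs hs')
    have hval : ∀ L s, L ∈ T → g L = some s → ψ L = e1 s := by
      intro L s hL hs
      rw [hψ1 L (mem_filter.2 ⟨hL, by rw [hs]; rfl⟩)]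
      simp only [hs, Option.getD_some]
    refine ⟨ψ, ?_, ?_, ?_⟩
    · intro L hL
      rw [← hT3]
      exact hψ2 L ((hbT L).1 hL)
    · intro L L' hL hL' h
      exact hψ3 L ((hbT L).1 hL) L' ((hbT L').1 hL') h
    · intro L L' c i c' i' hL hL' hgL hgL' hne hYc
      have a1 := hval L _ ((hbT L).1 hL) hgL
      have a2 := hval L' _ ((hbT L').1 hL') hgL'
      rw [a1, a2]
      exact he1c _ (hTST L c i hgL ((hbT L).1 hL)) _ (hTST L' c' i' hgL' ((hbT L').1 hL')) hYc
  · intro L c i h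
    by_cases hL : L ∈ T
    · exact Or.inl ⟨(hbT L).2 hL, A5_mem1.1 (hTST L c i h hL)⟩
    · exact Or.inr ⟨(hbF L).2 hL, A5_mem2.1 (hTSF L c i h hL)⟩

/-- the step: lo side = slots of types (0,1) (0,0) sorted by the colour `X` put on the elements with
`hb = false` in the order `φ`; hi side = slots of types (1,1) (1,0) put on the `ψ`-positions of
`exists_spread`; then `hb'`. -/
theorem step {k u v w : ℕ} (hu : u ≤ k) (hv : v ≤ k) (h1 : 6 * w + u ≤ 3 * k + 3 * v)
    (h2 : 6 * w + 3 * u ≤ 5 * k + v) (X Y Y0 : ℕ → ℕ) (hX : Pref w X) (hY : Pref w Y)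
    (hb : Fin k → Bool) (g0 : Fin k → Option (ℕ × ℕ)) (hst : State k u hb g0 Y0) :
    ∃ (hb' : Fin k → Bool) (g : Fin k → Option (ℕ × ℕ)) (sz : ℕ → ℕ),
      State k v hb' g Y ∧ Lvl k w hb hb' g sz ∧ LoR X hb g0 g ∧ HiR Y0 hb g0 g := by
  classical
  obtain ⟨f, b, p, e, hc1, hc2, hbp, hlo, hhi, hv1, hv2, h6u, h6v⟩ := exists_counts hu hv h1 h2
  obtain ⟨g, hg, hinj, hsurj, hLo, hHi⟩ := A5_place (f := f) (b := b) (p := p) (e := e) hu X Y0 hX
    hb g0 hst hc1 hlo hhi h6u
  obtain ⟨hb', hst', hg'⟩ := A5_next (f := f) (b := b) (p := p) (e := e) hv Y hY hb g hc1 hbp hv1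
    hv2 h6v hg hinj
  refine ⟨hb', g, fun c => if c < f then 1 else if c < f + b + p then 2 else
    if c < f + b + p + e then 3 else 0, hst', ⟨?_, ?_, ?_, ?_⟩, hLo, hHi⟩
  · intro L c i h
    have a1 := hg L c i h
    have a2 := hg' L c i h
    simp only
    rcases a1 with ⟨a1, a1'⟩ | ⟨a1, a1'⟩ <;> rcases a2 with ⟨a2, a2'⟩ | ⟨a2, a2'⟩ <;>
      rw [a1, a2] <;> refine ⟨by omega, ?_, ?_⟩ <;> split_ifs <;> first | omega | simp_all
  · intro L L' c i i' h h'
    have a1 := hg L c i h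
    have a2 := hg' L c i h
    have a3 := hg L' c i' h'
    have a4 := hg' L' c i' h'
    refine ⟨?_, ?_, ?_⟩
    · rcases a1 with ⟨a1, a1'⟩ | ⟨a1, a1'⟩ <;> rcases a3 with ⟨a3, a3'⟩ | ⟨a3, a3'⟩ <;>
        rw [a1, a3] <;> omega
    · rcases a2 with ⟨a2, a2'⟩ | ⟨a2, a2'⟩ <;> rcases a4 with ⟨a4, a4'⟩ | ⟨a4, a4'⟩ <;>
        rw [a2, a4] <;> omega
    · intro hi
      subst hi
      exact hinj L L' _ h h'
  · intro c i hi
    apply hsurj
    simp only at hi
    split_ifs at hi <;> omega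
  · have hsub : (range w).filter (fun c => (if c < f then 1 else if c < f + b + p then 2 else
        if c < f + b + p + e then 3 else 0) = 0) ⊆ Ico (f + b + p + e) w := by
      intro c hc
      rw [mem_filter, mem_range] at hc
      rw [mem_Ico]
      refine ⟨?_, hc.1⟩
      have h3 := hc.2
      split_ifs at h3
      omega
    refine (card_le_card hsub).trans ?_
    rw [Nat.card_Ico]
    omega
-- END A5

-- BEGIN A6
/-- all data up to the boundary `n`; `G (j + 1)` are the groups of level `j` -/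
theorem A6_aux (t k : ℕ) (u w : ℕ → ℕ) (X Y : ℕ → ℕ → ℕ) (hu0 : u 0 = 0) (hut : u t = k)
    (hu : ∀ j < t, u j ≤ k ∧ 6 * w j + u j ≤ 3 * k + 3 * u (j + 1) ∧
      6 * w j + 3 * u j ≤ 5 * k + u (j + 1))
    (hX : ∀ j < t, Pref (w j) (X j)) (hY : ∀ j < t, Pref (w j) (Y j)) (n : ℕ) (hn : n ≤ t) :
    ∃ (hb : ℕ → Fin k → Bool) (G : ℕ → Fin k → Option (ℕ × ℕ)) (sz : ℕ → ℕ → ℕ),
      (∀ L, hb 0 L = false) ∧
      State k (u n) (hb n) (G n) (Nat.casesOn n (fun _ => 0) (fun j => Y j)) ∧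
      (∀ j < n, Lvl k (w j) (hb j) (hb (j + 1)) (G (j + 1)) (sz j)) ∧
      (∀ j < n, LoR (X j) (hb j) (G j) (G (j + 1))) ∧
      (∀ j < n, HiR (Nat.casesOn j (fun _ => 0) (fun i => Y i)) (hb j) (G j) (G (j + 1))) := by
  induction n with
  | zero =>
    refine ⟨fun _ _ => false, fun _ _ => none, fun _ _ => 0, fun _ => rfl, ⟨?_, ?_, ?_⟩, ?_, ?_, ?_⟩
    · rw [hu0]
      simp
    · refine ⟨fun L => L.val, ?_, ?_, ?_⟩
      · intro L _
        rw [hu0]
        exact L.isLt
      · intro L L' _ _ h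
        exact Fin.ext h
      · intro L L' c i i' _ _ h
        exact absurd h (by simp)
    · refine ⟨fun _ => 0, ?_, ?_, ?_⟩
      · intro L h
        exact absurd h (by simp)
      · intro L L' h
        exact absurd h (by simp)
      · intro L L' c i c' i' h
        exact absurd h (by simp)
    · intro j hj
      exact absurd hj (Nat.not_lt_zero j)
    · intro j hj
      exact absurd hj (Nat.not_lt_zero j)
    · intro j hj
      exact absurd hj (Nat.not_lt_zero j)
  | succ n ih =>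
    obtain ⟨hb, G, sz, h0, hst, hL, hlo, hhi⟩ := ih (by omega)
    have hnt : n < t := by omega
    have hv : u (n + 1) ≤ k := by
      by_cases h : n + 1 < t
      · exact (hu (n + 1) h).1
      · have h2 : n + 1 = t := by omega
        rw [h2, hut]
    obtain ⟨hb', g', sz', hst', hL', hlo', hhi'⟩ := step (hu n hnt).1 hv (hu n hnt).2.1
      (hu n hnt).2.2 (X n) (Y n) _ (hX n hnt) (hY n hnt) (hb n) (G n) hst
    refine ⟨fun j => if j = n + 1 then hb' else hb j, fun j => if j = n + 1 then g' else G j,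
      fun j => if j = n then sz' else sz j, ?_, ?_, ?_, ?_, ?_⟩
    · intro L
      have h1 : ¬ (0 = n + 1) := by omega
      simp only [if_neg h1]
      exact h0 L
    · simp only [if_true]
      exact hst'
    · intro j hj
      by_cases hjn : j = n
      · subst hjn
        have h1 : ¬ (j = j + 1) := by omega
        simp only [if_neg h1, if_true]
        exact hL'
      · have h1 : ¬ (j = n + 1) := by omega
        have h2 : ¬ (j + 1 = n + 1) := by omega
        simp only [if_neg h1, if_neg h2, if_neg hjn]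
        exact hL j (by omega)
    · intro j hj
      by_cases hjn : j = n
      · subst hjn
        have h1 : ¬ (j = j + 1) := by omega
        simp only [if_neg h1, if_true]
        exact hlo'
      · have h1 : ¬ (j = n + 1) := by omega
        have h2 : ¬ (j + 1 = n + 1) := by omega
        simp only [if_neg h1, if_neg h2]
        exact hlo j (by omega)
    · intro j hj
      by_cases hjn : j = n
      · subst hjn
        have h1 : ¬ (j = j + 1) := by omega
        simp only [if_neg h1, if_true]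
        exact hhi'
      · have h1 : ¬ (j = n + 1) := by omega
        have h2 : ¬ (j + 1 = n + 1) := by omega
        simp only [if_neg h1, if_neg h2]
        exact hhi j (by omega)

/-- iteration over the levels -/
theorem exists_scheme (t k : ℕ) (u w : ℕ → ℕ) (X Y : ℕ → ℕ → ℕ) (hu0 : u 0 = 0) (hut : u t = k)
    (hu : ∀ j < t, u j ≤ k ∧ 6 * w j + u j ≤ 3 * k + 3 * u (j + 1) ∧
      6 * w j + 3 * u j ≤ 5 * k + u (j + 1))
    (hX : ∀ j < t, Pref (w j) (X j)) (hY : ∀ j < t, Pref (w j) (Y j)) :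
    ∃ (hb : ℕ → Fin k → Bool) (g : ℕ → Fin k → Option (ℕ × ℕ)) (sz : ℕ → ℕ → ℕ),
      (∀ L, hb 0 L = false) ∧ (∀ L, hb t L = true) ∧
      (∀ j < t, Lvl k (w j) (hb j) (hb (j + 1)) (g j) (sz j)) ∧
      (∀ j, j + 1 < t → LoR (X (j + 1)) (hb (j + 1)) (g j) (g (j + 1))) ∧
      (∀ j, j + 1 < t → HiR (Y j) (hb (j + 1)) (g j) (g (j + 1))) := by
  obtain ⟨hb, G, sz, h0, hst, hL, hlo, hhi⟩ := A6_aux t k u w X Y hu0 hut hu hX hY t le_rfl
  refine ⟨hb, fun j => G (j + 1), sz, h0, ?_, hL, ?_, ?_⟩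
  · intro L
    have h1 := hst.1
    rw [hut] at h1
    have h2 : univ.filter (fun L => hb t L = true) = (univ : Finset (Fin k)) := by
      apply Finset.eq_of_subset_of_card_le (subset_univ _)
      rw [h1, card_univ, Fintype.card_fin]
    have h3 : L ∈ univ.filter (fun L => hb t L = true) := by
      rw [h2]
      exact mem_univ L
    exact (mem_filter.1 h3).2
  · intro j hj
    exact hlo (j + 1) hj
  · intro j hj
    exact hhi (j + 1) hj
-- END A6

end Pool.E98
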