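import Mathlib

/-! Symmetric chain decompositions and chain systems. -/

namespace Pool.E98

open Finset

/-- every prefix of length `m ≤ w` contains at most `max 1 (m/6)` indices of each colour -/
def Pref (w : ℕ) (X : ℕ → ℕ) : Prop :=
  ∀ m ≤ w, ∀ y, 6 * ((range m).filter (fun c => X c = y)).card ≤ max 6 m

-- BEGIN C1
/-- members of the chains of `insert x E` -/
def C1_mem (x : ℕ) (E : Finset ℕ) (al : Finset ℕ → ℕ) (mem : Finset ℕ → ℕ → Finset ℕ)
    (W : Finset ℕ) (s : ℕ) : Finset ℕ :=
  if x ∉ W ∨ (W.erase x).card + al (W.erase x) = E.card then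
    (if s + al (W.erase x) ≤ E.card then mem (W.erase x) s
      else insert x (mem (W.erase x) (s - 1)))
  else insert x (mem (W.erase x) (s - 1))

/-- smallest size in the chains of `insert x E` -/
def C1_al (x : ℕ) (E : Finset ℕ) (al : Finset ℕ → ℕ) (W : Finset ℕ) : ℕ :=
  if x ∉ W ∨ (W.erase x).card + al (W.erase x) = E.card then al (W.erase x)
  else al (W.erase x) + 1

/-- the induction step -/
theorem C1_step (x : ℕ) (E : Finset ℕ) (hx : x ∉ E) (al : Finset ℕ → ℕ)
    (mem : Finset ℕ → ℕ → Finset ℕ)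
    (h : ∀ W ⊆ E,
      al W ≤ W.card ∧ W.card + al W ≤ E.card ∧ mem W W.card = W ∧
      (∀ s, al W ≤ s → s + al W ≤ E.card →
        mem W s ⊆ E ∧ (mem W s).card = s ∧ al (mem W s) = al W ∧
        ∀ s', al W ≤ s' → s' + al W ≤ E.card → mem (mem W s) s' = mem W s') ∧
      (∀ s s', al W ≤ s → s ≤ s' → s' + al W ≤ E.card → mem W s ⊆ mem W s'))
    (W : Finset ℕ) (hW : W ⊆ insert x E) :
      C1_al x E al W ≤ W.card ∧ W.card + C1_al x E al W ≤ (insert x E).card ∧
      C1_mem x E al mem W W.card = W ∧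
      (∀ s, C1_al x E al W ≤ s → s + C1_al x E al W ≤ (insert x E).card →
        C1_mem x E al mem W s ⊆ insert x E ∧ (C1_mem x E al mem W s).card = s ∧
        C1_al x E al (C1_mem x E al mem W s) = C1_al x E al W ∧
        ∀ s', C1_al x E al W ≤ s' → s' + C1_al x E al W ≤ (insert x E).card →
          C1_mem x E al mem (C1_mem x E al mem W s) s' = C1_mem x E al mem W s') ∧
      (∀ s s', C1_al x E al W ≤ s → s ≤ s' → s' + C1_al x E al W ≤ (insert x E).card →
        C1_mem x E al mem W s ⊆ C1_mem x E al mem W s') := by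
  have hc : (insert x E).card = E.card + 1 := card_insert_of_notMem hx
  rw [hc]
  have hW0 : W.erase x ⊆ E := by
    intro y hy
    rcases mem_erase.1 hy with ⟨h1, h2⟩
    rcases mem_insert.1 (hW h2) with h3 | h3
    · exact absurd h3 h1
    · exact h3
  obtain ⟨g1, g2, g3, g4, g5⟩ := h (W.erase x) hW0
  -- a set of the old chain
  have key : ∀ s, al (W.erase x) ≤ s → s + al (W.erase x) ≤ E.card →
      x ∉ mem (W.erase x) s := fun s hs hs' hxm => hx ((g4 s hs hs').1 hxm)
  by_cases hl : x ∉ W ∨ (W.erase x).card + al (W.erase x) = E.card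
  · -- the long chain
    have eal : C1_al x E al W = al (W.erase x) := by
      unfold C1_al
      rw [if_pos hl]
    have emem : ∀ s, C1_mem x E al mem W s =
        if s + al (W.erase x) ≤ E.card then mem (W.erase x) s
          else insert x (mem (W.erase x) (s - 1)) := by
      intro s
      unfold C1_mem
      rw [if_pos hl]
    rw [eal]
    refine ⟨?_, ?_, ?_, ?_, ?_⟩
    · exact g1.trans (card_le_card (erase_subset x W))
    · by_cases hxW : x ∈ W
      · have : (W.erase x).card + 1 = W.card := card_erase_add_one hxW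
        omega
      · rw [erase_eq_of_notMem hxW] at g2 ⊢
        omega
    · rw [emem]
      by_cases hxW : x ∈ W
      · have h1 : (W.erase x).card + 1 = W.card := card_erase_add_one hxW
        have h2 : (W.erase x).card + al (W.erase x) = E.card := by
          rcases hl with h2 | h2
          · exact absurd hxW h2
          · exact h2
        rw [if_neg (by omega), ← h1, Nat.add_sub_cancel, g3, insert_erase hxW]
      · rw [erase_eq_of_notMem hxW] at g2 g3 ⊢
        rw [if_pos g2, g3]
    · intro s hs hs'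
      rw [emem]
      by_cases hlt : s + al (W.erase x) ≤ E.card
      · rw [if_pos hlt]
        obtain ⟨k1, k2, k3, k4⟩ := g4 s hs hlt
        have hxm := key s hs hlt
        refine ⟨k1.trans (subset_insert x E), k2, ?_, ?_⟩
        · unfold C1_al
          rw [if_pos (Or.inl hxm), erase_eq_of_notMem hxm, k3]
        · intro s' h1 h2
          rw [emem]
          unfold C1_mem
          rw [if_pos (Or.inl hxm), erase_eq_of_notMem hxm, k3]
          by_cases h3 : s' + al (W.erase x) ≤ E.card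
          · rw [if_pos h3, if_pos h3, k4 s' h1 h3]
          · rw [if_neg h3, if_neg h3, k4 (s' - 1) (by omega) (by omega)]
      · rw [if_neg hlt]
        obtain ⟨k1, k2, k3, k4⟩ := g4 (s - 1) (by omega) (by omega)
        have hxm := key (s - 1) (by omega) (by omega)
        have hle : al (W.erase x) ≤ s - 1 := by omega
        have her : (insert x (mem (W.erase x) (s - 1))).erase x = mem (W.erase x) (s - 1) :=
          erase_insert hxm
        have hlong : x ∉ insert x (mem (W.erase x) (s - 1)) ∨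
            ((insert x (mem (W.erase x) (s - 1))).erase x).card +
              al ((insert x (mem (W.erase x) (s - 1))).erase x) = E.card := by
          right
          rw [her, k2, k3]
          omega
        refine ⟨insert_subset_insert x k1, ?_, ?_, ?_⟩
        · rw [card_insert_of_notMem hxm, k2]
          omega
        · unfold C1_al
          rw [if_pos hlong, her, k3]
        · intro s' h1 h2
          rw [emem]
          unfold C1_mem
          rw [if_pos hlong, her, k3]
          by_cases h3 : s' + al (W.erase x) ≤ E.card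
          · rw [if_pos h3, if_pos h3, k4 s' h1 h3]
          · rw [if_neg h3, if_neg h3, k4 (s' - 1) (by omega) (by omega)]
    · intro s s' h1 h2 h3
      rw [emem, emem]
      by_cases h4 : s + al (W.erase x) ≤ E.card
      · rw [if_pos h4]
        by_cases h5 : s' + al (W.erase x) ≤ E.card
        · rw [if_pos h5]
          exact g5 s s' h1 h2 h5
        · rw [if_neg h5]
          exact (g5 s (s' - 1) h1 (by omega) (by omega)).trans (subset_insert _ _)
      · have h5 : ¬ s' + al (W.erase x) ≤ E.card := by omega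
        rw [if_neg h4, if_neg h5]
        exact insert_subset_insert x (g5 (s - 1) (s' - 1) (by omega) (by omega) (by omega))
  · -- the short chain
    have eal : C1_al x E al W = al (W.erase x) + 1 := by
      unfold C1_al
      rw [if_neg hl]
    have emem : ∀ s, C1_mem x E al mem W s = insert x (mem (W.erase x) (s - 1)) := by
      intro s
      unfold C1_mem
      rw [if_neg hl]
    have hxW : x ∈ W := by
      by_contra h1
      exact hl (Or.inl h1)
    have hne : (W.erase x).card + al (W.erase x) ≠ E.card := fun h1 => hl (Or.inr h1)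
    have hcW : (W.erase x).card + 1 = W.card := card_erase_add_one hxW
    rw [eal]
    refine ⟨by omega, by omega, ?_, ?_, ?_⟩
    · rw [emem, ← hcW, Nat.add_sub_cancel, g3, insert_erase hxW]
    · intro s hs hs'
      rw [emem]
      obtain ⟨k1, k2, k3, k4⟩ := g4 (s - 1) (by omega) (by omega)
      have hxm := key (s - 1) (by omega) (by omega)
      have her : (insert x (mem (W.erase x) (s - 1))).erase x = mem (W.erase x) (s - 1) :=
        erase_insert hxm
      have hshort : ¬ (x ∉ insert x (mem (W.erase x) (s - 1)) ∨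
          ((insert x (mem (W.erase x) (s - 1))).erase x).card +
            al ((insert x (mem (W.erase x) (s - 1))).erase x) = E.card) := by
        rw [her, k2, k3]
        rintro (h1 | h1)
        · exact h1 (mem_insert_self _ _)
        · omega
      refine ⟨insert_subset_insert x k1, ?_, ?_, ?_⟩
      · rw [card_insert_of_notMem hxm, k2]
        omega
      · unfold C1_al
        rw [if_neg hshort, her, k3]
      · intro s' h1 h2
        rw [emem]
        unfold C1_mem
        rw [if_neg hshort, her, k4 (s' - 1) (by omega) (by omega)]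
    · intro s s' h1 h2 h3
      rw [emem, emem]
      exact insert_subset_insert x (g5 (s - 1) (s' - 1) (by omega) (by omega) (by omega))

/-- Symmetric chain decomposition of the subsets of `E`. `al W` is the size of the smallest member of
the chain of `W`, `mem W s` its member of size `s` (`al W ≤ s ≤ #E - al W`).
Induction on `E`; for `insert x E` and `W0 ⊆ E` with chain `C(al) ⊂ … ⊂ C(top)`: long chain
`C(al), …, C(top), C(top) ∪ {x}` and short chain `C(al) ∪ {x}, …, C(top-1) ∪ {x}`. -/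
theorem exists_scd (E : Finset ℕ) :
    ∃ (al : Finset ℕ → ℕ) (mem : Finset ℕ → ℕ → Finset ℕ), ∀ W ⊆ E,
      al W ≤ W.card ∧ W.card + al W ≤ E.card ∧ mem W W.card = W ∧
      (∀ s, al W ≤ s → s + al W ≤ E.card →
        mem W s ⊆ E ∧ (mem W s).card = s ∧ al (mem W s) = al W ∧
        ∀ s', al W ≤ s' → s' + al W ≤ E.card → mem (mem W s) s' = mem W s') ∧
      (∀ s s', al W ≤ s → s ≤ s' → s' + al W ≤ E.card → mem W s ⊆ mem W s') := by
  induction E using Finset.induction_on with
  | empty =>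
    refine ⟨fun _ => 0, fun _ _ => ∅, fun W hW => ?_⟩
    have hW' : W = ∅ := subset_empty.1 hW
    subst hW'
    refine ⟨le_rfl, le_rfl, rfl, ?_, ?_⟩
    · intro s _ hs
      have hs0 : s = 0 := by
        rw [card_empty] at hs
        omega
      subst hs0
      exact ⟨subset_rfl, rfl, rfl, fun _ _ _ => rfl⟩
    · intro s s' _ _ _
      exact subset_rfl
  | insert x E hx ih =>
    obtain ⟨al, mem, h⟩ := ih
    exact ⟨C1_al x E al, C1_mem x E al mem, fun W hW => C1_step x E hx al mem h W hW⟩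
-- END C1

-- BEGIN C2
/-- what a symmetric chain decomposition gives, in a form which is easy to use -/
private theorem C2_facts {E : Finset ℕ} {al : Finset ℕ → ℕ} {mem : Finset ℕ → ℕ → Finset ℕ}
    (h : ∀ W ⊆ E,
      al W ≤ W.card ∧ W.card + al W ≤ E.card ∧ mem W W.card = W ∧
      (∀ s, al W ≤ s → s + al W ≤ E.card →
        mem W s ⊆ E ∧ (mem W s).card = s ∧ al (mem W s) = al W ∧
        ∀ s', al W ≤ s' → s' + al W ≤ E.card → mem (mem W s) s' = mem W s') ∧
      (∀ s s', al W ≤ s → s ≤ s' → s' + al W ≤ E.card → mem W s ⊆ mem W s'))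
    {W : Finset ℕ} (hW : W ⊆ E) :
    al W ≤ E.card / 2 ∧ E.card / 2 + al W ≤ E.card ∧ mem W (E.card / 2) ⊆ E ∧
      (mem W (E.card / 2)).card = E.card / 2 ∧ mem (mem W (E.card / 2)) W.card = W := by
  obtain ⟨h1, h2, h3, h4, -⟩ := h W hW
  have h5 : al W ≤ E.card / 2 := by omega
  have h6 : E.card / 2 + al W ≤ E.card := by omega
  obtain ⟨g1, g2, -, g4⟩ := h4 _ h5 h6
  exact ⟨h5, h6, g1, g2, by rw [g4 _ h1 h2, h3]⟩

/-- The product of two symmetric chain decompositions, every rectangle cut into `min` parallel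
chains; `mid W` = the member of size `m1` of the chain of `W`, `cx`, `cy` = middle members of the
classes of the two traces. -/
theorem exists_mid {n m1 m2 : ℕ} {P Q : Finset ℕ} (hn : n = m1 + m2) (h12 : m1 ≤ m2)
    (h21 : m2 ≤ m1 + 1) (hPQ : Disjoint P Q) (hU : P ∪ Q = range n) (hP : P.card = m1)
    (hQ : Q.card = m2) :
    ∃ (mid cx cy : Finset ℕ → Finset ℕ),
      (∀ W ⊆ range n, mid W ∈ powersetCard m1 (range n)) ∧
      (∀ W ⊆ range n, ∀ W' ⊆ range n, mid W = mid W' → W ⊆ W' ∨ W' ⊆ W) ∧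
      (∀ W ⊆ range n, cx (mid W ∩ P) = cx (W ∩ P) ∧ cy (mid W ∩ Q) = cy (W ∩ Q)) ∧
      (∀ W ⊆ P, cx W ∈ powersetCard (m1 / 2) P) ∧
      (∀ W ⊆ Q, cy W ∈ powersetCard (m2 / 2) Q) ∧
      (∀ M ∈ powersetCard m1 (range n), ∀ M' ∈ powersetCard m1 (range n),
        cx (M ∩ P) = cx (M' ∩ P) → M ∩ Q = M' ∩ Q → M = M') ∧
      (∀ M ∈ powersetCard m1 (range n), ∀ M' ∈ powersetCard m1 (range n),
        cy (M ∩ Q) = cy (M' ∩ Q) → M ∩ P = M' ∩ P → M = M') ∧
      (∀ C ∈ powersetCard (m1 / 2) P, ∀ D ∈ powersetCard (m2 / 2) Q,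
        ∃ M ∈ powersetCard m1 (range n), cx (M ∩ P) = C ∧ cy (M ∩ Q) = D) := by
  obtain ⟨aP, mP, hSP⟩ := exists_scd P
  obtain ⟨aQ, mQ, hSQ⟩ := exists_scd Q
  have hPU : P ⊆ range n := hU ▸ subset_union_left
  have hQU : Q ⊆ range n := hU ▸ subset_union_right
  -- splitting of a set
  have split : ∀ W ⊆ range n, W = (W ∩ P) ∪ (W ∩ Q) := by
    intro W hW
    rw [← inter_union_distrib_left, hU, inter_eq_left.2 hW]
  have cardsplit : ∀ W ⊆ range n, W.card = (W ∩ P).card + (W ∩ Q).card := by
    intro W hW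
    have hd : Disjoint (W ∩ P) (W ∩ Q) :=
      hPQ.mono inter_subset_right inter_subset_right
    rw [← card_union_of_disjoint hd, ← split W hW]
  have unionP : ∀ S T : Finset ℕ, S ⊆ P → T ⊆ Q → (S ∪ T) ∩ P = S := by
    intro S T hS hT
    rw [union_inter_distrib_right, inter_eq_left.2 hS,
      disjoint_iff_inter_eq_empty.1 (hPQ.symm.mono_left hT), union_empty]
  have unionQ : ∀ S T : Finset ℕ, S ⊆ P → T ⊆ Q → (S ∪ T) ∩ Q = T := by
    intro S T hS hT
    rw [union_inter_distrib_right, inter_eq_left.2 hT,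
      disjoint_iff_inter_eq_empty.1 (hPQ.mono_left hS), empty_union]
  have unionU : ∀ S T : Finset ℕ, S ⊆ P → T ⊆ Q → S ∪ T ⊆ range n := fun S T hS hT =>
    union_subset (hS.trans hPU) (hT.trans hQU)
  have unionC : ∀ S T : Finset ℕ, S ⊆ P → T ⊆ Q → (S ∪ T).card = S.card + T.card := by
    intro S T hS hT
    exact card_union_of_disjoint (hPQ.mono hS hT)
  -- definition of mid
  obtain ⟨mid, hmid⟩ : ∃ mid : Finset ℕ → Finset ℕ, ∀ W, mid W =
      if aQ (W ∩ Q) ≤ aP (W ∩ P) then (W ∩ P) ∪ mQ (W ∩ Q) (m1 - (W ∩ P).card)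
      else mP (W ∩ P) (m1 - (W ∩ Q).card) ∪ (W ∩ Q) := ⟨_, fun _ => rfl⟩
  -- the two cases
  have case1 : ∀ W ⊆ range n, aQ (W ∩ Q) ≤ aP (W ∩ P) →
      mid W = (W ∩ P) ∪ mQ (W ∩ Q) (m1 - (W ∩ P).card) ∧
      aQ (W ∩ Q) ≤ m1 - (W ∩ P).card ∧ (m1 - (W ∩ P).card) + aQ (W ∩ Q) ≤ Q.card ∧
      mQ (W ∩ Q) (m1 - (W ∩ P).card) ⊆ Q ∧ (W ∩ P).card ≤ m1 := by
    intro W hW h
    have hp := hSP (W ∩ P) inter_subset_right
    have hq := hSQ (W ∩ Q) inter_subset_right
    obtain ⟨p1, p2, p3, p4, p5⟩ := hp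
    obtain ⟨q1, q2, q3, q4, q5⟩ := hq
    have e1 : aQ (W ∩ Q) ≤ m1 - (W ∩ P).card := by omega
    have e2 : (m1 - (W ∩ P).card) + aQ (W ∩ Q) ≤ Q.card := by omega
    refine ⟨by rw [hmid, if_pos h], e1, e2, (q4 _ e1 e2).1, by omega⟩
  have case2 : ∀ W ⊆ range n, ¬ aQ (W ∩ Q) ≤ aP (W ∩ P) →
      mid W = mP (W ∩ P) (m1 - (W ∩ Q).card) ∪ (W ∩ Q) ∧
      aP (W ∩ P) ≤ m1 - (W ∩ Q).card ∧ (m1 - (W ∩ Q).card) + aP (W ∩ P) ≤ P.card ∧
      mP (W ∩ P) (m1 - (W ∩ Q).card) ⊆ P ∧ (W ∩ Q).card ≤ m1 := by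
    intro W hW h
    have hp := hSP (W ∩ P) inter_subset_right
    have hq := hSQ (W ∩ Q) inter_subset_right
    obtain ⟨p1, p2, p3, p4, p5⟩ := hp
    obtain ⟨q1, q2, q3, q4, q5⟩ := hq
    have e1 : aP (W ∩ P) ≤ m1 - (W ∩ Q).card := by omega
    have e2 : (m1 - (W ∩ Q).card) + aP (W ∩ P) ≤ P.card := by omega
    refine ⟨by rw [hmid, if_neg h], e1, e2, (p4 _ e1 e2).1, by omega⟩
  -- traces of mid stay in the classes
  have trP : ∀ W ⊆ range n, (mid W ∩ P) ⊆ P ∧ aP (mid W ∩ P) = aP (W ∩ P) ∧
      (∀ s', aP (W ∩ P) ≤ s' → s' + aP (W ∩ P) ≤ P.card →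
        mP (mid W ∩ P) s' = mP (W ∩ P) s') := by
    intro W hW
    refine ⟨inter_subset_right, ?_⟩
    by_cases h : aQ (W ∩ Q) ≤ aP (W ∩ P)
    · obtain ⟨e0, e1, e2, e3, e4⟩ := case1 W hW h
      rw [e0, unionP _ _ inter_subset_right e3]
      exact ⟨rfl, fun _ _ _ => rfl⟩
    · obtain ⟨e0, e1, e2, e3, e4⟩ := case2 W hW h
      rw [e0, unionP _ _ e3 inter_subset_right]
      obtain ⟨-, -, -, p4, -⟩ := hSP (W ∩ P) inter_subset_right
      exact ⟨(p4 _ e1 e2).2.2.1, (p4 _ e1 e2).2.2.2⟩
  have trQ : ∀ W ⊆ range n, (mid W ∩ Q) ⊆ Q ∧ aQ (mid W ∩ Q) = aQ (W ∩ Q) ∧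
      (∀ s', aQ (W ∩ Q) ≤ s' → s' + aQ (W ∩ Q) ≤ Q.card →
        mQ (mid W ∩ Q) s' = mQ (W ∩ Q) s') := by
    intro W hW
    refine ⟨inter_subset_right, ?_⟩
    by_cases h : aQ (W ∩ Q) ≤ aP (W ∩ P)
    · obtain ⟨e0, e1, e2, e3, e4⟩ := case1 W hW h
      rw [e0, unionQ _ _ inter_subset_right e3]
      obtain ⟨-, -, -, q4, -⟩ := hSQ (W ∩ Q) inter_subset_right
      exact ⟨(q4 _ e1 e2).2.2.1, (q4 _ e1 e2).2.2.2⟩
    · obtain ⟨e0, e1, e2, e3, e4⟩ := case2 W hW h
      rw [e0, unionQ _ _ e3 inter_subset_right]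
      exact ⟨rfl, fun _ _ _ => rfl⟩
  have hmem : ∀ W ⊆ range n, mid W ∈ powersetCard m1 (range n) := by
    intro W hW
    rw [mem_powersetCard]
    by_cases h : aQ (W ∩ Q) ≤ aP (W ∩ P)
    · obtain ⟨e0, e1, e2, e3, e4⟩ := case1 W hW h
      obtain ⟨-, -, -, q4, -⟩ := hSQ (W ∩ Q) inter_subset_right
      rw [e0]
      refine ⟨unionU _ _ inter_subset_right e3, ?_⟩
      rw [unionC _ _ inter_subset_right e3, (q4 _ e1 e2).2.1]
      omega
    · obtain ⟨e0, e1, e2, e3, e4⟩ := case2 W hW h
      obtain ⟨-, -, -, p4, -⟩ := hSP (W ∩ P) inter_subset_right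
      rw [e0]
      refine ⟨unionU _ _ e3 inter_subset_right, ?_⟩
      rw [unionC _ _ e3 inter_subset_right, (p4 _ e1 e2).2.1]
      omega
  have hcmid : ∀ W ⊆ range n, mP (mid W ∩ P) (m1 / 2) = mP (W ∩ P) (m1 / 2) ∧
      mQ (mid W ∩ Q) (m2 / 2) = mQ (W ∩ Q) (m2 / 2) := by
    intro W hW
    have fP := C2_facts hSP (W := W ∩ P) inter_subset_right
    have fQ := C2_facts hSQ (W := W ∩ Q) inter_subset_right
    rw [hP] at fP
    rw [hQ] at fQ
    refine ⟨(trP W hW).2.2 _ fP.1 (by rw [hP]; exact fP.2.1),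
      (trQ W hW).2.2 _ fQ.1 (by rw [hQ]; exact fQ.2.1)⟩
  have hcx : ∀ W ⊆ P, mP W (m1 / 2) ∈ powersetCard (m1 / 2) P := by
    intro W hW
    have fP := C2_facts hSP hW
    rw [hP] at fP
    rw [mem_powersetCard]
    exact ⟨fP.2.2.1, fP.2.2.2.1⟩
  have hcy : ∀ W ⊆ Q, mQ W (m2 / 2) ∈ powersetCard (m2 / 2) Q := by
    intro W hW
    have fQ := C2_facts hSQ hW
    rw [hQ] at fQ
    rw [mem_powersetCard]
    exact ⟨fQ.2.2.1, fQ.2.2.2.1⟩
  refine ⟨mid, fun W => mP W (m1 / 2), fun W => mQ W (m2 / 2), hmem, ?_, hcmid, hcx, hcy,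
    ?_, ?_, ?_⟩
  · intro W hW W' hW' he
    have eP : aP (W ∩ P) = aP (W' ∩ P) := by
      rw [← (trP W hW).2.1, ← (trP W' hW').2.1, he]
    have eQ : aQ (W ∩ Q) = aQ (W' ∩ Q) := by
      rw [← (trQ W hW).2.1, ← (trQ W' hW').2.1, he]
    by_cases h : aQ (W ∩ Q) ≤ aP (W ∩ P)
    · have h' : aQ (W' ∩ Q) ≤ aP (W' ∩ P) := by rw [← eP, ← eQ]; exact h
      obtain ⟨e0, e1, e2, e3, e4⟩ := case1 W hW h
      obtain ⟨f0, f1, f2, f3, f4⟩ := case1 W' hW' h'
      have hS : W ∩ P = W' ∩ P := by
        have : mid W ∩ P = mid W' ∩ P := by rw [he]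
        rwa [e0, f0, unionP _ _ inter_subset_right e3, unionP _ _ inter_subset_right f3] at this
      obtain ⟨q1, q2, q3, q4, q5⟩ := hSQ (W ∩ Q) inter_subset_right
      obtain ⟨r1, r2, r3, r4, r5⟩ := hSQ (W' ∩ Q) inter_subset_right
      have key : ∀ s', aQ (W ∩ Q) ≤ s' → s' + aQ (W ∩ Q) ≤ Q.card →
          mQ (W ∩ Q) s' = mQ (W' ∩ Q) s' := by
        intro s' h1 h2
        rw [← (trQ W hW).2.2 s' h1 h2, he,
          (trQ W' hW').2.2 s' (by rw [← eQ]; exact h1) (by rw [← eQ]; exact h2)]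
      have hT' : W' ∩ Q = mQ (W ∩ Q) (W' ∩ Q).card := by
        rw [key _ (by rw [eQ]; exact r1) (by rw [eQ]; exact r2), r3]
      rcases le_total (W ∩ Q).card (W' ∩ Q).card with hc | hc
      · left
        rw [split W hW, split W' hW', hS]
        refine union_subset_union_right ?_
        rw [hT']
        have := q5 (W ∩ Q).card (W' ∩ Q).card q1 hc (by rw [eQ]; exact r2)
        rwa [q3] at this
      · right
        rw [split W hW, split W' hW', hS]
        refine union_subset_union_right ?_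
        rw [hT']
        have := q5 (W' ∩ Q).card (W ∩ Q).card (by rw [eQ]; exact r1) hc q2
        rwa [q3] at this
    · have h' : ¬ aQ (W' ∩ Q) ≤ aP (W' ∩ P) := by rw [← eP, ← eQ]; exact h
      obtain ⟨e0, e1, e2, e3, e4⟩ := case2 W hW h
      obtain ⟨f0, f1, f2, f3, f4⟩ := case2 W' hW' h'
      have hS : W ∩ Q = W' ∩ Q := by
        have : mid W ∩ Q = mid W' ∩ Q := by rw [he]
        rwa [e0, f0, unionQ _ _ e3 inter_subset_right, unionQ _ _ f3 inter_subset_right] at this
      obtain ⟨q1, q2, q3, q4, q5⟩ := hSP (W ∩ P) inter_subset_right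
      obtain ⟨r1, r2, r3, r4, r5⟩ := hSP (W' ∩ P) inter_subset_right
      have key : ∀ s', aP (W ∩ P) ≤ s' → s' + aP (W ∩ P) ≤ P.card →
          mP (W ∩ P) s' = mP (W' ∩ P) s' := by
        intro s' h1 h2
        rw [← (trP W hW).2.2 s' h1 h2, he,
          (trP W' hW').2.2 s' (by rw [← eP]; exact h1) (by rw [← eP]; exact h2)]
      have hT' : W' ∩ P = mP (W ∩ P) (W' ∩ P).card := by
        rw [key _ (by rw [eP]; exact r1) (by rw [eP]; exact r2), r3]
      rcases le_total (W ∩ P).card (W' ∩ P).card with hc | hc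
      · left
        rw [split W hW, split W' hW', hS]
        refine union_subset_union_left ?_
        rw [hT']
        have := q5 (W ∩ P).card (W' ∩ P).card q1 hc (by rw [eP]; exact r2)
        rwa [q3] at this
      · right
        rw [split W hW, split W' hW', hS]
        refine union_subset_union_left ?_
        rw [hT']
        have := q5 (W' ∩ P).card (W ∩ P).card (by rw [eP]; exact r1) hc q2
        rwa [q3] at this
  · intro M hM M' hM' hc hq
    rw [mem_powersetCard] at hM hM'
    have c1 := cardsplit M hM.1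
    have c2 := cardsplit M' hM'.1
    rw [hM.2] at c1
    rw [hM'.2, ← hq] at c2
    have fP := (C2_facts hSP (W := M ∩ P) inter_subset_right).2.2.2.2
    have fP' := (C2_facts hSP (W := M' ∩ P) inter_subset_right).2.2.2.2
    rw [hP] at fP fP'
    have hS : M ∩ P = M' ∩ P := by
      rw [← fP, ← fP']
      have hcd : (M ∩ P).card = (M' ∩ P).card := by omega
      rw [hcd]
      exact congrArg (fun A => mP A (M' ∩ P).card) hc
    rw [split M hM.1, split M' hM'.1, hS, hq]
  · intro M hM M' hM' hc hq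
    rw [mem_powersetCard] at hM hM'
    have c1 := cardsplit M hM.1
    have c2 := cardsplit M' hM'.1
    rw [hM.2] at c1
    rw [hM'.2, ← hq] at c2
    have fQ := (C2_facts hSQ (W := M ∩ Q) inter_subset_right).2.2.2.2
    have fQ' := (C2_facts hSQ (W := M' ∩ Q) inter_subset_right).2.2.2.2
    rw [hQ] at fQ fQ'
    have hS : M ∩ Q = M' ∩ Q := by
      rw [← fQ, ← fQ']
      have hcd : (M ∩ Q).card = (M' ∩ Q).card := by omega
      rw [hcd]
      exact congrArg (fun A => mQ A (M' ∩ Q).card) hc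
    rw [split M hM.1, split M' hM'.1, hS, hq]
  · intro C hC D hD
    rw [mem_powersetCard] at hC hD
    have hCD := unionU C D hC.1 hD.1
    refine ⟨mid (C ∪ D), hmem _ hCD, ?_, ?_⟩
    · have := (hcmid _ hCD).1
      rw [unionP _ _ hC.1 hD.1] at this
      show mP (mid (C ∪ D) ∩ P) (m1 / 2) = C
      rw [this, ← hC.2]
      exact (hSP C hC.1).2.2.1
    · have := (hcmid _ hCD).2
      rw [unionQ _ _ hC.1 hD.1] at this
      show mQ (mid (C ∪ D) ∩ Q) (m2 / 2) = D
      rw [this, ← hD.2]
      exact (hSQ D hD.1).2.2.1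
-- END C2

-- BEGIN C3
theorem C3_card_le {γ : Type} (F : Finset γ) (g : γ → ℕ) (N : ℕ) (h1 : ∀ c ∈ F, g c < N)
    (h2 : Set.InjOn g F) : F.card ≤ N := by
  have h := Finset.card_le_card_of_injOn (s := F) (t := Finset.range N) g
    (fun c hc => by simpa using h1 c hc) h2
  simpa using h

theorem C3_index {α : Type} [DecidableEq α] (P : Finset α) :
    ∃ f : α → ℕ, (∀ p ∈ P, f p < P.card) ∧ Set.InjOn f P := by
  refine ⟨fun p => if h : p ∈ P then (P.equivFin ⟨p, h⟩ : ℕ) else 0, ?_, ?_⟩
  · intro p hp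
    simp [hp]
  · intro p hp q hq h
    have hp' : p ∈ P := hp
    have hq' : q ∈ P := hq
    simp only [hp', hq', dif_pos] at h
    have h2 := P.equivFin.injective (Fin.ext h)
    simpa using h2

theorem C3_mod {J a b : ℕ} (ha : a < J) (hb : b < J) :
    (a + J - b) % J = if b ≤ a then a - b else a + J - b := by
  split_ifs with h
  · have h1 : a + J - b = (a - b) + J := by omega
    rw [h1, Nat.add_mod_right, Nat.mod_eq_of_lt (by omega)]
  · exact Nat.mod_eq_of_lt (by omega)

theorem C3_arith {I m t : ℕ} (hI : 20 ≤ I) (ht : t * I ≤ m + I - 1) : 6 * t ≤ max 6 m := by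
  rcases Nat.lt_or_ge t 2 with h | h
  · exact le_trans (by omega) (le_max_left 6 m)
  · obtain ⟨s, rfl⟩ : ∃ s, t = s + 1 := ⟨t - 1, by omega⟩
    have h1 : s * 20 ≤ s * I := Nat.mul_le_mul_left s hI
    have h2 : (s + 1) * I = s * I + I := by ring
    exact le_trans (by omega) (le_max_right 6 m)

/-- The transversal order. `#P = I ≤ J = #Q`; one element for each pair (p_i, q_r) gets the index
`((r - i) mod J) * I + i`, the others come after. -/
theorem exists_transversal_order {γ α β : Type} [DecidableEq γ] [DecidableEq α] [DecidableEq β]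
    (C : Finset γ) (P : Finset α) (Q : Finset β) (x : γ → α) (y : γ → β)
    (hx : ∀ c ∈ C, x c ∈ P) (hy : ∀ c ∈ C, y c ∈ Q)
    (hsurj : ∀ p ∈ P, ∀ q ∈ Q, ∃ c ∈ C, x c = p ∧ y c = q)
    (hPQ : P.card ≤ Q.card) (hP : 20 ≤ P.card) (A : ℕ)
    (hA : ∀ p ∈ P, (C.filter (fun c => x c = p)).card ≤ A)
    (hB : ∀ q ∈ Q, (C.filter (fun c => y c = q)).card ≤ A)
    (hnum : 5 * A ≤ Q.card * (P.card - 1)) :
    ∃ e : γ → ℕ, (∀ c ∈ C, e c < C.card) ∧ Set.InjOn e C ∧
      (∀ m ≤ C.card, ∀ p, 6 * (C.filter (fun c => x c = p ∧ e c < m)).card ≤ max 6 m) ∧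
      (∀ m ≤ C.card, ∀ q, 6 * (C.filter (fun c => y c = q ∧ e c < m)).card ≤ max 6 m) := by
  obtain ⟨pi, hpi, hpinj⟩ := C3_index P
  obtain ⟨qi, hqi, hqinj⟩ := C3_index Q
  have hPne : P.Nonempty := by
    rw [← Finset.card_pos]; omega
  have hQne : Q.Nonempty := by
    rw [← Finset.card_pos]; omega
  obtain ⟨p0, hp0⟩ := hPne
  obtain ⟨q0, hq0⟩ := hQne
  obtain ⟨c0, -, -⟩ := hsurj p0 hp0 q0 hq0
  haveI : Nonempty γ := ⟨c0⟩
  choose! cho hcho using hsurj
  set I := P.card with hIdef
  set J := Q.card with hJdef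
  obtain ⟨rk, hrk, hrkinj⟩ := C3_index (C.filter (fun c => ¬ cho (x c) (y c) = c))
  -- the number of selected elements
  have hScard : I * J ≤ (C.filter (fun c => cho (x c) (y c) = c)).card := by
    have h := Finset.card_le_card_of_injOn (s := P ×ˢ Q)
      (t := C.filter (fun c => cho (x c) (y c) = c)) (fun z => cho z.1 z.2) ?_ ?_
    · simpa [Finset.card_product] using h
    · intro z hz
      have hz' : z.1 ∈ P ∧ z.2 ∈ Q := by simpa using hz
      obtain ⟨h1, h2, h3⟩ := hcho z.1 hz'.1 z.2 hz'.2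
      simp only [Finset.coe_filter, Set.mem_setOf_eq]
      exact ⟨h1, by rw [h2, h3]⟩
    · intro z hz z' hz' h
      have hz1 : z.1 ∈ P ∧ z.2 ∈ Q := by simpa using hz
      have hz2 : z'.1 ∈ P ∧ z'.2 ∈ Q := by simpa using hz'
      obtain ⟨-, h2, h3⟩ := hcho z.1 hz1.1 z.2 hz1.2
      obtain ⟨-, h2', h3'⟩ := hcho z'.1 hz2.1 z'.2 hz2.2
      have h' : cho z.1 z.2 = cho z'.1 z'.2 := h
      refine Prod.ext ?_ ?_
      · rw [← h2, ← h2', h']
      · rw [← h3, ← h3', h']
  have hsplit : (C.filter (fun c => cho (x c) (y c) = c)).card +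
      (C.filter (fun c => ¬ cho (x c) (y c) = c)).card = C.card :=
    Finset.card_filter_add_card_filter_not _
  set d : γ → ℕ := fun c => (qi (y c) + J - pi (x c)) % J with hd
  set e : γ → ℕ := fun c => if cho (x c) (y c) = c then d c * I + pi (x c) else I * J + rk c
    with he
  have hJpos : 0 < J := by omega
  have hdlt : ∀ c, d c < J := fun c => Nat.mod_lt _ hJpos
  have hepos : ∀ c, cho (x c) (y c) = c → e c = d c * I + pi (x c) := by
    intro c hc
    simp only [he, hc, if_true]
  have heneg : ∀ c, ¬ cho (x c) (y c) = c → e c = I * J + rk c := by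
    intro c hc
    simp only [he, hc, if_false]
  have hpos_lt : ∀ c ∈ C, cho (x c) (y c) = c → e c < I * J := by
    intro c hc hs
    rw [hepos c hs]
    have h1 := hpi _ (hx c hc)
    have h2 := hdlt c
    have h3 : (d c + 1) * I ≤ J * I := Nat.mul_le_mul_right I h2
    have h4 : (d c + 1) * I = d c * I + I := by ring
    have h5 : J * I = I * J := Nat.mul_comm _ _
    omega
  have hneg_ge : ∀ c, ¬ cho (x c) (y c) = c → I * J ≤ e c := by
    intro c hs
    rw [heneg c hs]
    omega
  have hdval : ∀ c ∈ C, d c = if pi (x c) ≤ qi (y c) then qi (y c) - pi (x c)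
      else qi (y c) + J - pi (x c) := by
    intro c hc
    have h1 := hpi _ (hx c hc)
    exact C3_mod (hqi _ (hy c hc)) (by omega)
  -- equal `d` and equal `x` (or equal `y`): equal elements
  have hdx : ∀ c ∈ C, ∀ c' ∈ C, cho (x c) (y c) = c → cho (x c') (y c') = c' →
      pi (x c) = pi (x c') → d c = d c' → c = c' := by
    intro c hc c' hc' hs hs' h1 h2
    have hxx : x c = x c' := hpinj (hx c hc) (hx c' hc') h1
    have a1 := hpi _ (hx c hc)
    have a2 := hqi _ (hy c hc)
    have a3 := hqi _ (hy c' hc')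
    rw [hdval c hc, hdval c' hc', ← h1] at h2
    have hq : qi (y c) = qi (y c') := by
      split_ifs at h2 <;> omega
    have hyy : y c = y c' := hqinj (hy c hc) (hy c' hc') hq
    rw [← hs, ← hs', hxx, hyy]
  have hdy : ∀ c ∈ C, ∀ c' ∈ C, cho (x c) (y c) = c → cho (x c') (y c') = c' →
      qi (y c) = qi (y c') → d c = d c' → c = c' := by
    intro c hc c' hc' hs hs' h1 h2
    have hyy : y c = y c' := hqinj (hy c hc) (hy c' hc') h1
    have a1 := hpi _ (hx c hc)
    have a2 := hpi _ (hx c' hc')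
    have a3 := hqi _ (hy c hc)
    rw [hdval c hc, hdval c' hc', ← h1] at h2
    have hq : pi (x c) = pi (x c') := by
      split_ifs at h2 <;> omega
    have hxx : x c = x c' := hpinj (hx c hc) (hx c' hc') hq
    rw [← hs, ← hs', hxx, hyy]
  have heinj : Set.InjOn e C := by
    intro c hc c' hc' h
    have hc : c ∈ C := hc
    have hc' : c' ∈ C := hc'
    by_cases hs : cho (x c) (y c) = c
    · by_cases hs' : cho (x c') (y c') = c'
      · rw [hepos c hs, hepos c' hs'] at h
        have b1 := hpi _ (hx c hc)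
        have b2 := hpi _ (hx c' hc')
        have hIpos : 0 < I := by omega
        have h1 : pi (x c) = pi (x c') := by
          have h0 := congrArg (fun n => n % I) h
          simp only [Nat.mul_add_mod_self_right] at h0
          rwa [Nat.mod_eq_of_lt b1, Nat.mod_eq_of_lt b2] at h0
        have h2 : d c = d c' := by
          rw [h1] at h
          exact Nat.eq_of_mul_eq_mul_right hIpos (Nat.add_right_cancel h)
        exact hdx c hc c' hc' hs hs' h1 h2
      · have h1 := hpos_lt c hc hs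
        have h2 := hneg_ge c' hs'
        omega
    · by_cases hs' : cho (x c') (y c') = c'
      · have h1 := hpos_lt c' hc' hs'
        have h2 := hneg_ge c hs
        omega
      · rw [heneg c hs, heneg c' hs'] at h
        exact hrkinj (by simp [hc, hs]) (by simp [hc', hs']) (Nat.add_left_cancel h)
  have helt : ∀ c ∈ C, e c < C.card := by
    intro c hc
    by_cases hs : cho (x c) (y c) = c
    · have h1 := hpos_lt c hc hs
      omega
    · rw [heneg c hs]
      have h1 := hrk c (by simp [hc, hs])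
      omega
  -- the small prefixes
  have hsmall : ∀ m ≤ I * J, ∀ F : Finset γ, (∀ c ∈ F, c ∈ C ∧ e c < m) →
      Set.InjOn d F → 6 * F.card ≤ max 6 m := by
    intro m hm F hF hinj
    have hIpos : 0 < I := by omega
    have hcard : F.card ≤ (m + I - 1) / I := by
      refine C3_card_le F d _ ?_ hinj
      intro c hc
      obtain ⟨h1, h2⟩ := hF c hc
      have hs : cho (x c) (y c) = c := by
        by_contra hs
        have h3 := hneg_ge c hs
        omega
      rw [hepos c hs] at h2
      rw [← Nat.succ_le_iff, Nat.le_div_iff_mul_le hIpos]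
      have h4 : (d c).succ * I = d c * I + I := by rw [Nat.succ_mul]
      rw [h4]
      omega
    refine C3_arith hP ?_
    calc F.card * I ≤ (m + I - 1) / I * I := Nat.mul_le_mul_right I hcard
      _ ≤ m + I - 1 := Nat.div_mul_le_self _ _
  -- the big prefixes
  have hbig : ∀ m, I * J < m → ∀ F : Finset γ, (∀ c ∈ F, c ∈ C ∧ e c < m) →
      F.card ≤ A → (F.filter (fun c => cho (x c) (y c) = c)).card ≤ J →
      6 * F.card ≤ max 6 m := by
    intro m hm F hF hFA hF1
    have hF2 : (F.filter (fun c => ¬ cho (x c) (y c) = c)).card ≤ m - I * J := by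
      refine C3_card_le _ (fun c => e c - I * J) _ ?_ ?_
      · intro c hc
        rw [Finset.mem_filter] at hc
        have h1 := hneg_ge c hc.2
        have h2 := (hF c hc.1).2
        show e c - I * J < m - I * J
        omega
      · intro c hc c' hc' h
        have hc1 : c ∈ F ∧ ¬ cho (x c) (y c) = c := by simpa using hc
        have hc2 : c' ∈ F ∧ ¬ cho (x c') (y c') = c' := by simpa using hc'
        have h1 := hneg_ge c hc1.2
        have h2 := hneg_ge c' hc2.2
        have h3 : e c - I * J = e c' - I * J := h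
        exact heinj (hF c hc1.1).1 (hF c' hc2.1).1 (by omega)
    have hFs : (F.filter (fun c => cho (x c) (y c) = c)).card +
        (F.filter (fun c => ¬ cho (x c) (y c) = c)).card = F.card :=
      Finset.card_filter_add_card_filter_not _
    have h5 : J * (I - 1) + J = I * J := by
      obtain ⟨i, hi⟩ : ∃ i, I = i + 1 := ⟨I - 1, by omega⟩
      rw [hi]
      simp only [Nat.add_sub_cancel]
      ring
    refine le_trans ?_ (le_max_right 6 m)
    omega
  refine ⟨e, helt, heinj, ?_, ?_⟩
  · intro m hm p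
    rcases Nat.lt_or_ge (I * J) m with hmb | hms
    · refine hbig m hmb _ ?_ ?_ ?_
      · intro c hc
        rw [Finset.mem_filter] at hc
        exact ⟨hc.1, hc.2.2⟩
      · by_cases hp : p ∈ P
        · refine le_trans (Finset.card_le_card ?_) (hA p hp)
          intro c hc
          rw [Finset.mem_filter] at hc ⊢
          exact ⟨hc.1, hc.2.1⟩
        · have h0 : C.filter (fun c => x c = p ∧ e c < m) = ∅ := by
            apply Finset.filter_eq_empty_iff.mpr
            intro c hc h
            exact hp (h.1 ▸ hx c hc)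
          rw [h0]
          simp
      · refine C3_card_le _ d _ (fun c _ => hdlt c) ?_
        intro c hc c' hc' h
        have h1 : (c ∈ C ∧ x c = p ∧ e c < m) ∧ cho (x c) (y c) = c := by simpa using hc
        have h2 : (c' ∈ C ∧ x c' = p ∧ e c' < m) ∧ cho (x c') (y c') = c' := by simpa using hc'
        exact hdx c h1.1.1 c' h2.1.1 h1.2 h2.2 (by rw [h1.1.2.1, h2.1.2.1]) h
    · refine hsmall m hms _ ?_ ?_
      · intro c hc
        rw [Finset.mem_filter] at hc
        exact ⟨hc.1, hc.2.2⟩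
      · intro c hc c' hc' h
        have h1 : c ∈ C ∧ x c = p ∧ e c < m := by simpa using hc
        have h2 : c' ∈ C ∧ x c' = p ∧ e c' < m := by simpa using hc'
        have s1 : cho (x c) (y c) = c := by
          by_contra hs
          have := hneg_ge c hs
          omega
        have s2 : cho (x c') (y c') = c' := by
          by_contra hs
          have := hneg_ge c' hs
          omega
        exact hdx c h1.1 c' h2.1 s1 s2 (by rw [h1.2.1, h2.2.1]) h
  · intro m hm q
    rcases Nat.lt_or_ge (I * J) m with hmb | hms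
    · refine hbig m hmb _ ?_ ?_ ?_
      · intro c hc
        rw [Finset.mem_filter] at hc
        exact ⟨hc.1, hc.2.2⟩
      · by_cases hq : q ∈ Q
        · refine le_trans (Finset.card_le_card ?_) (hB q hq)
          intro c hc
          rw [Finset.mem_filter] at hc ⊢
          exact ⟨hc.1, hc.2.1⟩
        · have h0 : C.filter (fun c => y c = q ∧ e c < m) = ∅ := by
            apply Finset.filter_eq_empty_iff.mpr
            intro c hc h
            exact hq (h.1 ▸ hy c hc)
          rw [h0]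
          simp
      · refine C3_card_le _ d _ (fun c _ => hdlt c) ?_
        intro c hc c' hc' h
        have h1 : (c ∈ C ∧ y c = q ∧ e c < m) ∧ cho (x c) (y c) = c := by simpa using hc
        have h2 : (c' ∈ C ∧ y c' = q ∧ e c' < m) ∧ cho (x c') (y c') = c' := by simpa using hc'
        exact hdy c h1.1.1 c' h2.1.1 h1.2 h2.2 (by rw [h1.1.2.1, h2.1.2.1]) h
    · refine hsmall m hms _ ?_ ?_
      · intro c hc
        rw [Finset.mem_filter] at hc
        exact ⟨hc.1, hc.2.2⟩
      · intro c hc c' hc' h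
        have h1 : c ∈ C ∧ y c = q ∧ e c < m := by simpa using hc
        have h2 : c' ∈ C ∧ y c' = q ∧ e c' < m := by simpa using hc'
        have s1 : cho (x c) (y c) = c := by
          by_contra hs
          have := hneg_ge c hs
          omega
        have s2 : cho (x c') (y c') = c' := by
          by_contra hs
          have := hneg_ge c' hs
          omega
        exact hdy c h1.1 c' h2.1 s1 s2 (by rw [h1.2.1, h2.2.1]) h
-- END C3

-- BEGIN C4
private theorem C4_pow {n : ℕ} : 2 ^ n ≤ (n + 1) * n.choose (n / 2) := by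
  rw [← Nat.sum_range_choose]
  calc ∑ m ∈ range (n + 1), n.choose m ≤ ∑ m ∈ range (n + 1), n.choose (n / 2) :=
        sum_le_sum (fun m _ => Nat.choose_le_middle m n)
    _ = (n + 1) * n.choose (n / 2) := by
        rw [sum_const, card_range, smul_eq_mul]

private theorem C4_mono (n : ℕ) : n.choose (n / 2) ≤ (n + 1).choose ((n + 1) / 2) := by
  calc n.choose (n / 2) ≤ n.choose (n / 2) + n.choose (n / 2 + 1) := Nat.le_add_right _ _
    _ = (n + 1).choose (n / 2 + 1) := (Nat.choose_succ_succ' n (n / 2)).symm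
    _ ≤ (n + 1).choose ((n + 1) / 2) := Nat.choose_le_middle _ _

private theorem C4_growth {n : ℕ} (hn : 10 ≤ n) : (n + 1) * (5 * n + 11) ≤ 2 ^ n := by
  induction n, hn using Nat.le_induction with
  | base => norm_num
  | succ n hn ih =>
    have h1 : 2 ^ (n + 1) = 2 * 2 ^ n := by ring
    rw [h1]
    nlinarith [ih, hn]

private theorem C4_lower {n : ℕ} (hn : 10 ≤ n) : 5 * n + 11 ≤ n.choose (n / 2) := by
  have h1 := C4_growth hn
  have h2 := C4_pow (n := n)
  exact Nat.le_of_mul_le_mul_left (h1.trans h2) (by omega)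

/-- numerics -/
theorem choose_numerics {n : ℕ} (hn : 12 ≤ n) :
    20 ≤ (n / 2).choose (n / 2 / 2) ∧
    (n / 2).choose (n / 2 / 2) ≤ (n - n / 2).choose ((n - n / 2) / 2) ∧
    5 * 2 ^ (n - n / 2) ≤
      (n - n / 2).choose ((n - n / 2) / 2) * ((n / 2).choose (n / 2 / 2) - 1) := by
  rcases Nat.lt_or_ge n 20 with h20 | h20
  · interval_cases n <;> decide
  · obtain ⟨m, hm⟩ : ∃ m, n / 2 = m := ⟨_, rfl⟩
    obtain ⟨b, hb⟩ : ∃ b, n - n / 2 = b := ⟨_, rfl⟩
    rw [hb, hm]
    have hm10 : 10 ≤ m := by omega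
    have hbm : b = m ∨ b = m + 1 := by omega
    have hlow := C4_lower hm10
    have hmono : m.choose (m / 2) ≤ b.choose (b / 2) := by
      rcases hbm with h | h
      · rw [h]
      · rw [h]; exact C4_mono m
    refine ⟨by omega, hmono, ?_⟩
    have h1 := C4_pow (n := b)
    have h2 : 5 * (b + 1) ≤ m.choose (m / 2) - 1 := by omega
    calc 5 * 2 ^ b ≤ 5 * ((b + 1) * b.choose (b / 2)) := Nat.mul_le_mul_left _ h1
      _ = b.choose (b / 2) * (5 * (b + 1)) := by ring
      _ ≤ b.choose (b / 2) * (m.choose (m / 2) - 1) := Nat.mul_le_mul_left _ h2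

/-- numerics for small levels -/
theorem choose_small {n : ℕ} (hn : n ≤ 11) : n.choose (n / 2) ≤ 462 := by
  interval_cases n <;> decide
-- END C4

-- BEGIN C5
theorem C5_pref {γ : Type} [DecidableEq γ] (C : Finset γ) (e : γ → ℕ) (g : ℕ → γ)
    (hg : ∀ k < C.card, g k ∈ C ∧ e (g k) = k) (x : γ → Finset ℕ)
    (h : ∀ m ≤ C.card, ∀ p, 6 * (C.filter (fun c => x c = p ∧ e c < m)).card ≤ max 6 m) :
    Pref C.card (fun k => Encodable.encode (x (g k))) := by
  intro m hm y
  rcases Finset.eq_empty_or_nonempty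
    ((range m).filter (fun c => Encodable.encode (x (g c)) = y)) with h0 | ⟨k0, hk0⟩
  · have h1 : ((range m).filter (fun c => (fun k => Encodable.encode (x (g k))) c = y)).card = 0 := by
      rw [Finset.card_eq_zero]
      exact h0
    rw [h1]
    exact Nat.zero_le _
  · refine le_trans (Nat.mul_le_mul_left 6 ?_) (h m hm (x (g k0)))
    refine Finset.card_le_card_of_injOn g ?_ ?_
    · intro k hk
      have hk1 : k < m ∧ Encodable.encode (x (g k)) = y := by simpa using hk
      have hk2 : k0 < m ∧ Encodable.encode (x (g k0)) = y := by simpa using hk0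
      obtain ⟨h1, h2⟩ := hg k (by omega)
      simp only [Finset.coe_filter, Set.mem_setOf_eq]
      exact ⟨h1, Encodable.encode_injective (hk1.2.trans hk2.2.symm), by omega⟩
    · intro k hk k' hk' hkk
      have hk1 : k < m ∧ Encodable.encode (x (g k)) = y := by simpa using hk
      have hk2 : k' < m ∧ Encodable.encode (x (g k')) = y := by simpa using hk'
      have h1 := (hg k (by omega)).2
      have h2 := (hg k' (by omega)).2
      rw [← h1, ← h2, hkk]

/-- chain system with balanced colours and the trace property -/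
theorem exists_cs {n : ℕ} (hn : 12 ≤ n) :
    ∃ (idx : Finset ℕ → ℕ) (X Y : ℕ → ℕ) (xi eta : Finset ℕ → ℕ),
      (∀ W ⊆ range n, idx W < n.choose (n / 2)) ∧
      (∀ W ⊆ range n, ∀ W' ⊆ range n, idx W = idx W' → W ⊆ W' ∨ W' ⊆ W) ∧
      (∀ T V : Finset ℕ, T ⊆ V → V ⊆ range n →
        ∃ W, T ⊆ W ∧ W ⊆ V ∧ X (idx W) = xi T ∧ Y (idx W) = eta V) ∧
      Pref (n.choose (n / 2)) X ∧ Pref (n.choose (n / 2)) Y := by
  obtain ⟨hnum1, hnum2, hnum3⟩ := choose_numerics hn
  have hsub : range (n / 2) ⊆ range n := Finset.range_subset_range.mpr (by omega)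
  have hdisj : Disjoint (range (n / 2)) (range n \ range (n / 2)) := Finset.disjoint_sdiff
  have hU : range (n / 2) ∪ (range n \ range (n / 2)) = range n :=
    Finset.union_sdiff_of_subset hsub
  have hQcard : (range n \ range (n / 2)).card = n - n / 2 := by
    rw [Finset.card_sdiff_of_subset hsub, Finset.card_range, Finset.card_range]
  obtain ⟨mid, cx, cy, hmid, hcomp, hcls, hcx, hcy, hinj1, hinj2, hsur⟩ :=
    exists_mid (n := n) (m1 := n / 2) (m2 := n - n / 2) (P := range (n / 2))
      (Q := range n \ range (n / 2)) (by omega) (by omega) (by omega) hdisj hU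
      (Finset.card_range _) hQcard
  set P := range (n / 2) with hP
  set Q := range n \ P with hQ
  have hCcard : (powersetCard (n / 2) (range n)).card = n.choose (n / 2) := by
    rw [Finset.card_powersetCard, Finset.card_range]
  have hA : ∀ p ∈ powersetCard (n / 2 / 2) P,
      ((powersetCard (n / 2) (range n)).filter (fun M => cx (M ∩ P) = p)).card ≤
        2 ^ (n - n / 2) := by
    intro p _
    rw [← hQcard, ← Finset.card_powerset]
    refine Finset.card_le_card_of_injOn (fun M => M ∩ Q) ?_ ?_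
    · intro M _
      simp
    · intro M hM M' hM' h
      have h1 : M ∈ powersetCard (n / 2) (range n) ∧ cx (M ∩ P) = p :=
        Finset.mem_filter.mp (Finset.mem_coe.mp hM)
      have h2 : M' ∈ powersetCard (n / 2) (range n) ∧ cx (M' ∩ P) = p :=
        Finset.mem_filter.mp (Finset.mem_coe.mp hM')
      exact hinj1 M h1.1 M' h2.1 (h1.2.trans h2.2.symm) h
  have hB : ∀ q ∈ powersetCard ((n - n / 2) / 2) Q,
      ((powersetCard (n / 2) (range n)).filter (fun M => cy (M ∩ Q) = q)).card ≤
        2 ^ (n - n / 2) := by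
    intro q _
    refine le_trans ?_ (Nat.pow_le_pow_right (by omega) (show n / 2 ≤ n - n / 2 by omega))
    have hPc : P.card = n / 2 := Finset.card_range _
    conv_rhs => rw [← hPc, ← Finset.card_powerset]
    refine Finset.card_le_card_of_injOn (fun M => M ∩ P) ?_ ?_
    · intro M _
      simp
    · intro M hM M' hM' h
      have h1 : M ∈ powersetCard (n / 2) (range n) ∧ cy (M ∩ Q) = q :=
        Finset.mem_filter.mp (Finset.mem_coe.mp hM)
      have h2 : M' ∈ powersetCard (n / 2) (range n) ∧ cy (M' ∩ Q) = q :=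
        Finset.mem_filter.mp (Finset.mem_coe.mp hM')
      exact hinj2 M h1.1 M' h2.1 (h1.2.trans h2.2.symm) h
  have hPc' : (powersetCard (n / 2 / 2) P).card = (n / 2).choose (n / 2 / 2) := by
    rw [Finset.card_powersetCard, Finset.card_range]
  have hQc' : (powersetCard ((n - n / 2) / 2) Q).card =
      (n - n / 2).choose ((n - n / 2) / 2) := by
    rw [Finset.card_powersetCard, hQcard]
  have hsubC : ∀ M ∈ powersetCard (n / 2) (range n), M ⊆ range n := fun M hM =>
    (Finset.mem_powersetCard.mp hM).1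
  obtain ⟨e, he1, he2, he3, he4⟩ := exists_transversal_order
    (powersetCard (n / 2) (range n)) (powersetCard (n / 2 / 2) P)
    (powersetCard ((n - n / 2) / 2) Q) (fun M => cx (M ∩ P)) (fun M => cy (M ∩ Q))
    (fun M _ => hcx _ Finset.inter_subset_right) (fun M _ => hcy _ Finset.inter_subset_right)
    (fun p hp q hq => by
      obtain ⟨M, h1, h2, h3⟩ := hsur p hp q hq
      exact ⟨M, h1, h2, h3⟩)
    (by rw [hPc', hQc']; exact hnum2) (by rw [hPc']; exact hnum1)
    (2 ^ (n - n / 2)) hA hB (by rw [hPc', hQc']; exact hnum3)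
  have hsurj : ∀ k < (powersetCard (n / 2) (range n)).card,
      ∃ M ∈ powersetCard (n / 2) (range n), e M = k := by
    have h1 : Finset.image e (powersetCard (n / 2) (range n)) =
        range (powersetCard (n / 2) (range n)).card := by
      refine Finset.eq_of_subset_of_card_le ?_ ?_
      · intro k hk
        obtain ⟨M, hM, rfl⟩ := Finset.mem_image.mp hk
        exact Finset.mem_range.mpr (he1 M hM)
      · rw [Finset.card_image_of_injOn he2, Finset.card_range]
    intro k hk
    have h2 : k ∈ Finset.image e (powersetCard (n / 2) (range n)) := by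
      rw [h1]
      exact Finset.mem_range.mpr hk
    obtain ⟨M, hM, h3⟩ := Finset.mem_image.mp h2
    exact ⟨M, hM, h3⟩
  choose! g hg using hsurj
  have hge : ∀ M ∈ powersetCard (n / 2) (range n), g (e M) = M := by
    intro M hM
    obtain ⟨h1, h2⟩ := hg (e M) (he1 M hM)
    exact he2 h1 hM h2
  refine ⟨fun W => e (mid W), fun k => Encodable.encode (cx (g k ∩ P)),
    fun k => Encodable.encode (cy (g k ∩ Q)), fun T => Encodable.encode (cx (T ∩ P)),
    fun V => Encodable.encode (cy (V ∩ Q)), ?_, ?_, ?_, ?_, ?_⟩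
  · intro W hW
    rw [← hCcard]
    exact he1 _ (hmid W hW)
  · intro W hW W' hW' h
    exact hcomp W hW W' hW' (he2 (hmid W hW) (hmid W' hW') h)
  · intro T V hTV hV
    have hWP : ((T ∩ P) ∪ (V ∩ Q)) ∩ P = T ∩ P := by
      ext a
      simp only [hQ, Finset.mem_inter, Finset.mem_union, Finset.mem_sdiff]
      tauto
    have hWQ : ((T ∩ P) ∪ (V ∩ Q)) ∩ Q = V ∩ Q := by
      ext a
      simp only [hQ, Finset.mem_inter, Finset.mem_union, Finset.mem_sdiff]
      tauto
    have hWV : (T ∩ P) ∪ (V ∩ Q) ⊆ V := by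
      intro a ha
      rcases Finset.mem_union.mp ha with h | h
      · exact hTV (Finset.mem_inter.mp h).1
      · exact (Finset.mem_inter.mp h).1
    have hWr : (T ∩ P) ∪ (V ∩ Q) ⊆ range n := hWV.trans hV
    refine ⟨(T ∩ P) ∪ (V ∩ Q), ?_, hWV, ?_, ?_⟩
    · intro a ha
      have h1 : a ∈ V := hTV ha
      have h2 : a ∈ range n := hV h1
      rw [Finset.mem_union, Finset.mem_inter, Finset.mem_inter]
      by_cases h3 : a ∈ P
      · exact Or.inl ⟨ha, h3⟩
      · exact Or.inr ⟨h1, Finset.mem_sdiff.mpr ⟨h2, h3⟩⟩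
    · show Encodable.encode (cx (g (e (mid ((T ∩ P) ∪ (V ∩ Q)))) ∩ P)) = _
      rw [hge _ (hmid _ hWr), (hcls _ hWr).1, hWP]
    · show Encodable.encode (cy (g (e (mid ((T ∩ P) ∪ (V ∩ Q)))) ∩ Q)) = _
      rw [hge _ (hmid _ hWr), (hcls _ hWr).2, hWQ]
  · rw [← hCcard]
    exact C5_pref _ e g hg (fun M => cx (M ∩ P)) he3
  · rw [← hCcard]
    exact C5_pref _ e g hg (fun M => cy (M ∩ Q)) he4
-- END C5

-- BEGIN C6
/-- chain system without colours -/
theorem exists_chains (n : ℕ) :
    ∃ idx : Finset ℕ → ℕ, (∀ W ⊆ range n, idx W < n.choose (n / 2)) ∧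
      (∀ W ⊆ range n, ∀ W' ⊆ range n, idx W = idx W' → W ⊆ W' ∨ W' ⊆ W) := by
  classical
  obtain ⟨al, mem, hm⟩ := exists_scd (range n)
  have hcard : (powersetCard (n / 2) (range n)).card = n.choose (n / 2) := by
    rw [card_powersetCard, card_range]
  set C := powersetCard (n / 2) (range n) with hC
  let e : C ≃ Fin C.card := C.equivFin
  have hal : ∀ W ⊆ range n, al W ≤ n / 2 ∧ n / 2 + al W ≤ (range n).card := by
    intro W hW
    obtain ⟨h1, h2, -⟩ := hm W hW
    rw [card_range] at h2 ⊢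
    omega
  have hmid : ∀ W ⊆ range n, mem W (n / 2) ∈ C := by
    intro W hW
    obtain ⟨-, -, -, h4, -⟩ := hm W hW
    obtain ⟨ha, hb⟩ := hal W hW
    obtain ⟨h5, h6, -⟩ := h4 (n / 2) ha hb
    rw [hC, mem_powersetCard]
    exact ⟨h5, h6⟩
  refine ⟨fun W => if h : mem W (n / 2) ∈ C then (e ⟨_, h⟩ : Fin C.card).val else 0, ?_, ?_⟩
  · intro W hW
    simp only [dif_pos (hmid W hW)]
    rw [← hcard]
    exact (e _).isLt
  · intro W hW W' hW' hEq
    simp only [dif_pos (hmid W hW), dif_pos (hmid W' hW')] at hEq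
    have h7 := e.injective (Fin.ext hEq)
    have hM : mem W (n / 2) = mem W' (n / 2) := congrArg Subtype.val h7
    obtain ⟨ha, hb⟩ := hal W hW
    obtain ⟨ha', hb'⟩ := hal W' hW'
    obtain ⟨w1, w2, w3, w4, w5⟩ := hm W hW
    obtain ⟨v1, v2, v3, v4, v5⟩ := hm W' hW'
    obtain ⟨x1, x2, x3, x4⟩ := w4 (n / 2) ha hb
    obtain ⟨y1, y2, y3, y4⟩ := v4 (n / 2) ha' hb'
    have e1 : mem (mem W (n / 2)) W.card = W := by rw [x4 W.card w1 w2, w3]
    have e2 : mem (mem W (n / 2)) W'.card = W' := by rw [hM, y4 W'.card v1 v2, v3]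
    have hal2 : al W = al W' := by rw [← x3, hM, y3]
    obtain ⟨-, -, -, -, z5⟩ := hm (mem W (n / 2)) x1
    rcases le_total W.card W'.card with hle | hle
    · left
      have := z5 W.card W'.card (by rw [x3]; exact w1) hle (by rw [x3, hal2]; exact v2)
      rwa [e1, e2] at this
    · right
      have := z5 W'.card W.card (by rw [x3, hal2]; exact v1) hle (by rw [x3]; exact w2)
      rwa [e1, e2] at this

/-- position function: `pos c x = #{W ⊆ range n : idx W = c, x ∉ W}` -/
theorem exists_pos {n : ℕ} {idx : Finset ℕ → ℕ}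
    (h : ∀ W ⊆ range n, ∀ W' ⊆ range n, idx W = idx W' → W ⊆ W' ∨ W' ⊆ W) :
    ∃ pos : ℕ → ℕ → ℕ, ∀ W ⊆ range n, ∀ p ∈ W, ∀ q, q ∉ W →
      pos (idx W) p < pos (idx W) q := by
  classical
  refine ⟨fun c x => ((range n).powerset.filter (fun W => idx W = c ∧ x ∉ W)).card, ?_⟩
  intro W hW p hp q hq
  apply card_lt_card
  rw [ssubset_iff_of_subset]
  · refine ⟨W, ?_, ?_⟩
    · simp [hW, hq]
    · simp [hp]
  · intro W' hW'
    rw [mem_filter, mem_powerset] at hW' ⊢
    obtain ⟨h1, h2, h3⟩ := hW'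
    refine ⟨h1, h2, ?_⟩
    rcases h W' h1 W hW h2 with h4 | h4
    · exact fun h5 => hq (h4 h5)
    · exact absurd (h4 hp) h3

/-- what an inner level with `n` elements offers. Large `n`: `w' = C(n, n/2)`; `n ≤ 11`:
`w' = 0`, 462 chains. -/
theorem exists_level (n : ℕ) (hn : 1 ≤ n) :
    ∃ (w' : ℕ) (posch : ℕ → ℕ → ℕ) (X Y : ℕ → ℕ) (xi eta : Finset ℕ → ℕ),
      w' ≤ (if n = 1 then 0 else n.choose (n / 2)) ∧ Pref w' X ∧ Pref w' Y ∧
      ∀ T V : Finset ℕ, T ⊆ V → V ⊆ range n → ∃ c,
        (∀ p ∈ T, ∀ q, q ∉ V → posch c p < posch c q) ∧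
        ((c < w' ∧ X c = xi T ∧ Y c = eta V) ∨ (w' = 0 ∧ c < 462)) := by
  classical
  rcases Nat.lt_or_ge n 12 with h12 | h12
  · obtain ⟨idx, h1, h2⟩ := exists_chains n
    obtain ⟨pos, hpos⟩ := exists_pos h2
    have hP : ∀ X : ℕ → ℕ, Pref 0 X := by
      intro X m hm y
      obtain rfl : m = 0 := by omega
      simp
    refine ⟨0, pos, fun _ => 0, fun _ => 0, fun _ => 0, fun _ => 0, Nat.zero_le _, hP _, hP _, ?_⟩
    intro T V hTV hV
    have hT : T ⊆ range n := hTV.trans hV
    refine ⟨idx T, ?_, Or.inr ⟨rfl, ?_⟩⟩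
    · intro p hp q hq
      exact hpos T hT p hp q (fun hqT => hq (hTV hqT))
    · have h3 := h1 T hT
      have h4 := choose_small (n := n) (by omega)
      omega
  · obtain ⟨idx, X, Y, xi, eta, h1, h2, h3, h4, h5⟩ := exists_cs h12
    obtain ⟨pos, hpos⟩ := exists_pos h2
    refine ⟨n.choose (n / 2), pos, X, Y, xi, eta, ?_, h4, h5, ?_⟩
    · rw [if_neg (by omega)]
    · intro T V hTV hV
      obtain ⟨W, hTW, hWV, hX, hY⟩ := h3 T V hTV hV
      have hW : W ⊆ range n := hWV.trans hV
      refine ⟨idx W, ?_, Or.inl ⟨h1 W hW, hX, hY⟩⟩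
      intro p hp q hq
      exact hpos W hW p (hTW hp) q (fun hqW => hq (hWV hqW))
-- END C6

end Pool.E98
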