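import Pool.Agent.E98.Ord

/-! Linear extensions from positions and hi/lo bits. -/

namespace Pool.E98

open Finset

-- BEGIN X1
private theorem X1_cnt : Countable El := by
  let f : El → (ℕ × ℕ) ⊕ (ℕ × Finset ℕ × Finset ℕ) := fun e =>
    match e with
    | .A i x => Sum.inl (i, x)
    | .B i S T => Sum.inr (i, S, T)
  have hf : Function.Injective f := by
    intro e e' h
    cases e with
    | A i x =>
      cases e' with
      | A i' x' =>
        have h' : (i, x) = (i', x') := Sum.inl.inj h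
        obtain ⟨h1, h2⟩ := Prod.mk.inj h'
        rw [h1, h2]
      | B i' S T => exact absurd h (by simp [f])
    | B i S T =>
      cases e' with
      | A i' x' => exact absurd h (by simp [f])
      | B i' S' T' =>
        have h' : (i, S, T) = (i', S', T') := Sum.inr.inj h
        obtain ⟨h1, h2⟩ := Prod.mk.inj h'
        obtain ⟨h3, h4⟩ := Prod.mk.inj h2
        rw [h1, h3, h4]
  exact hf.countable

private theorem X1_lt {l l' p p' d d' : ℤ} {c c' : ℕ} :
    (toLex (l, toLex (p, toLex (d, c))) : ℤ ×ₗ ℤ ×ₗ ℤ ×ₗ ℕ) <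
      toLex (l', toLex (p', toLex (d', c'))) ↔
    l < l' ∨ (l = l' ∧ (p < p' ∨ (p = p' ∧ (d < d' ∨ (d = d' ∧ c < c'))))) := by
  rw [Prod.Lex.toLex_lt_toLex, Prod.Lex.toLex_lt_toLex, Prod.Lex.toLex_lt_toLex]

private noncomputable def X1_mn (f : ℕ → ℕ) (S : Finset ℕ) : ℕ := sInf (f '' (S : Set ℕ))

private theorem X1_mn_le {f : ℕ → ℕ} {S : Finset ℕ} {x : ℕ} (hx : x ∈ S) : X1_mn f S ≤ f x :=
  Nat.sInf_le ⟨x, hx, rfl⟩

private theorem X1_lt_mn {f : ℕ → ℕ} {S : Finset ℕ} (hS : S.Nonempty) {m : ℕ}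
    (h : ∀ s ∈ S, m < f s) : m < X1_mn f S := by
  have hne : (f '' (S : Set ℕ)).Nonempty := by
    obtain ⟨s, hs⟩ := hS
    exact ⟨f s, s, hs, rfl⟩
  obtain ⟨s, hs, hs'⟩ := Nat.sInf_mem hne
  unfold X1_mn
  rw [← hs']
  exact h s hs

private theorem X1_sup_lt {f : ℕ → ℕ} {T : Finset ℕ} (hT : T.Nonempty) {m : ℕ}
    (h : ∀ s ∈ T, f s < m) : T.sup f < m := by
  obtain ⟨s, hs, hs'⟩ := Finset.exists_mem_eq_sup T hT f
  rw [hs']
  exact h s hs

open Classical in
private noncomputable def X1_key (pos : ℕ → ℕ → ℕ) (hi : ℕ → Finset ℕ → Finset ℕ → Prop)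
    (code : El → ℕ) : El → ℤ ×ₗ ℤ ×ₗ ℤ ×ₗ ℕ
  | .A i x => toLex (-(i : ℤ), toLex (3 * (pos i x : ℤ) + 1, toLex (0, code (.A i x))))
  | .B i S T =>
    if hi i S T then
      toLex (-(i : ℤ), toLex (3 * (X1_mn (pos i) S : ℤ),
        toLex ((S.card : ℤ) - (T.card : ℤ), code (.B i S T))))
    else
      toLex (-((i : ℤ) + 1), toLex (3 * ((T.sup (pos (i + 1)) : ℕ) : ℤ) + 2,
        toLex ((S.card : ℤ) - (T.card : ℤ), code (.B i S T))))

private theorem X1_keyA (pos : ℕ → ℕ → ℕ) (hi : ℕ → Finset ℕ → Finset ℕ → Prop)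
    (code : El → ℕ) (i x : ℕ) : X1_key pos hi code (.A i x) =
      toLex (-(i : ℤ), toLex (3 * (pos i x : ℤ) + 1, toLex (0, code (.A i x)))) := rfl

private theorem X1_keyB1 (pos : ℕ → ℕ → ℕ) (hi : ℕ → Finset ℕ → Finset ℕ → Prop)
    (code : El → ℕ) (i : ℕ) (S T : Finset ℕ) (h : hi i S T) : X1_key pos hi code (.B i S T) =
      toLex (-(i : ℤ), toLex (3 * (X1_mn (pos i) S : ℤ),
        toLex ((S.card : ℤ) - (T.card : ℤ), code (.B i S T)))) := by
  unfold X1_key
  exact if_pos h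

private theorem X1_keyB2 (pos : ℕ → ℕ → ℕ) (hi : ℕ → Finset ℕ → Finset ℕ → Prop)
    (code : El → ℕ) (i : ℕ) (S T : Finset ℕ) (h : ¬ hi i S T) : X1_key pos hi code (.B i S T) =
      toLex (-((i : ℤ) + 1), toLex (3 * ((T.sup (pos (i + 1)) : ℕ) : ℤ) + 2,
        toLex ((S.card : ℤ) - (T.card : ℤ), code (.B i S T)))) := by
  unfold X1_key
  exact if_neg h

private theorem X1_code (pos : ℕ → ℕ → ℕ) (hi : ℕ → Finset ℕ → Finset ℕ → Prop)
    (code : El → ℕ) (e : El) : ∃ l p d : ℤ,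
      X1_key pos hi code e = toLex (l, toLex (p, toLex (d, code e))) := by
  cases e with
  | A i x => exact ⟨_, _, _, X1_keyA pos hi code i x⟩
  | B i S T =>
    by_cases h : hi i S T
    · exact ⟨_, _, _, X1_keyB1 pos hi code i S T h⟩
    · exact ⟨_, _, _, X1_keyB2 pos hi code i S T h⟩

private theorem X1_inj (pos : ℕ → ℕ → ℕ) (hi : ℕ → Finset ℕ → Finset ℕ → Prop)
    (code : El → ℕ) (hc : Function.Injective code) : Function.Injective (X1_key pos hi code) := by
  intro e e' h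
  obtain ⟨l, p, d, h1⟩ := X1_code pos hi code e
  obtain ⟨l', p', d', h2⟩ := X1_code pos hi code e'
  rw [h1, h2] at h
  have h3 := (Prod.mk.inj (toLex.injective h)).2
  have h4 := (Prod.mk.inj (toLex.injective h3)).2
  have h5 := (Prod.mk.inj (toLex.injective h4)).2
  exact hc h5

private theorem X1_gen (pos : ℕ → ℕ → ℕ) (hi : ℕ → Finset ℕ → Finset ℕ → Prop)
    (code : El → ℕ) {e e' : El} (h : e.Gen e') : X1_key pos hi code e < X1_key pos hi code e' := by
  cases e with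
  | A i x =>
    cases e' with
    | A i' x' =>
      have h' : i = i' + 1 := h
      rw [X1_keyA, X1_keyA, X1_lt]
      left
      omega
    | B i' S T =>
      obtain ⟨h1, h2⟩ : i = i' + 1 ∧ x ∈ T := h
      by_cases hh : hi i' S T
      · rw [X1_keyA, X1_keyB1 _ _ _ _ _ _ hh, X1_lt]
        left
        omega
      · rw [X1_keyA, X1_keyB2 _ _ _ _ _ _ hh, X1_lt]
        right
        have h3 : pos (i' + 1) x ≤ T.sup (pos (i' + 1)) := Finset.le_sup (f := pos (i' + 1)) h2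
        subst h1
        refine ⟨by push_cast; ring, Or.inl ?_⟩
        omega
  | B i S T =>
    cases e' with
    | A i' x =>
      obtain ⟨h1, h2⟩ : i = i' ∧ x ∈ S := h
      by_cases hh : hi i S T
      · rw [X1_keyA, X1_keyB1 _ _ _ _ _ _ hh, X1_lt]
        right
        subst h1
        have h3 : X1_mn (pos i) S ≤ pos i x := X1_mn_le h2
        refine ⟨rfl, Or.inl ?_⟩
        omega
      · rw [X1_keyA, X1_keyB2 _ _ _ _ _ _ hh, X1_lt]
        left
        omega
    | B i' S' T' => exact absurd h (fun h => h)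

/-- Linear extension from positions `pos i x` of the elements `x` of `A_i` and bits `hi i S T`:
`b_{S,T}` sits directly below the lowest element of `S` if `hi i S T`, directly above the highest
element of `T` otherwise. `L.lt x y`: `x` is below `y`.
Proof: lexicographic key (level, position, |S|-|T|, injective code) in ℤ × ℤ × ℤ × ℕ,
`A i x ↦ (-i, 3 pos i x + 1, 0, _)`,
`B i S T ↦ (-i, 3 min_{s ∈ S} pos i s, |S|-|T|, _)` if `hi i S T`,
`B i S T ↦ (-(i+1), 3 max_{s ∈ T} pos (i+1) s + 2, |S|-|T|, _)` else. -/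
theorem exists_ext (t : ℕ) (a : ℕ → ℕ) (pos : ℕ → ℕ → ℕ) (hi : ℕ → Finset ℕ → Finset ℕ → Prop) :
    ∃ L : LinearOrder (Pt t a),
      (∀ x y : Pt t a, Lt t a x y → L.lt x y) ∧
      (∀ (x y : Pt t a) (j : ℕ) (S1 T S2 T2 : Finset ℕ), x.1 = .B j S1 T →
        y.1 = .B (j + 1) S2 T2 → ¬ hi j S1 T → hi (j + 1) S2 T2 →
        (∀ p ∈ T, ∀ q ∈ S2, pos (j + 1) p < pos (j + 1) q) → L.lt x y) ∧
      (∀ (x y : Pt t a) (j p : ℕ) (S T : Finset ℕ), x.1 = .A j p → y.1 = .B j S T →
        hi j S T → (∀ s ∈ S, pos j p < pos j s) → L.lt x y) ∧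
      (∀ (x y : Pt t a) (j p : ℕ) (S T : Finset ℕ), x.1 = .B j S T → y.1 = .A (j + 1) p →
        ¬ hi j S T → (∀ s ∈ T, pos (j + 1) s < pos (j + 1) p) → L.lt x y) ∧
      ((∀ j x, pos j x = 0) → (∀ j S T, hi j S T) →
        ∀ (x y : Pt t a) (j : ℕ) (S T S' T' : Finset ℕ), x.1 = .B j S' T' → y.1 = .B j S T →
        S' ⊆ S → T ⊆ T' → x ≠ y → L.lt x y) := by
  haveI := X1_cnt
  obtain ⟨code, hcode⟩ := exists_injective_nat El
  have hinj : Function.Injective (fun x : Pt t a => X1_key pos hi code x.1) :=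
    (X1_inj pos hi code hcode).comp Subtype.val_injective
  refine ⟨LinearOrder.lift' (fun x : Pt t a => X1_key pos hi code x.1) hinj, ?_, ?_, ?_, ?_, ?_⟩
  · intro x y h
    change X1_key pos hi code x.1 < X1_key pos hi code y.1
    induction h with
    | single h => exact X1_gen pos hi code h
    | tail _ h ih => exact ih.trans (X1_gen pos hi code h)
  · intro x y j S1 T S2 T2 hx hy h1 h2 h
    change X1_key pos hi code x.1 < X1_key pos hi code y.1
    have vx := x.2
    have vy := y.2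
    rw [hx] at vx
    rw [hy] at vy
    obtain ⟨_, _, hT, _⟩ := vx
    obtain ⟨_, ⟨hS2, _⟩, _⟩ := vy
    rw [hx, hy, X1_keyB2 _ _ _ _ _ _ h1, X1_keyB1 _ _ _ _ _ _ h2, X1_lt]
    right
    refine ⟨by push_cast; ring, Or.inl ?_⟩
    have h3 : T.sup (pos (j + 1)) < X1_mn (pos (j + 1)) S2 :=
      X1_sup_lt hT (fun p hp => X1_lt_mn hS2 (fun q hq => h p hp q hq))
    omega
  · intro x y j p S T hx hy h1 h
    change X1_key pos hi code x.1 < X1_key pos hi code y.1
    have vy := y.2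
    rw [hy] at vy
    obtain ⟨_, ⟨hS, _⟩, _⟩ := vy
    rw [hx, hy, X1_keyA, X1_keyB1 _ _ _ _ _ _ h1, X1_lt]
    right
    refine ⟨rfl, Or.inl ?_⟩
    have h3 : pos j p < X1_mn (pos j) S := X1_lt_mn hS h
    omega
  · intro x y j p S T hx hy h1 h
    change X1_key pos hi code x.1 < X1_key pos hi code y.1
    have vx := x.2
    rw [hx] at vx
    obtain ⟨_, _, hT, _⟩ := vx
    rw [hx, hy, X1_keyA, X1_keyB2 _ _ _ _ _ _ h1, X1_lt]
    right
    refine ⟨by push_cast; ring, Or.inl ?_⟩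
    have h3 : T.sup (pos (j + 1)) < pos (j + 1) p := X1_sup_lt hT h
    omega
  · intro hp hh x y j S T S' T' hx hy hS hT hne
    change X1_key pos hi code x.1 < X1_key pos hi code y.1
    rw [hx, hy, X1_keyB1 _ _ _ _ _ _ (hh _ _ _), X1_keyB1 _ _ _ _ _ _ (hh _ _ _), X1_lt]
    right
    have hz : ∀ U : Finset ℕ, X1_mn (pos j) U = 0 := by
      intro U
      unfold X1_mn
      rcases Set.eq_empty_or_nonempty ((pos j) '' (U : Set ℕ)) with h | h
      · rw [h]
        exact Nat.sInf_empty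
      · obtain ⟨s, _, hs⟩ := Nat.sInf_mem h
        rw [← hs]
        exact hp j s
    refine ⟨rfl, Or.inr ⟨by rw [hz, hz], Or.inl ?_⟩⟩
    have c1 : S'.card ≤ S.card := Finset.card_le_card hS
    have c2 : T.card ≤ T'.card := Finset.card_le_card hT
    have c3 : ¬ (S'.card = S.card ∧ T.card = T'.card) := by
      rintro ⟨e1, e2⟩
      apply hne
      have s1 : S' = S := Finset.eq_of_subset_of_card_le hS (le_of_eq e1.symm)
      have s2 : T = T' := Finset.eq_of_subset_of_card_le hT (le_of_eq e2.symm)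
      apply Subtype.ext
      rw [hx, hy, s1, s2]
    omega
-- END X1

end Pool.E98
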