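import Pool.Agent.E98.Ord

/-! The lower bound. -/

namespace Pool.E98

open Finset

/-- in the linear order `L` the elements of `T0` lie below all other elements of `A_j` -/
def LowSet {t : ℕ} {a : ℕ → ℕ} (L : LinearOrder (Pt t a)) (j : ℕ) (T0 : Finset ℕ) : Prop :=
  ∀ (x y : Pt t a) (p q : ℕ), x.1 = .A j p → y.1 = .A j q → p ∈ T0 → q ∉ T0 → L.lt x y

/-- `b_{S_j(i), T_{j+1}(i)}` is above some element of `A_j` in `L i` -/
def HiB {t : ℕ} {a : ℕ → ℕ} {k : ℕ} (L : Fin k → LinearOrder (Pt t a))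
    (T S : ℕ → Fin k → Finset ℕ) (j : ℕ) (i : Fin k) : Prop :=
  ∃ (x y : Pt t a) (p : ℕ), x.1 = .A j p ∧ y.1 = .B j (S j i) (T (j + 1) i) ∧ (L i).lt x y

-- BEGIN L1
/-- the lowest `h` elements of `A_j` -/
theorem exists_lowSet {t : ℕ} {a : ℕ → ℕ} (L : LinearOrder (Pt t a)) {j : ℕ} (hj : j < t)
    {h : ℕ} (hh : h ≤ a j) :
    ∃ T0 : Finset ℕ, T0 ⊆ range (a j) ∧ T0.card = h ∧ LowSet L j T0 := by
  induction h with
  | zero => exact ⟨∅, by simp, by simp, fun x y p q _ _ hp _ => by simp at hp⟩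
  | succ h ih =>
    obtain ⟨T0, hsub, hcard, hlow⟩ := ih (by omega)
    have hne : (range (a j) \ T0).Nonempty := by
      rw [← Finset.card_pos, Finset.card_sdiff_of_subset hsub, hcard, Finset.card_range]
      omega
    obtain ⟨r, hr⟩ := hne
    have hr' : r < a j := by
      have := (Finset.mem_sdiff.mp hr).1
      simpa using this
    let f : ℕ → Pt t a := fun p => if hp : p < a j then ⟨.A j p, ⟨hj, hp⟩⟩ else ⟨.A j r, ⟨hj, hr'⟩⟩
    have hf : ∀ p, p < a j → (f p).1 = .A j p := by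
      intro p hp
      simp only [f, dif_pos hp]
    obtain ⟨p, hp, hmin⟩ :=
      @Finset.exists_min_image (Pt t a) ℕ L (range (a j) \ T0) f ⟨r, hr⟩
    rw [Finset.mem_sdiff, Finset.mem_range] at hp
    refine ⟨insert p T0, ?_, ?_, ?_⟩
    · intro q hq
      rcases Finset.mem_insert.mp hq with rfl | hq
      · simpa using hp.1
      · exact hsub hq
    · rw [Finset.card_insert_of_notMem hp.2, hcard]
    · intro x y p' q hx hy hp' hq
      rw [Finset.mem_insert, not_or] at hq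
      rcases Finset.mem_insert.mp hp' with rfl | hp'
      · have hqv : q < a j := by
          have := y.2
          rw [hy] at this
          exact this.2
        have hle := hmin q (by rw [Finset.mem_sdiff, Finset.mem_range]; exact ⟨hqv, hq.2⟩)
        have hxe : x = f p' := Subtype.ext (by rw [hf p' hp.1, hx])
        have hye : y = f q := Subtype.ext (by rw [hf q hqv, hy])
        rw [hxe, hye]
        refine (@lt_of_le_of_ne _ L.toPartialOrder _ _ hle ?_)
        intro he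
        have h1 : (f p').1 = (f q).1 := by rw [he]
        rw [hf p' hp.1, hf q hqv] at h1
        injection h1 with _ h2
        exact hq.1 h2.symm
      · exact hlow x y p' q hx hy hp' hq.2

/-- they are unique -/
theorem lowSet_unique {t : ℕ} {a : ℕ → ℕ} (L : LinearOrder (Pt t a)) {j : ℕ} (hj : j < t)
    {T0 T1 : Finset ℕ} (h0 : T0 ⊆ range (a j)) (h1 : T1 ⊆ range (a j)) (hc : T0.card = T1.card)
    (hl0 : LowSet L j T0) (hl1 : LowSet L j T1) : T0 = T1 := by
  by_contra hne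
  have hA : ∃ p ∈ T0, p ∉ T1 := by
    by_contra hcon
    push Not at hcon
    exact hne (Finset.eq_of_subset_of_card_le hcon hc.symm.le)
  have hB : ∃ q ∈ T1, q ∉ T0 := by
    by_contra hcon
    push Not at hcon
    exact hne (Finset.eq_of_subset_of_card_le hcon hc.le).symm
  obtain ⟨p, hp0, hp1⟩ := hA
  obtain ⟨q, hq1, hq0⟩ := hB
  have hpa : p < a j := by simpa using h0 hp0
  have hqa : q < a j := by simpa using h1 hq1
  have e1 := hl0 ⟨.A j p, ⟨hj, hpa⟩⟩ ⟨.A j q, ⟨hj, hqa⟩⟩ p q rfl rfl hp0 hq0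
  have e2 := hl1 ⟨.A j q, ⟨hj, hqa⟩⟩ ⟨.A j p, ⟨hj, hpa⟩⟩ q p rfl rfl hq1 hp1
  exact (@lt_asymm _ L.toPreorder _ _ e1) e2
-- END L1

-- BEGIN L2
private theorem L2_fiber {k : ℕ} (G : Finset (Fin k)) (x y : Fin k → Prop)
    [DecidablePred x] [DecidablePred y] (hne : G.Nonempty)
    (h : ∀ i0 i1 : Fin k, ∃ i ∈ G, ¬ (x i ∧ i = i0) ∧ ¬ (¬ y i ∧ i = i1)) :
    6 ≤ ∑ i ∈ G, (3 + 3 * (if y i then 1 else 0) - (if x i then 1 else 0) : ℤ) ∧
    6 ≤ ∑ i ∈ G, (5 + (if y i then 1 else 0) - 3 * (if x i then 1 else 0) : ℤ) := by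
  rcases Nat.lt_or_ge 2 G.card with h3 | h3
  · constructor
    · have h1 : ∑ i ∈ G, (2 : ℤ) ≤
          ∑ i ∈ G, (3 + 3 * (if y i then 1 else 0) - (if x i then 1 else 0) : ℤ) := by
        refine Finset.sum_le_sum fun i _ => ?_
        split_ifs <;> norm_num
      rw [Finset.sum_const, nsmul_eq_mul] at h1
      have h2 : (3 : ℤ) ≤ (G.card : ℤ) := by exact_mod_cast h3
      linarith
    · have h1 : ∑ i ∈ G, (2 : ℤ) ≤
          ∑ i ∈ G, (5 + (if y i then 1 else 0) - 3 * (if x i then 1 else 0) : ℤ) := by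
        refine Finset.sum_le_sum fun i _ => ?_
        split_ifs <;> norm_num
      rw [Finset.sum_const, nsmul_eq_mul] at h1
      have h2 : (3 : ℤ) ≤ (G.card : ℤ) := by exact_mod_cast h3
      linarith
  · have hpos : 0 < G.card := hne.card_pos
    have h12 : G.card = 1 ∨ G.card = 2 := by omega
    rcases h12 with h1 | h2
    · obtain ⟨l, rfl⟩ := Finset.card_eq_one.mp h1
      obtain ⟨i, hi, hx, hy⟩ := h l l
      rw [Finset.mem_singleton] at hi
      subst hi
      have hx' : ¬ x i := fun hh => hx ⟨hh, rfl⟩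
      have hy' : y i := by
        by_contra hh
        exact hy ⟨hh, rfl⟩
      simp [hx', hy']
    · obtain ⟨l, m, hlm, rfl⟩ := Finset.card_eq_two.mp h2
      have ha : ¬ x l ∨ y m := by
        obtain ⟨i, hi, hx, hy⟩ := h l m
        rw [Finset.mem_insert, Finset.mem_singleton] at hi
        rcases hi with rfl | rfl
        · exact Or.inl fun hh => hx ⟨hh, rfl⟩
        · refine Or.inr ?_
          by_contra hh
          exact hy ⟨hh, rfl⟩
      have hb : ¬ x m ∨ y l := by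
        obtain ⟨i, hi, hx, hy⟩ := h m l
        rw [Finset.mem_insert, Finset.mem_singleton] at hi
        rcases hi with rfl | rfl
        · refine Or.inr ?_
          by_contra hh
          exact hy ⟨hh, rfl⟩
        · exact Or.inl fun hh => hx ⟨hh, rfl⟩
      rw [Finset.sum_pair hlm, Finset.sum_pair hlm]
      by_cases hxl : x l <;> by_cases hxm : x m <;> by_cases hyl : y l <;>
        by_cases hym : y m <;> simp [hxl, hxm, hyl, hym] at ha hb ⊢

/-- weights of one level. `G = {i : T i = T0}`; hypothesis: killing one `x`-element and one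
non-`y`-element leaves something. -/
theorem level_ineq {k : ℕ} (F : Finset (Finset ℕ)) (T : Fin k → Finset ℕ) (x y : Fin k → Prop)
    [DecidablePred x] [DecidablePred y]
    (h : ∀ T0 ∈ F, ∀ i0 i1 : Fin k, ∃ i, T i = T0 ∧ ¬ (x i ∧ i = i0) ∧ ¬ (¬ y i ∧ i = i1))
    (h0 : ∀ T0 ∈ F, ∃ i, T i = T0) :
    6 * F.card + (univ.filter x).card ≤ 3 * k + 3 * (univ.filter y).card ∧
    6 * F.card + 3 * (univ.filter x).card ≤ 5 * k + (univ.filter y).card := by
  have hfib : ∀ T0 ∈ F,
      6 ≤ ∑ i ∈ univ.filter (fun i => T i = T0),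
        (3 + 3 * (if y i then 1 else 0) - (if x i then 1 else 0) : ℤ) ∧
      6 ≤ ∑ i ∈ univ.filter (fun i => T i = T0),
        (5 + (if y i then 1 else 0) - 3 * (if x i then 1 else 0) : ℤ) := by
    intro T0 hT0
    refine L2_fiber _ x y ?_ ?_
    · obtain ⟨i, hi⟩ := h0 T0 hT0
      exact ⟨i, by simp [hi]⟩
    · intro i0 i1
      obtain ⟨i, hi, h1, h2⟩ := h T0 hT0 i0 i1
      exact ⟨i, by simp [hi], h1, h2⟩
  have key : ∀ c : Fin k → ℤ, (∀ i, 0 ≤ c i) →
      (∀ T0 ∈ F, 6 ≤ ∑ i ∈ univ.filter (fun i => T i = T0), c i) →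
      6 * (F.card : ℤ) ≤ ∑ i, c i := by
    intro c hc hF
    have e1 : ∑ T0 ∈ F, ∑ i ∈ univ.filter (fun i => T i = T0), c i =
        ∑ i ∈ univ.filter (fun i => T i ∈ F), c i := by
      rw [← Finset.sum_fiberwise_of_maps_to (s := univ.filter (fun i => T i ∈ F)) (t := F)
        (g := T) (fun i hi => (Finset.mem_filter.mp hi).2)]
      refine Finset.sum_congr rfl fun T0 hT0 => ?_
      refine Finset.sum_congr ?_ fun _ _ => rfl
      ext i
      simp only [Finset.mem_filter, Finset.mem_univ, true_and]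
      constructor
      · intro hi
        exact ⟨hi ▸ hT0, hi⟩
      · intro hi
        exact hi.2
    have e2 : ∑ i ∈ univ.filter (fun i => T i ∈ F), c i ≤ ∑ i, c i :=
      Finset.sum_le_sum_of_subset_of_nonneg (Finset.filter_subset _ _) fun i _ _ => hc i
    have e3 : ∑ T0 ∈ F, (6 : ℤ) ≤ ∑ T0 ∈ F, ∑ i ∈ univ.filter (fun i => T i = T0), c i :=
      Finset.sum_le_sum hF
    rw [Finset.sum_const, nsmul_eq_mul] at e3
    linarith
  have k1 := key (fun i => (3 + 3 * (if y i then 1 else 0) - (if x i then 1 else 0) : ℤ))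
    (fun i => by split_ifs <;> norm_num) (fun T0 hT0 => (hfib T0 hT0).1)
  have k2 := key (fun i => (5 + (if y i then 1 else 0) - 3 * (if x i then 1 else 0) : ℤ))
    (fun i => by split_ifs <;> norm_num) (fun T0 hT0 => (hfib T0 hT0).2)
  simp only [Finset.sum_sub_distrib, Finset.sum_add_distrib, ← Finset.mul_sum,
    Finset.sum_boole, Finset.sum_const, Finset.card_univ, Fintype.card_fin,
    nsmul_eq_mul] at k1 k2
  constructor
  · have : (6 * F.card + (univ.filter x).card : ℤ) ≤ 3 * k + 3 * (univ.filter y).card := by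
      linarith
    exact_mod_cast this
  · have : (6 * F.card + 3 * (univ.filter x).card : ℤ) ≤ 5 * k + (univ.filter y).card := by
      linarith
    exact_mod_cast this
-- END L2

-- BEGIN L3
private theorem L3_trans {α : Type} (L : LinearOrder α) {x y z : α} (h1 : L.lt x y)
    (h2 : L.lt y z) : L.lt x z := by
  let := L
  exact lt_trans h1 h2

private theorem L3_irrefl {α : Type} (L : LinearOrder α) {x : α} (h1 : L.lt x x) : False := by
  let := L
  exact lt_irrefl x h1

private theorem L3_of_not_le {α : Type} (L : LinearOrder α) {x y : α} (h : ¬ L.le x y) :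
    L.lt y x := by
  let := L
  exact lt_of_not_ge h

private theorem L3_of_le_ne {α : Type} (L : LinearOrder α) {x y : α} (h : L.le x y)
    (hne : x ≠ y) : L.lt x y := by
  let := L
  exact lt_of_le_of_ne h hne

private theorem L3_El_irrefl (e : El) : ¬ e.lt e := by
  cases e with
  | A i x => simp [El.lt]
  | B i S T => simp [El.lt]

private theorem L3_lt {t : ℕ} {a : ℕ → ℕ} (ha : ∀ j < t, 0 < a j) {k : ℕ}
    {L : Fin k → LinearOrder (Pt t a)}
    (hL : ∀ x y : Pt t a, (x = y ∨ Lt t a x y) ↔ ∀ i, (L i).le x y) {x y : Pt t a}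
    (h : x.1.lt y.1) (i : Fin k) : (L i).lt x y := by
  refine L3_of_le_ne (L i) ((hL x y).1 (Or.inr (Lt_of_lt ha h)) i) ?_
  rintro rfl
  exact L3_El_irrefl _ h

private theorem L3_exists {t : ℕ} {a : ℕ → ℕ} {k : ℕ}
    {L : Fin k → LinearOrder (Pt t a)}
    (hL : ∀ x y : Pt t a, (x = y ∨ Lt t a x y) ↔ ∀ i, (L i).le x y) {x y : Pt t a}
    (hne : x ≠ y) (h : ¬ x.1.lt y.1) : ∃ i, (L i).lt y x := by
  have h1 : ¬ ∀ i, (L i).le x y := by
    rw [← hL]
    rintro (h2 | h2)
    · exact hne h2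
    · exact h (lt_of_Lt h2)
  rw [not_forall] at h1
  obtain ⟨i, hi⟩ := h1
  exact ⟨i, L3_of_not_le (L i) hi⟩

/-- an inner level `j+1` -/
theorem claim_inner {t : ℕ} {a : ℕ → ℕ} (ha : ∀ j < t, 0 < a j) {k : ℕ}
    (L : Fin k → LinearOrder (Pt t a))
    (hL : ∀ x y : Pt t a, (x = y ∨ Lt t a x y) ↔ ∀ i, (L i).le x y)
    (T S : ℕ → Fin k → Finset ℕ)
    (hTS : ∀ j < t, ∀ i, ((T j i).Nonempty ∧ T j i ⊆ range (a j)) ∧
      ((S j i).Nonempty ∧ S j i ⊆ range (a j)))
    {j : ℕ} (hj : j + 2 < t) {T0 : Finset ℕ} (hT0 : T0 ⊆ range (a (j + 1))) (hne : T0.Nonempty)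
    (hne' : (range (a (j + 1)) \ T0).Nonempty) (i0 i1 : Fin k) :
    ∃ i, LowSet (L i) (j + 1) T0 ∧ ¬ (i = i0 ∧ T (j + 1) i = T0 ∧ HiB L T S j i) ∧
      ¬ (i = i1 ∧ S (j + 1) i = range (a (j + 1)) \ T0 ∧ ¬ HiB L T S (j + 1) i) := by
  have hv1 : El.Valid t a (.B (j + 1) (range (a (j + 1)) \ T0) (T (j + 2) i1)) :=
    ⟨hj, ⟨hne', Finset.sdiff_subset⟩, (hTS (j + 2) hj i1).1⟩
  have hv0 : El.Valid t a (.B j (S j i0) T0) :=
    ⟨by omega, (hTS j (by omega) i0).2, ⟨hne, hT0⟩⟩
  obtain ⟨i, hi⟩ := L3_exists hL (x := ⟨_, hv1⟩) (y := ⟨_, hv0⟩)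
    (fun hh => by
      have h3 := congrArg Subtype.val hh
      injection h3 with h4
      omega)
    (by
      rintro (h3 | h3)
      · omega
      · exact h3.2 Finset.disjoint_sdiff)
  have hlow : ∀ (x : Pt t a) (p : ℕ), x.1 = .A (j + 1) p → p ∈ T0 →
      (L i).lt x ⟨_, hv0⟩ := by
    intro x p hx hp
    refine L3_lt ha hL ?_ i
    rw [hx]
    exact Or.inr ⟨rfl, hp⟩
  have hhigh : ∀ (y : Pt t a) (q : ℕ), y.1 = .A (j + 1) q → q ∉ T0 →
      (L i).lt ⟨_, hv1⟩ y := by
    intro y q hy hq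
    refine L3_lt ha hL ?_ i
    have hyv := y.2
    rw [hy] at hyv ⊢
    exact Or.inr ⟨rfl, Finset.mem_sdiff.mpr ⟨Finset.mem_range.mpr hyv.2, hq⟩⟩
  refine ⟨i, ?_, ?_, ?_⟩
  · intro x y p q hx hy hp hq
    exact L3_trans _ (hlow x p hx hp) (L3_trans _ hi (hhigh y q hy hq))
  · rintro ⟨hii, hT, x, y, p, hx, hy, hxy⟩
    subst hii
    have hyb : y = ⟨_, hv0⟩ := Subtype.ext (by rw [hy, hT])
    rw [hyb] at hxy
    have h3 : (L i).lt ⟨_, hv1⟩ x := by
      refine L3_lt ha hL ?_ i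
      rw [hx]
      exact Or.inl (Nat.lt_succ_self j)
    exact L3_irrefl _ (L3_trans _ h3 (L3_trans _ hxy hi))
  · rintro ⟨hii, hS, hH⟩
    subst hii
    obtain ⟨p, hp⟩ := hne
    refine hH ⟨⟨.A (j + 1) p, by omega, Finset.mem_range.mp (hT0 hp)⟩, ⟨_, hv1⟩, p, rfl, ?_, ?_⟩
    · rw [hS]
    · exact L3_trans _ (hlow _ p rfl hp) hi

/-- level 0 -/
theorem claim_zero {t : ℕ} {a : ℕ → ℕ} (ha : ∀ j < t, 0 < a j) {k : ℕ}
    (L : Fin k → LinearOrder (Pt t a))
    (hL : ∀ x y : Pt t a, (x = y ∨ Lt t a x y) ↔ ∀ i, (L i).le x y)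
    (T S : ℕ → Fin k → Finset ℕ)
    (hTS : ∀ j < t, ∀ i, ((T j i).Nonempty ∧ T j i ⊆ range (a j)) ∧
      ((S j i).Nonempty ∧ S j i ⊆ range (a j)))
    (ht : 2 ≤ t) {p : ℕ} (hp : p < a 0) (h2 : 2 ≤ a 0) (i1 : Fin k) :
    ∃ i, LowSet (L i) 0 {p} ∧ ¬ (i = i1 ∧ S 0 i = range (a 0) \ {p} ∧ ¬ HiB L T S 0 i) := by
  have hne' : (range (a 0) \ {p}).Nonempty := by
    rcases Nat.eq_zero_or_pos p with h3 | h3
    · exact ⟨1, by rw [Finset.mem_sdiff, Finset.mem_range, Finset.mem_singleton]; omega⟩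
    · exact ⟨0, by rw [Finset.mem_sdiff, Finset.mem_range, Finset.mem_singleton]; omega⟩
  have hv1 : El.Valid t a (.B 0 (range (a 0) \ {p}) (T 1 i1)) :=
    ⟨by omega, ⟨hne', Finset.sdiff_subset⟩, (hTS 1 (by omega) i1).1⟩
  have hv0 : El.Valid t a (.A 0 p) := ⟨by omega, hp⟩
  obtain ⟨i, hi⟩ := L3_exists hL (x := ⟨_, hv1⟩) (y := ⟨_, hv0⟩)
    (fun hh => by
      have h3 := congrArg Subtype.val hh
      simp at h3)
    (by
      rintro (h3 | h3)
      · omega
      · exact (Finset.mem_sdiff.mp h3.2).2 (Finset.mem_singleton_self p))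
  have hhigh : ∀ (y : Pt t a) (q : ℕ), y.1 = .A 0 q → q ∉ ({p} : Finset ℕ) →
      (L i).lt ⟨_, hv1⟩ y := by
    intro y q hy hq
    refine L3_lt ha hL ?_ i
    have hyv := y.2
    rw [hy] at hyv ⊢
    exact Or.inr ⟨rfl, Finset.mem_sdiff.mpr ⟨Finset.mem_range.mpr hyv.2, hq⟩⟩
  refine ⟨i, ?_, ?_⟩
  · intro x y p' q hx hy hp' hq
    rw [Finset.mem_singleton] at hp'
    subst hp'
    have hxb : x = ⟨_, hv0⟩ := Subtype.ext hx
    rw [hxb]
    exact L3_trans _ hi (hhigh y q hy hq)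
  · rintro ⟨hii, hS, hH⟩
    subst hii
    refine hH ⟨⟨_, hv0⟩, ⟨_, hv1⟩, p, rfl, ?_, hi⟩
    rw [hS]

/-- the last level `r+1` -/
theorem claim_last {t : ℕ} {a : ℕ → ℕ} (ha : ∀ j < t, 0 < a j) {k : ℕ}
    (L : Fin k → LinearOrder (Pt t a))
    (hL : ∀ x y : Pt t a, (x = y ∨ Lt t a x y) ↔ ∀ i, (L i).le x y)
    (T S : ℕ → Fin k → Finset ℕ)
    (hTS : ∀ j < t, ∀ i, ((T j i).Nonempty ∧ T j i ⊆ range (a j)) ∧
      ((S j i).Nonempty ∧ S j i ⊆ range (a j)))
    {r : ℕ} (hr : r + 2 = t) {p : ℕ} (hp : p < a (r + 1)) (h2 : 2 ≤ a (r + 1)) (i0 : Fin k) :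
    ∃ i, LowSet (L i) (r + 1) (range (a (r + 1)) \ {p}) ∧
      ¬ (i = i0 ∧ T (r + 1) i = range (a (r + 1)) \ {p} ∧ HiB L T S r i) := by
  have hne' : (range (a (r + 1)) \ {p}).Nonempty := by
    rcases Nat.eq_zero_or_pos p with h3 | h3
    · exact ⟨1, by rw [Finset.mem_sdiff, Finset.mem_range, Finset.mem_singleton]; omega⟩
    · exact ⟨0, by rw [Finset.mem_sdiff, Finset.mem_range, Finset.mem_singleton]; omega⟩
  have hv0 : El.Valid t a (.B r (S r i0) (range (a (r + 1)) \ {p})) :=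
    ⟨by omega, (hTS r (by omega) i0).2, ⟨hne', Finset.sdiff_subset⟩⟩
  have hv1 : El.Valid t a (.A (r + 1) p) := ⟨by omega, hp⟩
  obtain ⟨i, hi⟩ := L3_exists hL (x := ⟨_, hv1⟩) (y := ⟨_, hv0⟩)
    (fun hh => by
      have h3 := congrArg Subtype.val hh
      simp at h3)
    (by
      rintro (h3 | h3)
      · omega
      · exact (Finset.mem_sdiff.mp h3.2).2 (Finset.mem_singleton_self p))
  have hlow : ∀ (x : Pt t a) (q : ℕ), x.1 = .A (r + 1) q → q ∈ range (a (r + 1)) \ {p} →
      (L i).lt x ⟨_, hv0⟩ := by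
    intro x q hx hq
    refine L3_lt ha hL ?_ i
    rw [hx]
    exact Or.inr ⟨rfl, hq⟩
  refine ⟨i, ?_, ?_⟩
  · intro x y q' q hx hy hq' hq
    have hyv := y.2
    rw [hy] at hyv
    have hqp : q = p := by
      by_contra h5
      exact hq (Finset.mem_sdiff.mpr ⟨Finset.mem_range.mpr hyv.2,
        fun h6 => h5 (Finset.mem_singleton.mp h6)⟩)
    subst hqp
    have hyb : y = ⟨_, hv1⟩ := Subtype.ext hy
    rw [hyb]
    exact L3_trans _ (hlow x q' hx hq') hi
  · rintro ⟨hii, hT, x, y, q, hx, hy, hxy⟩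
    subst hii
    have hyb : y = ⟨_, hv0⟩ := Subtype.ext (by rw [hy, hT])
    rw [hyb] at hxy
    have h3 : (L i).lt ⟨_, hv1⟩ x := by
      refine L3_lt ha hL ?_ i
      rw [hx]
      exact Nat.lt_succ_self r
    exact L3_irrefl _ (L3_trans _ h3 (L3_trans _ hxy hi))
-- END L3

-- BEGIN L4
private def L4_hgt (t : ℕ) (a : ℕ → ℕ) (j : ℕ) : ℕ :=
  if j = 0 then 1 else if j + 1 = t then a j - 1 else a j / 2

private theorem L4_hgt_pos {t : ℕ} {a : ℕ → ℕ} {j : ℕ} (h2 : 2 ≤ a j) : 1 ≤ L4_hgt t a j := by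
  unfold L4_hgt
  split_ifs <;> omega

private theorem L4_hgt_lt {t : ℕ} {a : ℕ → ℕ} {j : ℕ} (h2 : 2 ≤ a j) : L4_hgt t a j < a j := by
  unfold L4_hgt
  split_ifs <;> omega

private theorem L4_choose {t : ℕ} {a : ℕ → ℕ} {k : ℕ} (L : Fin k → LinearOrder (Pt t a)) :
    ∃ T : ℕ → Fin k → Finset ℕ, ∀ j i,
      (j < t → 2 ≤ a j → T j i ⊆ range (a j) ∧ (T j i).card = L4_hgt t a j ∧
        LowSet (L i) j (T j i)) ∧ (¬ 2 ≤ a j → T j i = range (a j)) := by
  have key : ∀ (j : ℕ) (i : Fin k), ∃ T0 : Finset ℕ,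
      (j < t → 2 ≤ a j → T0 ⊆ range (a j) ∧ T0.card = L4_hgt t a j ∧ LowSet (L i) j T0) ∧
      (¬ 2 ≤ a j → T0 = range (a j)) := by
    intro j i
    by_cases h2 : 2 ≤ a j
    · by_cases hj : j < t
      · obtain ⟨T0, h1, h3, h4⟩ := exists_lowSet (L i) hj (le_of_lt (L4_hgt_lt (t := t) h2))
        exact ⟨T0, fun _ _ => ⟨h1, h3, h4⟩, fun h => absurd h2 h⟩
      · exact ⟨∅, fun h => absurd h hj, fun h => absurd h2 h⟩
    · exact ⟨range (a j), fun _ h => absurd h h2, fun _ => rfl⟩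
  choose T hT using key
  exact ⟨T, hT⟩

/-- the lower bound: a realizer of size `k` gives a solution `u` -/
theorem feasible_of_realizable {t : ℕ} {a : ℕ → ℕ} (ht : 2 ≤ t) (ha : ∀ j < t, 0 < a j) {k : ℕ}
    (h : Realizable t a k) : Feasible t a k := by
  classical
  obtain ⟨L, hL⟩ := h
  -- k > 0
  have hk : 0 < k := by
    rcases Nat.eq_zero_or_pos k with hk | hk
    · exfalso
      subst hk
      have hx := (hL ⟨.A 0 0, ⟨by omega, ha 0 (by omega)⟩⟩
        ⟨.A 1 0, ⟨by omega, ha 1 (by omega)⟩⟩).2 (fun i => i.elim0)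
      rcases hx with hx | hx
      · have := congrArg Subtype.val hx
        simp at this
      · have := lt_of_Lt hx
        simp [El.lt] at this
    · exact hk
  obtain ⟨T, hT⟩ := L4_choose L
  let S : ℕ → Fin k → Finset ℕ := fun j i => if 2 ≤ a j then range (a j) \ T j i else range (a j)
  have hSdef : ∀ j i, 2 ≤ a j → S j i = range (a j) \ T j i := by
    intro j i h2
    simp [S, h2]
  have hSdef' : ∀ j i, ¬ 2 ≤ a j → S j i = range (a j) := by
    intro j i h2
    simp only [S, if_neg h2]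
  have hTS : ∀ j < t, ∀ i, ((T j i).Nonempty ∧ T j i ⊆ range (a j)) ∧
      ((S j i).Nonempty ∧ S j i ⊆ range (a j)) := by
    intro j hj i
    by_cases h2 : 2 ≤ a j
    · obtain ⟨h1, h3, h4⟩ := (hT j i).1 hj h2
      refine ⟨⟨?_, h1⟩, ?_, ?_⟩
      · rw [← card_pos, h3]
        exact L4_hgt_pos h2
      · rw [hSdef j i h2, ← card_pos, card_sdiff_of_subset h1, h3, card_range]
        have := L4_hgt_lt (t := t) h2
        omega
      · rw [hSdef j i h2]
        exact sdiff_subset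
    · rw [hSdef' j i h2, (hT j i).2 h2]
      have : (range (a j)).Nonempty := by
        rw [nonempty_range_iff]
        exact (ha j hj).ne'
      exact ⟨⟨this, subset_rfl⟩, this, subset_rfl⟩
  have huniq : ∀ j < t, 2 ≤ a j → ∀ i (T0 : Finset ℕ), T0 ⊆ range (a j) →
      T0.card = L4_hgt t a j → LowSet (L i) j T0 → T j i = T0 := by
    intro j hj h2 i T0 hs hc hl
    obtain ⟨h1, h3, h4⟩ := (hT j i).1 hj h2
    exact lowSet_unique (L i) hj h1 hs (by rw [h3, hc]) h4 hl
  let HI : ℕ → Fin k → Prop := fun j i =>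
    if j = 0 then False else if j = t then True else HiB L T S (j - 1) i
  let u : ℕ → ℕ := fun j => (univ.filter (HI j)).card
  have hu_le : ∀ j, u j ≤ k := by
    intro j
    have := card_filter_le (univ : Finset (Fin k)) (HI j)
    simpa [u] using this
  refine ⟨u, ?_, ?_, ?_⟩
  · simp [u, HI]
  · have ht0 : t ≠ 0 := by omega
    simp [u, HI, ht0]
  intro j hj
  refine ⟨hu_le j, ?_⟩
  by_cases h1 : a j = 1
  · have hw : w t a j = 0 := by simp [w, h1]
    have := hu_le j
    rw [hw]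
    constructor <;> omega
  have h2 : 2 ≤ a j := by
    have := ha j hj
    omega
  -- it is enough to find a family
  have main : ∀ F : Finset (Finset ℕ), F.card = w t a j →
      (∀ T0 ∈ F, ∀ i0 i1 : Fin k, ∃ i, T j i = T0 ∧ ¬ (HI j i ∧ i = i0) ∧
        ¬ (¬ HI (j + 1) i ∧ i = i1)) →
      6 * w t a j + u j ≤ 3 * k + 3 * u (j + 1) ∧ 6 * w t a j + 3 * u j ≤ 5 * k + u (j + 1) := by
    intro F hF hcl
    have := level_ineq F (T j) (HI j) (HI (j + 1)) hcl (by
      intro T0 hT0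
      obtain ⟨i, hi, -⟩ := hcl T0 hT0 ⟨0, hk⟩ ⟨0, hk⟩
      exact ⟨i, hi⟩)
    rw [hF] at this
    exact this
  rcases Nat.eq_zero_or_pos j with hj0 | hj0
  · -- level 0
    subst hj0
    refine main ((range (a 0)).image (fun p => ({p} : Finset ℕ))) ?_ ?_
    · rw [card_image_of_injective _ (fun p q h => by simpa using h), card_range]
      simp [w, h1]
    · intro T0 hT0 i0 i1
      obtain ⟨p, hp, rfl⟩ := mem_image.1 hT0
      rw [mem_range] at hp
      obtain ⟨i, hi, hn⟩ := claim_zero ha L hL T S hTS ht hp h2 i1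
      have hTi : T 0 i = {p} := by
        refine huniq 0 hj h2 i {p} ?_ ?_ hi
        · intro q hq
          rw [mem_singleton] at hq
          rw [mem_range, hq]
          exact hp
        · simp [L4_hgt]
      refine ⟨i, hTi, ?_, ?_⟩
      · rintro ⟨hx, -⟩
        simp [HI] at hx
      · rintro ⟨hy, hii⟩
        refine hn ⟨hii, ?_, ?_⟩
        · rw [hSdef 0 i h2, hTi]
        · intro hh
          apply hy
          have ht1 : ¬ (1 = t) := by omega
          simp [HI, ht1]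
          exact hh
  · by_cases hlast : j + 1 = t
    · -- last level
      obtain ⟨r, rfl⟩ : ∃ r, j = r + 1 := ⟨j - 1, by omega⟩
      refine main ((range (a (r + 1))).image (fun p => range (a (r + 1)) \ {p})) ?_ ?_
      · rw [card_image_of_injOn, card_range]
        · simp [w, h1, hlast]
        · intro p hp q hq hpq
          have hp' : p ∈ range (a (r + 1)) := hp
          by_contra hne
          have hmem : p ∈ range (a (r + 1)) \ {q} := by
            rw [mem_sdiff, mem_singleton]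
            exact ⟨hp', hne⟩
          have hpq' : range (a (r + 1)) \ {p} = range (a (r + 1)) \ {q} := hpq
          rw [← hpq', mem_sdiff, mem_singleton] at hmem
          exact hmem.2 rfl
      · intro T0 hT0 i0 i1
        obtain ⟨p, hp, rfl⟩ := mem_image.1 hT0
        rw [mem_range] at hp
        obtain ⟨i, hi, hn⟩ := claim_last ha L hL T S hTS (r := r) (by omega) hp h2 i0
        have hTi : T (r + 1) i = range (a (r + 1)) \ {p} := by
          refine huniq (r + 1) hj h2 i _ sdiff_subset ?_ hi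
          rw [card_sdiff_of_subset (by
            intro q hq
            rw [mem_singleton] at hq
            rw [mem_range, hq]
            exact hp), card_range, card_singleton]
          simp [L4_hgt, hlast]
        refine ⟨i, hTi, ?_, ?_⟩
        · rintro ⟨hx, hii⟩
          have hrt : ¬ (r + 1 = t) := by omega
          simp [HI, hrt] at hx
          exact hn ⟨hii, hTi, hx⟩
        · rintro ⟨hy, -⟩
          apply hy
          have ht0 : ¬ t = 0 := by omega
          simp [HI, hlast, ht0]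
    · -- inner level
      obtain ⟨r, rfl⟩ : ∃ r, j = r + 1 := ⟨j - 1, by omega⟩
      have hr2 : r + 2 < t := by omega
      refine main (powersetCard (a (r + 1) / 2) (range (a (r + 1)))) ?_ ?_
      · rw [card_powersetCard, card_range]
        have : ¬ (r + 1 + 1 = t) := hlast
        simp [w, h1, this]
      · intro T0 hT0 i0 i1
        rw [mem_powersetCard] at hT0
        have hne : T0.Nonempty := by
          rw [← card_pos, hT0.2]
          omega
        have hne' : (range (a (r + 1)) \ T0).Nonempty := by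
          rw [← card_pos, card_sdiff_of_subset hT0.1, hT0.2, card_range]
          omega
        obtain ⟨i, hi, hn0, hn1⟩ := claim_inner ha L hL T S hTS hr2 hT0.1 hne hne' i0 i1
        have hTi : T (r + 1) i = T0 := by
          refine huniq (r + 1) hj h2 i T0 hT0.1 ?_ hi
          rw [hT0.2]
          have : ¬ (r + 1 + 1 = t) := hlast
          simp [L4_hgt, this]
        refine ⟨i, hTi, ?_, ?_⟩
        · rintro ⟨hx, hii⟩
          have hrt : ¬ (r + 1 = t) := by omega
          simp [HI, hrt] at hx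
          exact hn0 ⟨hii, hTi, hx⟩
        · rintro ⟨hy, hii⟩
          refine hn1 ⟨hii, ?_, ?_⟩
          · rw [hSdef (r + 1) i h2, hTi]
          · intro hh
            apply hy
            have hrt : ¬ (r + 1 + 1 = t) := hlast
            simp [HI, hrt]
            exact hh
-- END L4

end Pool.E98
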