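import Mathlib

/-!
MP_e98534_co: the stacked antichain poset X(a_0, ..., a_{t-1}), its dimension, and the integer
recursion. Levels are numbered 0, ..., t-1.
-/

namespace Pool.E98

open Finset

/-- `A i x` is the element `x` of the antichain `A_i`, `B i S T` is the element `b^{(i)}_{S,T}`
lying between `A_i` and `A_{i+1}`. -/
inductive El : Type
  | A (i x : ℕ) : El
  | B (i : ℕ) (S T : Finset ℕ) : El

/-- The elements of `X(a_0, ..., a_{t-1})`: `A_i = {0, ..., a_i - 1}`, `S` and `T` are non-empty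
subsets of `A_i` and `A_{i+1}`. -/
def El.Valid (t : ℕ) (a : ℕ → ℕ) : El → Prop
  | .A i x => i < t ∧ x < a i
  | .B i S T => i + 1 < t ∧ (S.Nonempty ∧ S ⊆ range (a i)) ∧ (T.Nonempty ∧ T ⊆ range (a (i + 1)))

/-- The defining relations, `El.Gen e e'` means that `e` is put below `e'`: every element of
`A_{i+1}` below every element of `A_i`, `b^{(i)}_{S,T}` below the elements of `S` and above the
elements of `T`. -/
def El.Gen : El → El → Prop
  | .A i _, .A i' _ => i = i' + 1
  | .B i S _, .A i' x => i = i' ∧ x ∈ S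
  | .A i x, .B i' _ T => i = i' + 1 ∧ x ∈ T
  | .B _ _ _, .B _ _ _ => False

/-- The ground set of `X(a_0, ..., a_{t-1})`. -/
abbrev Pt (t : ℕ) (a : ℕ → ℕ) : Type := {e : El // e.Valid t a}

/-- The strict order of `X(a_0, ..., a_{t-1})`: transitive closure of the defining relations. -/
def Lt (t : ℕ) (a : ℕ → ℕ) (e e' : Pt t a) : Prop :=
  Relation.TransGen (fun x y : Pt t a => x.1.Gen y.1) e e'

/-- The order of `X(a_0, ..., a_{t-1})` is the intersection of `k` linear orders. -/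
def Realizable (t : ℕ) (a : ℕ → ℕ) (k : ℕ) : Prop :=
  ∃ L : Fin k → LinearOrder (Pt t a), ∀ x y : Pt t a, (x = y ∨ Lt t a x y) ↔ ∀ i, (L i).le x y

/-- The Dushnik-Miller dimension of `X(a_0, ..., a_{t-1})`. -/
noncomputable def dimX (t : ℕ) (a : ℕ → ℕ) : ℕ := sInf {k | Realizable t a k}

/-- The load of level `j`. -/
def w (t : ℕ) (a : ℕ → ℕ) (j : ℕ) : ℕ :=
  if a j = 1 then 0 else if j = 0 ∨ j + 1 = t then a j else (a j).choose (a j / 2)

/-- The system of linear inequalities in the integers `u_0, ..., u_t`. -/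
def Feasible (t : ℕ) (a : ℕ → ℕ) (k : ℕ) : Prop :=
  ∃ u : ℕ → ℕ, u 0 = 0 ∧ u t = k ∧ ∀ j < t, u j ≤ k ∧
    6 * w t a j + u j ≤ 3 * k + 3 * u (j + 1) ∧ 6 * w t a j + 3 * u j ≤ 5 * k + u (j + 1)

/-- The least `k` for which the system is solvable. -/
noncomputable def D (t : ℕ) (a : ℕ → ℕ) : ℕ := sInf {k | Feasible t a k}

/-- The one-pass recursion (with truncated subtraction):
`v_0 = 0`, `v_{j+1} = max (⌈(6 w_j + v_j - 3 k)/3⌉) (6 w_j + 3 v_j - 5 k)`. -/
def greedy (t : ℕ) (a : ℕ → ℕ) (k : ℕ) : ℕ → ℕ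
  | 0 => 0
  | j + 1 => max ((6 * w t a j + greedy t a k j - 3 * k + 2) / 3)
      (6 * w t a j + 3 * greedy t a k j - 5 * k)

end Pool.E98
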