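import Pool.Agent.E98.Arr
import Pool.Agent.E98.Pub

/-! The rule R1 and the main data. -/

namespace Pool.E98

open Finset

/-- the rule R1: bit of `b_{S,T}` in `B_j` for the main extension `L`. `kap j S c`, `lam j T c` are
member numbers in the group `c` of level `j + 1`, `j`. -/
def hiM {k : ℕ} (hb : ℕ → Fin k → Bool) (g : ℕ → Fin k → Option (ℕ × ℕ))
    (kap lam : ℕ → Finset ℕ → ℕ → ℕ) (L : Fin k) (j : ℕ) (S T : Finset ℕ) : Prop :=
  (hb (j + 1) L = true ∧ ∀ c i, g (j + 1) L = some (c, i) → i = kap j S c) ∨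
  (hb (j + 1) L = false ∧ ∃ c i, g j L = some (c, i) ∧ i ≠ lam j T c)

-- BEGIN S1
private theorem S1_pick (x y : Bool) (K M : ℕ) :
    ∃ i, i < 1 + (if x = true then 1 else 0) + (if y = true then 0 else 1) ∧
      (x = true → i ≠ K) ∧ (y = false → i ≠ M) := by
  cases x <;> cases y
  · by_cases h : M = 0
    · exact ⟨1, by simp, by simp, fun _ => by omega⟩
    · exact ⟨0, by simp, by simp, fun _ => by omega⟩
  · exact ⟨0, by simp, by simp, by simp⟩
  · by_cases h0 : K ≠ 0 ∧ M ≠ 0
    · exact ⟨0, by simp, fun _ => by omega, fun _ => by omega⟩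
    · by_cases h1 : K ≠ 1 ∧ M ≠ 1
      · exact ⟨1, by simp, fun _ => by omega, fun _ => by omega⟩
      · exact ⟨2, by simp, fun _ => by omega, fun _ => by omega⟩
  · by_cases h : K = 0
    · exact ⟨1, by simp, fun _ => by omega, by simp⟩
    · exact ⟨0, by simp, fun _ => by omega, by simp⟩

/-- service at an inner level `j + 1` -/
theorem serve_inner {k : ℕ} (hb : ℕ → Fin k → Bool) (g : ℕ → Fin k → Option (ℕ × ℕ))
    (kap lam : ℕ → Finset ℕ → ℕ → ℕ) {j w : ℕ} {sz : ℕ → ℕ}
    (hl : Lvl k w (hb (j + 1)) (hb (j + 2)) (g (j + 1)) sz) {c : ℕ} (hc : sz c ≠ 0)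
    (S1 T S2 T2 : Finset ℕ)
    (hlo : ∀ L i, g (j + 1) L = some (c, i) → hb (j + 1) L = false →
      ∀ c0 i0, g j L = some (c0, i0) → i0 = lam j T c0)
    (hhi : ∀ L i, g (j + 1) L = some (c, i) → hb (j + 2) L = true →
      ∀ c1 i1, g (j + 2) L = some (c1, i1) → i1 = kap (j + 1) S2 c1) :
    ∃ L i, g (j + 1) L = some (c, i) ∧ ¬ hiM hb g kap lam L j S1 T ∧
      hiM hb g kap lam L (j + 1) S2 T2 := by
  obtain ⟨h1, h2, h3, -⟩ := hl
  obtain ⟨L0, hL0⟩ := h3 c 0 (Nat.pos_of_ne_zero hc)
  obtain ⟨-, -, hs⟩ := h1 L0 c 0 hL0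
  obtain ⟨i, hi, hiK, hiM'⟩ := S1_pick (hb (j + 1) L0) (hb (j + 2) L0) (kap j S1 c)
    (lam (j + 1) T2 c)
  rw [← hs] at hi
  obtain ⟨L, hL⟩ := h3 c i hi
  obtain ⟨e1, e2, -⟩ := h2 L L0 c i 0 hL hL0
  refine ⟨L, i, hL, ?_, ?_⟩
  · rintro (⟨ht, hall⟩ | ⟨hf, c0, i0, hg, hne⟩)
    · exact hiK (e1 ▸ ht) (hall c i hL)
    · exact hne (hlo L i hL hf c0 i0 hg)
  · by_cases hy : hb (j + 2) L = true
    · exact Or.inl ⟨hy, fun c1 i1 hg => hhi L i hL hy c1 i1 hg⟩
    · have hy' : hb (j + 2) L = false := by simpa using hy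
      exact Or.inr ⟨hy', c, i, hL, hiM' (e2 ▸ hy')⟩
-- END S1

-- BEGIN S2
/-- the choice of `lam` from the lo rainbow -/
theorem exists_lam {k : ℕ} (X : ℕ → ℕ) (xi : Finset ℕ → ℕ) (hb : Fin k → Bool)
    (g0 g : Fin k → Option (ℕ × ℕ)) (h : LoR X hb g0 g)
    (hg0 : ∀ L L' s, g0 L = some s → g0 L' = some s → L = L') :
    ∃ lam : Finset ℕ → ℕ → ℕ, ∀ T L c0 i0 c i, hb L = false → g0 L = some (c0, i0) →
      g L = some (c, i) → X c = xi T → i0 = lam T c0 := by
  classical
  have key : ∀ (T : Finset ℕ) (c0 : ℕ), ∃ m : ℕ, ∀ L i0 c i, hb L = false → g0 L = some (c0, i0) →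
      g L = some (c, i) → X c = xi T → i0 = m := by
    intro T c0
    by_cases hex : ∃ L i0 c i, hb L = false ∧ g0 L = some (c0, i0) ∧ g L = some (c, i) ∧ X c = xi T
    · obtain ⟨L, i0, c, i, h1, h2, h3, h4⟩ := hex
      refine ⟨i0, fun L' i0' c' i' h1' h2' h3' h4' => ?_⟩
      by_cases hL : L = L'
      · subst hL
        rw [h2] at h2'
        have := Option.some.inj h2'
        exact (Prod.mk.inj this).2.symm
      · exact absurd (h4.trans h4'.symm) (h L L' c0 i0 i0' c i c' i' hL h1 h1' h2 h2' h3 h3')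
    · exact ⟨0, fun L i0 c i h1 h2 h3 h4 => absurd ⟨L, i0, c, i, h1, h2, h3, h4⟩ hex⟩
  choose lam hlam using key
  exact ⟨lam, fun T L c0 i0 c i h1 h2 h3 h4 => hlam T c0 L i0 c i h1 h2 h3 h4⟩

/-- the choice of `kap` from the hi rainbow -/
theorem exists_kap {k : ℕ} (Y0 : ℕ → ℕ) (eta : Finset ℕ → ℕ) (hb : Fin k → Bool)
    (g0 g : Fin k → Option (ℕ × ℕ)) (h : HiR Y0 hb g0 g)
    (hg : ∀ L L' s, g L = some s → g L' = some s → L = L') (n : ℕ) :
    ∃ kap : Finset ℕ → ℕ → ℕ, ∀ S L c i c0 i0, hb L = true → g L = some (c, i) →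
      g0 L = some (c0, i0) → Y0 c0 = eta (range n \ S) → i = kap S c := by
  classical
  have key : ∀ (S : Finset ℕ) (c : ℕ), ∃ m : ℕ, ∀ L i c0 i0, hb L = true → g L = some (c, i) →
      g0 L = some (c0, i0) → Y0 c0 = eta (range n \ S) → i = m := by
    intro S c
    by_cases hex : ∃ L i c0 i0, hb L = true ∧ g L = some (c, i) ∧ g0 L = some (c0, i0) ∧
        Y0 c0 = eta (range n \ S)
    · obtain ⟨L, i, c0, i0, h1, h2, h3, h4⟩ := hex
      refine ⟨i, fun L' i' c0' i0' h1' h2' h3' h4' => ?_⟩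
      by_cases hL : L = L'
      · subst hL
        rw [h2] at h2'
        have := Option.some.inj h2'
        exact (Prod.mk.inj this).2.symm
      · exact absurd (h4.trans h4'.symm) (h L L' c i i' c0 i0 c0' i0' hL h1 h1' h2 h2' h3 h3')
    · exact ⟨0, fun L i c0 i0 h1 h2 h3 h4 => absurd ⟨L, i, c0, i0, h1, h2, h3, h4⟩ hex⟩
  choose kap hkap using key
  exact ⟨kap, fun S L c i c0 i0 h1 h2 h3 h4 => hkap S c L i c0 i0 h1 h2 h3 h4⟩
-- END S2

-- BEGIN S3
/-- cyclic binary words of length at most three: some rotation is of the form `0…01…1` -/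
private theorem S3_rot (m : ℕ) (hm : m ≤ 3) (P : ℕ → Prop) :
    ∃ a t : ℕ, (m ≠ 0 → a < m) ∧ ∀ d < m, (P ((a + d) % m) ↔ t ≤ d) := by
  classical
  have h03 : m = 0 ∨ m = 1 ∨ m = 2 ∨ m = 3 := by omega
  rcases h03 with rfl | rfl | rfl | rfl
  · exact ⟨0, 0, fun h => absurd rfl h, fun d hd => absurd hd (Nat.not_lt_zero d)⟩
  · by_cases h0 : P 0
    · refine ⟨0, 0, fun _ => by omega, fun d hd => ?_⟩
      obtain rfl : d = 0 := by omega
      simp [h0]
    · refine ⟨0, 1, fun _ => by omega, fun d hd => ?_⟩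
      obtain rfl : d = 0 := by omega
      simp [h0]
  · by_cases h0 : P 0 <;> by_cases h1 : P 1
    · refine ⟨0, 0, fun _ => by omega, fun d hd => ?_⟩
      have : d = 0 ∨ d = 1 := by omega
      rcases this with rfl | rfl <;> simp [h0, h1]
    · refine ⟨1, 1, fun _ => by omega, fun d hd => ?_⟩
      have : d = 0 ∨ d = 1 := by omega
      rcases this with rfl | rfl <;> simp [h0, h1]
    · refine ⟨0, 1, fun _ => by omega, fun d hd => ?_⟩
      have : d = 0 ∨ d = 1 := by omega
      rcases this with rfl | rfl <;> simp [h0, h1]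
    · refine ⟨0, 2, fun _ => by omega, fun d hd => ?_⟩
      have : d = 0 ∨ d = 1 := by omega
      rcases this with rfl | rfl <;> simp [h0, h1]
  · by_cases h0 : P 0 <;> by_cases h1 : P 1 <;> by_cases h2 : P 2
    · refine ⟨0, 0, fun _ => by omega, fun d hd => ?_⟩
      have : d = 0 ∨ d = 1 ∨ d = 2 := by omega
      rcases this with rfl | rfl | rfl <;> simp [h0, h1, h2]
    · refine ⟨2, 1, fun _ => by omega, fun d hd => ?_⟩
      have : d = 0 ∨ d = 1 ∨ d = 2 := by omega
      rcases this with rfl | rfl | rfl <;> simp [h0, h1, h2]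
    · refine ⟨1, 1, fun _ => by omega, fun d hd => ?_⟩
      have : d = 0 ∨ d = 1 ∨ d = 2 := by omega
      rcases this with rfl | rfl | rfl <;> simp [h0, h1, h2]
    · refine ⟨1, 2, fun _ => by omega, fun d hd => ?_⟩
      have : d = 0 ∨ d = 1 ∨ d = 2 := by omega
      rcases this with rfl | rfl | rfl <;> simp [h0, h1, h2]
    · refine ⟨0, 1, fun _ => by omega, fun d hd => ?_⟩
      have : d = 0 ∨ d = 1 ∨ d = 2 := by omega
      rcases this with rfl | rfl | rfl <;> simp [h0, h1, h2]
    · refine ⟨2, 2, fun _ => by omega, fun d hd => ?_⟩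
      have : d = 0 ∨ d = 1 ∨ d = 2 := by omega
      rcases this with rfl | rfl | rfl <;> simp [h0, h1, h2]
    · refine ⟨0, 2, fun _ => by omega, fun d hd => ?_⟩
      have : d = 0 ∨ d = 1 ∨ d = 2 := by omega
      rcases this with rfl | rfl | rfl <;> simp [h0, h1, h2]
    · refine ⟨0, 3, fun _ => by omega, fun d hd => ?_⟩
      have : d = 0 ∨ d = 1 ∨ d = 2 := by omega
      rcases this with rfl | rfl | rfl <;> simp [h0, h1, h2]

/-- The cyclic rule for the end levels. `el L = some (p, _)`: the element of `L` at the end level,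
`grp` = groups (sizes at most 3) of the neighbouring level, `act` = the members of these groups.
Order of an active `L` with `grp L = some (c, i)`: its element has position 0, the element of the
next member (cyclically) position 1, of the one after it 2, all other elements 3. -/
theorem exists_cyc {k : ℕ} (act : Fin k → Prop) (el grp : Fin k → Option (ℕ × ℕ)) (sz : ℕ → ℕ)
    (h1 : ∀ c i, i < sz c → ∃ L, grp L = some (c, i))
    (h2 : ∀ L c i, grp L = some (c, i) → i < sz c) (h3 : ∀ c, sz c ≤ 3)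
    (h4 : ∀ L L' c i i', grp L = some (c, i) → grp L' = some (c, i') → (act L ↔ act L'))
    (h5 : ∀ L L' s, grp L = some s → grp L' = some s → L = L') :
    ∃ (kap : Finset ℕ → ℕ → ℕ) (pos0 : Fin k → ℕ → ℕ),
      (∀ L x, pos0 L x ≤ 3) ∧
      (∀ L p i, el L = some (p, i) → (¬ act L ∨ ∀ s, grp L ≠ some s) →
        ∀ s, s ≠ p → pos0 L p < pos0 L s) ∧
      (∀ L p i c i', act L → el L = some (p, i) → grp L = some (c, i') → ∀ S : Finset ℕ, p ∉ S →
        ∃ L', act L' ∧ grp L' = some (c, kap S c) ∧ ∀ s ∈ S, pos0 L' p < pos0 L' s) := by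
  classical
  -- `M c j x`: the member `j` of the group `c` has the element `x`
  let M : ℕ → ℕ → ℕ → Prop := fun c j x => ∃ L i, grp L = some (c, j) ∧ el L = some (x, i)
  have hrot := fun (S : Finset ℕ) (c : ℕ) =>
    S3_rot (sz c) (h3 c) (fun j => ∃ x ∈ S, M c j x)
  choose kap t hkap ht using hrot
  let cyc : ℕ → ℕ → ℕ → ℕ := fun c i x =>
    if h : ∃ d, d < sz c ∧ M c ((i + d) % sz c) x then Nat.find h else 3
  have hcyc3 : ∀ c i x, cyc c i x ≤ 3 := by
    intro c i x
    simp only [cyc]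
    split_ifs with h
    · have := (Nat.find_spec h).1
      have := h3 c
      omega
    · exact le_rfl
  have hcycle : ∀ c i x d, d < sz c → M c ((i + d) % sz c) x → cyc c i x ≤ d := by
    intro c i x d hd hM
    have h : ∃ d, d < sz c ∧ M c ((i + d) % sz c) x := ⟨d, hd, hM⟩
    simp only [cyc, dif_pos h]
    exact Nat.find_min' h ⟨hd, hM⟩
  have hcycge : ∀ c i x b, b ≤ 3 → (∀ d, d < sz c → M c ((i + d) % sz c) x → b ≤ d) →
      b ≤ cyc c i x := by
    intro c i x b hb hall
    simp only [cyc]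
    split_ifs with h
    · exact hall _ (Nat.find_spec h).1 (Nat.find_spec h).2
    · exact hb
  let dft : Fin k → ℕ → ℕ := fun L x => if ∃ i, el L = some (x, i) then 0 else 1
  let pos0 : Fin k → ℕ → ℕ := fun L x =>
    if act L then
      match grp L with
      | some (c, i) => cyc c i x
      | none => dft L x
    else dft L x
  have hdft1 : ∀ L x, dft L x ≤ 1 := by
    intro L x
    simp only [dft]
    split_ifs <;> omega
  refine ⟨kap, pos0, ?_, ?_, ?_⟩
  · intro L x
    simp only [pos0]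
    split_ifs with ha
    · cases hg : grp L with
      | none => exact (hdft1 L x).trans (by omega)
      | some s => obtain ⟨c, i⟩ := s; exact hcyc3 c i x
    · exact (hdft1 L x).trans (by omega)
  · intro L p i hel hor s hs
    have hd : ∀ x, pos0 L x = dft L x := by
      intro x
      rcases hor with ha | hg
      · simp only [pos0, if_neg ha]
      · cases hgL : grp L with
        | none => simp only [pos0, hgL]; split_ifs <;> rfl
        | some s => exact absurd hgL (hg s)
    rw [hd, hd]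
    have e1 : dft L p = 0 := by
      simp only [dft]
      rw [if_pos ⟨i, hel⟩]
    have e2 : dft L s = 1 := by
      simp only [dft]
      rw [if_neg]
      rintro ⟨i', hi'⟩
      rw [hel] at hi'
      simp only [Option.some.injEq, Prod.mk.injEq] at hi'
      exact hs hi'.1.symm
    omega
  · intro L p i c i' ha hel hg S hpS
    have hi' : i' < sz c := h2 L c i' hg
    have hsz : sz c ≠ 0 := by omega
    have hk : kap S c < sz c := hkap S c hsz
    obtain ⟨L', hL'⟩ := h1 c (kap S c) hk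
    have ha' : act L' := (h4 L L' c i' (kap S c) hg hL').1 ha
    refine ⟨L', ha', hL', ?_⟩
    intro s hs
    have hpos : ∀ x, pos0 L' x = cyc c (kap S c) x := by
      intro x
      simp only [pos0, if_pos ha', hL']
    rw [hpos, hpos]
    -- the offset of the member `i'`
    set a := kap S c with haa
    obtain ⟨d0, hd0, hd0'⟩ : ∃ d0, d0 < sz c ∧ (a + d0) % sz c = i' := by
      rcases Nat.lt_or_ge i' a with hlt | hge
      · refine ⟨i' + sz c - a, by omega, ?_⟩
        have : a + (i' + sz c - a) = i' + sz c := by omega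
        rw [this, Nat.add_mod_right, Nat.mod_eq_of_lt hi']
      · refine ⟨i' - a, by omega, ?_⟩
        have : a + (i' - a) = i' := by omega
        rw [this, Nat.mod_eq_of_lt hi']
    have hMp : M c ((a + d0) % sz c) p := by
      rw [hd0']
      exact ⟨L, i, hg, hel⟩
    have hnot : ¬ t S c ≤ d0 := by
      intro hle
      obtain ⟨x, hx, L2, i2, hg2, hel2⟩ := (ht S c d0 hd0).2 hle
      rw [← haa, hd0'] at hg2
      have hLL : L2 = L := h5 L2 L (c, i') hg2 hg
      rw [hLL, hel] at hel2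
      simp only [Option.some.injEq, Prod.mk.injEq] at hel2
      exact hpS (hel2.1 ▸ hx)
    have hle : cyc c a p ≤ d0 := hcycle c a p d0 hd0 hMp
    have hge : d0 + 1 ≤ cyc c a s := by
      apply hcycge
      · have := h3 c
        omega
      · intro d hd hMd
        have : t S c ≤ d := (ht S c d hd).1 ⟨s, hs, hMd⟩
        omega
    omega
-- END S3

end Pool.E98
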