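import Pool.Agent.E98.Red
import Pool.Agent.E98.Low
import Pool.Agent.E98.Sch

/-! Final assembly. -/

namespace Pool.E98

open Finset

-- BEGIN F1
/-- the system is solvable for large `k` (`u_j = 0` for `j < t`, `u_t = k`, `k = 2 max w`) -/
theorem exists_feasible {t : ℕ} (a : ℕ → ℕ) (ht : 0 < t) : ∃ k, Feasible t a k := by
  refine ⟨2 * ∑ j ∈ range t, w t a j, fun j => if j = t then 2 * ∑ j ∈ range t, w t a j else 0,
    ?_, ?_, ?_⟩
  · simp only [if_neg (show (0 : ℕ) ≠ t by omega)]
  · simp only [if_true]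
  · intro j hj
    have h1 : w t a j ≤ ∑ j ∈ range t, w t a j :=
      single_le_sum (f := fun j => w t a j) (fun i _ => Nat.zero_le _) (mem_range.2 hj)
    simp only [if_neg (show j ≠ t by omega)]
    refine ⟨by omega, by omega, by omega⟩

/-- the one-pass recursion -/
theorem feasible_iff_greedy {t : ℕ} (a : ℕ → ℕ) (ht : 0 < t) (k : ℕ) :
    Feasible t a k ↔ ∀ j ≤ t, greedy t a k j ≤ k := by
  constructor
  · rintro ⟨u, h0, ht', hu⟩
    have key : ∀ j, j ≤ t → greedy t a k j ≤ u j := by
      intro j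
      induction j with
      | zero => intro _; simp only [greedy]; omega
      | succ j ih =>
        intro hj
        have h1 := ih (by omega)
        obtain ⟨h2, h3, h4⟩ := hu j (by omega)
        simp only [greedy]
        refine max_le ?_ ?_
        · omega
        · omega
    intro j hj
    have h1 := key j hj
    rcases Nat.lt_or_ge j t with h | h
    · have := (hu j h).1
      omega
    · have hjt : j = t := by omega
      rw [hjt] at h1 ⊢
      omega
  · intro h
    refine ⟨fun j => if j = t then k else greedy t a k j, ?_, ?_, ?_⟩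
    · simp only [if_neg (show (0 : ℕ) ≠ t by omega), greedy]
    · simp only [if_true]
    · intro j hj
      have h1 := h j (by omega)
      have h2 := h (j + 1) (by omega)
      have h3 : greedy t a k (j + 1) ≤ (if j + 1 = t then k else greedy t a k (j + 1)) := by
        split_ifs
        · exact h2
        · exact le_refl _
      have h4 : greedy t a k (j + 1) = max ((6 * w t a j + greedy t a k j - 3 * k + 2) / 3)
          (6 * w t a j + 3 * greedy t a k j - 5 * k) := rfl
      have h5 : (6 * w t a j + greedy t a k j - 3 * k + 2) / 3 ≤ greedy t a k (j + 1) := by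
        rw [h4]; exact le_max_left _ _
      have h6 : 6 * w t a j + 3 * greedy t a k j - 5 * k ≤ greedy t a k (j + 1) := by
        rw [h4]; exact le_max_right _ _
      simp only [if_neg (show j ≠ t by omega)]
      generalize (if j + 1 = t then k else greedy t a k (j + 1)) = z at h3 ⊢
      refine ⟨h1, by omega, by omega⟩
-- END F1

-- BEGIN S4
theorem S4_pref_id (w : ℕ) : Pref w (fun c => c) := by
  intro m _ y
  show 6 * ((range m).filter (fun c => c = y)).card ≤ max 6 m
  have : ((range m).filter (fun c => c = y)).card ≤ 1 := by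
    rw [Finset.card_le_one]
    intro a ha b hb
    rw [mem_filter] at ha hb
    rw [ha.2, hb.2]
  have h6 : 6 ≤ max 6 m := le_max_left _ _
  omega

/-- the data of all levels -/
theorem S4_levels (t : ℕ) (a : ℕ → ℕ) (ha : ∀ j < t, 0 < a j) :
    ∃ (W : ℕ → ℕ) (posch : ℕ → ℕ → ℕ → ℕ) (X Y : ℕ → ℕ → ℕ) (xi eta : ℕ → Finset ℕ → ℕ),
      ∀ j < t, W j ≤ w t a j ∧ Pref (W j) (X j) ∧ Pref (W j) (Y j) ∧
        ((j = 0 ∨ j + 1 = t) → W j = if a j = 1 then 0 else a j) ∧
        (¬ (j = 0 ∨ j + 1 = t) → ∀ T V : Finset ℕ, T ⊆ V → V ⊆ range (a j) → ∃ c,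
          (∀ p ∈ T, ∀ q, q ∉ V → posch j c p < posch j c q) ∧
          ((c < W j ∧ X j c = xi j T ∧ Y j c = eta j V) ∨ (W j = 0 ∧ c < 462))) := by
  have key : ∀ j, ∃ (W : ℕ) (posch : ℕ → ℕ → ℕ) (X Y : ℕ → ℕ) (xi eta : Finset ℕ → ℕ),
      j < t → W ≤ w t a j ∧ Pref W X ∧ Pref W Y ∧
        ((j = 0 ∨ j + 1 = t) → W = if a j = 1 then 0 else a j) ∧
        (¬ (j = 0 ∨ j + 1 = t) → ∀ T V : Finset ℕ, T ⊆ V → V ⊆ range (a j) → ∃ c,
          (∀ p ∈ T, ∀ q, q ∉ V → posch c p < posch c q) ∧
          ((c < W ∧ X c = xi T ∧ Y c = eta V) ∨ (W = 0 ∧ c < 462))) := by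
    intro j
    by_cases hj : j = 0 ∨ j + 1 = t
    · refine ⟨if a j = 1 then 0 else a j, fun _ _ => 0, fun c => c, fun c => c, fun _ => 0,
        fun _ => 0, fun _ => ⟨?_, S4_pref_id _, S4_pref_id _, fun _ => rfl,
        fun h => absurd hj h⟩⟩
      unfold w
      split_ifs <;> omega
    · by_cases hjt : j < t
      · obtain ⟨w', posch, X, Y, xi, eta, h1, h2, h3, h4⟩ := exists_level (a j) (ha j hjt)
        refine ⟨w', posch, X, Y, xi, eta, fun _ => ⟨?_, h2, h3, fun h => absurd h hj,
          fun _ => h4⟩⟩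
        unfold w
        rw [if_neg hj]
        exact h1
      · exact ⟨0, fun _ _ => 0, fun c => c, fun c => c, fun _ => 0, fun _ => 0,
          fun h => absurd h hjt⟩
  choose W posch X Y xi eta h using key
  exact ⟨W, posch, X, Y, xi, eta, h⟩

/-- enumeration of the dropped chains -/
theorem S4_sel (D : Finset ℕ) (hD : D.card ≤ 12) (W : ℕ) :
    ∃ sel : ℕ → ℕ, ∀ c, (c ∈ D ∨ (W = 0 ∧ D = ∅ ∧ c < 462)) → ∃ r < 462, sel r = c := by
  by_cases hW : W = 0 ∧ D = ∅
  · refine ⟨fun r => r, fun c hc => ?_⟩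
    rcases hc with hc | hc
    · rw [hW.2] at hc; simp at hc
    · exact ⟨c, hc.2.2, rfl⟩
  · refine ⟨fun r => if h : r < D.card then D.orderEmbOfFin rfl ⟨r, h⟩ else 0, fun c hc => ?_⟩
    rcases hc with hc | hc
    · have : c ∈ Set.range (D.orderEmbOfFin rfl) := by
        rw [Finset.range_orderEmbOfFin]; exact hc
      obtain ⟨r, hr⟩ := this
      refine ⟨r.1, by have := r.2; omega, ?_⟩
      simp only [r.2, dif_pos]
      exact hr
    · exact absurd ⟨hc.1, hc.2.1⟩ hW

/-- the upper bound -/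
theorem realizable_of_feasible {t : ℕ} {a : ℕ → ℕ} (ht : 2 ≤ t) (ha : ∀ j < t, 0 < a j) {k : ℕ}
    (h : Feasible t a k) : Realizable t a (k + 925) := by
  classical
  obtain ⟨u, hu0, hut, hu⟩ := h
  obtain ⟨W, posch, X, Y, xi, eta, hlev⟩ := S4_levels t a ha
  obtain ⟨hb, g, sz, hb0, hbt, hLvl, hLoR, hHiR⟩ := exists_scheme t k u W X Y hu0 hut
    (fun j hj => by
      obtain ⟨h1, h2, h3⟩ := hu j hj
      have := (hlev j hj).1
      refine ⟨h1, ?_, ?_⟩ <;> omega)
    (fun j hj => (hlev j hj).2.1) (fun j hj => (hlev j hj).2.2.1)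
  have hginj : ∀ j < t, ∀ L L' s, g j L = some s → g j L' = some s → L = L' := by
    intro j hj L L' s h1 h2
    obtain ⟨c, i⟩ := s
    exact ((hLvl j hj).2.1 L L' c i i h1 h2).2.2 rfl
  have hsz3 : ∀ j < t, ∀ c, sz j c ≤ 3 := by
    intro j hj c
    by_contra hcon
    obtain ⟨L, hL⟩ := (hLvl j hj).2.2.1 c 0 (by omega)
    have := ((hLvl j hj).1 L c 0 hL).2.2
    split_ifs at this <;> omega
  -- the cyclic rule at the first boundary
  obtain ⟨kap0, posA, hA1, hA2, hA3⟩ := exists_cyc (fun L => hb 1 L = true) (g 0) (g 1) (sz 1)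
    (hLvl 1 (by omega)).2.2.1 (fun L c i h => ((hLvl 1 (by omega)).1 L c i h).2.1)
    (hsz3 1 (by omega))
    (fun L L' c i i' h h' => by
      have := ((hLvl 1 (by omega)).2.1 L L' c i i' h h').1
      rw [this]) (hginj 1 (by omega))
  obtain ⟨r, hr⟩ : ∃ r, r + 2 = t := ⟨t - 2, by omega⟩
  -- the cyclic rule at the last boundary
  obtain ⟨lam1, posB, hB1, hB2, hB3⟩ := exists_cyc (fun L => hb (r + 1) L = false)
    (g (r + 1)) (g r) (sz r)
    (hLvl r (by omega)).2.2.1 (fun L c i h => ((hLvl r (by omega)).1 L c i h).2.1)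
    (hsz3 r (by omega))
    (fun L L' c i i' h h' => by
      have := ((hLvl r (by omega)).2.1 L L' c i i' h h').2.1
      rw [this]) (hginj r (by omega))
  -- lam and kap
  have hlam : ∀ j, ∃ lam : Finset ℕ → ℕ → ℕ, (j + 2 < t → ∀ T L c0 i0 c i,
      hb (j + 1) L = false → g j L = some (c0, i0) → g (j + 1) L = some (c, i) →
      X (j + 1) c = xi (j + 1) T → i0 = lam T c0) ∧ (j = r → lam = lam1) := by
    intro j
    by_cases hj : j + 2 < t
    · obtain ⟨lam, hl⟩ := exists_lam (X (j + 1)) (xi (j + 1)) (hb (j + 1)) (g j) (g (j + 1))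
        (hLoR j (by omega)) (hginj j (by omega))
      exact ⟨lam, fun _ => hl, fun h => by omega⟩
    · exact ⟨lam1, fun h => absurd h hj, fun _ => rfl⟩
  choose lam hlam using hlam
  have hkap : ∀ j, ∃ kap : Finset ℕ → ℕ → ℕ, (j + 2 < t → ∀ S L c i c0 i0,
      hb (j + 2) L = true → g (j + 2) L = some (c, i) → g (j + 1) L = some (c0, i0) →
      Y (j + 1) c0 = eta (j + 1) (range (a (j + 1)) \ S) → i = kap S c) := by
    intro j
    by_cases hj : j + 2 < t
    · obtain ⟨kap, hk⟩ := exists_kap (Y (j + 1)) (eta (j + 1)) (hb (j + 2)) (g (j + 1))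
        (g (j + 2)) (hHiR (j + 1) (by omega)) (hginj (j + 2) (by omega)) (a (j + 1))
      exact ⟨kap, fun _ => hk⟩
    · exact ⟨fun _ _ => 0, fun h => absurd h hj⟩
  choose kapS hkapS using hkap
  set kap : ℕ → Finset ℕ → ℕ → ℕ := fun j => match j with
    | 0 => kap0
    | j + 1 => kapS j with hkapdef
  -- the dropped chains
  have hsel : ∀ j, ∃ sel : ℕ → ℕ, j < t → ∀ c, ((c < W j ∧ sz j c = 0) ∨ (W j = 0 ∧ c < 462)) →
      ∃ r < 462, sel r = c := by
    intro j
    by_cases hj : j < t
    · obtain ⟨sel, hs⟩ := S4_sel ((range (W j)).filter (fun c => sz j c = 0))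
        ((hLvl j hj).2.2.2) (W j)
      refine ⟨sel, fun _ c hc => hs c ?_⟩
      rcases hc with hc | hc
      · left; rw [mem_filter, mem_range]; exact hc
      · right
        refine ⟨hc.1, ?_, hc.2⟩
        rw [hc.1]; simp
    · exact ⟨fun _ => 0, fun h => absurd h hj⟩
  choose sel hsel using hsel
  -- positions
  set posM : Fin k → ℕ → ℕ → ℕ := fun L j x =>
    if j = 0 then posA L x else if j + 1 = t then 3 - posB L x else
      match g j L with
      | some s => posch j s.1 x
      | none => 0 with hposM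
  set posE : ℕ → ℕ → ℕ → ℕ := fun r j x =>
    if j = 0 then (if x = sel 0 r then 0 else 1) else if j + 1 = t then
      (if x = sel j r then 1 else 0) else posch j (sel j r) x with hposE
  set pos : (Fin k ⊕ ((Bool × Fin 462) ⊕ Unit)) → ℕ → ℕ → ℕ := fun i =>
    match i with
    | Sum.inl L => posM L
    | Sum.inr (Sum.inl s) => posE s.2.1
    | Sum.inr (Sum.inr _) => fun _ _ => 0 with hpos
  set hi : (Fin k ⊕ ((Bool × Fin 462) ⊕ Unit)) → ℕ → Finset ℕ → Finset ℕ → Prop := fun i =>
    match i with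
    | Sum.inl L => hiM hb g kap lam L
    | Sum.inr (Sum.inl s) => fun j _ _ => (decide (j % 2 = 0)) = s.1
    | Sum.inr (Sum.inr _) => fun _ _ _ => True with hhi
  have hcard : Fintype.card (Fin k ⊕ ((Bool × Fin 462) ⊕ Unit)) = k + 925 := by
    simp
  rw [← hcard]
  refine realizable_of_data ht ha pos hi ?_ ?_ ?_ ?_
  · -- CP
    intro j S1 T S2 T2 hj hS1 hS1' hT hT' hS2 hS2' hT2 hT2' hdis
    have hj1 : j + 1 < t := by omega
    have hinner : ¬ (j + 1 = 0 ∨ j + 1 + 1 = t) := by omega
    obtain ⟨c, hc1, hc2⟩ := (hlev (j + 1) hj1).2.2.2.2 hinner T (range (a (j + 1)) \ S2)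
      (fun x hx => by
        rw [mem_sdiff]
        exact ⟨hT' hx, fun hx2 => (Finset.disjoint_left.mp hdis) hx hx2⟩) sdiff_subset
    have hsep : ∀ p ∈ T, ∀ q ∈ S2, posch (j + 1) c p < posch (j + 1) c q := by
      intro p hp q hq
      exact hc1 p hp q (fun hq2 => (mem_sdiff.mp hq2).2 hq)
    -- the extra extensions
    have hextra : ∀ r < 462, sel (j + 1) r = c → ∃ i, ¬ hi i j S1 T ∧ hi i (j + 1) S2 T2 ∧
        ∀ p ∈ T, ∀ q ∈ S2, pos i (j + 1) p < pos i (j + 1) q := by
      intro r hr hrc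
      refine ⟨Sum.inr (Sum.inl (decide ((j + 1) % 2 = 0), ⟨r, hr⟩)), ?_, ?_, ?_⟩
      · simp only [hhi]
        rw [decide_eq_decide]
        omega
      · simp only [hhi]
      · intro p hp q hq
        simp only [hpos, hposE, if_neg (show ¬ (j + 1 = 0) by omega),
          if_neg (show ¬ (j + 1 + 1 = t) by omega), hrc]
        exact hsep p hp q hq
    rcases hc2 with ⟨hcW, hX, hY⟩ | hc2
    · by_cases hsz : sz (j + 1) c = 0
      · obtain ⟨r, hr, hrc⟩ := hsel (j + 1) hj1 c (Or.inl ⟨hcW, hsz⟩)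
        exact hextra r hr hrc
      · obtain ⟨L, i, hL, h1, h2⟩ := serve_inner hb g kap lam (hLvl (j + 1) hj1) hsz S1 T S2 T2
          (fun L i hL hbL c0 i0 h0 => (hlam j).1 hj T L c0 i0 c i hbL h0 hL hX)
          (fun L i hL hbL c1 i1 h1 => hkapS j hj S2 L c1 i1 c i hbL h1 hL hY)
        refine ⟨Sum.inl L, h1, h2, ?_⟩
        intro p hp q hq
        simp only [hpos, hposM, if_neg (show ¬ (j + 1 = 0) by omega),
          if_neg (show ¬ (j + 1 + 1 = t) by omega), hL]
        exact hsep p hp q hq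
    · obtain ⟨r, hr, hrc⟩ := hsel (j + 1) hj1 c (Or.inr hc2)
      exact hextra r hr hrc
  · -- E0
    intro p S T hp hS hS' hT hT' hpS
    have h0t : 0 < t := by omega
    have ha1 : a 0 ≠ 1 := by
      intro h1
      obtain ⟨s, hs⟩ := hS
      have h2 := mem_range.mp (hS' hs)
      have : s = p := by omega
      exact hpS (this ▸ hs)
    have hW : W 0 = a 0 := by
      have := (hlev 0 h0t).2.2.2.1 (Or.inl rfl)
      rw [if_neg ha1] at this
      exact this
    have hposA : ∀ L x, pos (Sum.inl L) 0 x = posA L x := by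
      intro L x
      simp only [hpos, hposM, if_true]
    by_cases hsz : sz 0 p = 0
    · obtain ⟨r, hr, hrc⟩ := hsel 0 h0t p (Or.inl ⟨by omega, hsz⟩)
      refine ⟨Sum.inr (Sum.inl (true, ⟨r, hr⟩)), ?_, ?_⟩
      · simp [hhi]
      · intro s hs
        have hsp : s ≠ p := fun h => hpS (h ▸ hs)
        simp only [hpos, hposE, if_true, hrc, if_neg hsp]
        omega
    · obtain ⟨L0, hL0⟩ := (hLvl 0 h0t).2.2.1 p 0 (by omega)
      have hs0 := ((hLvl 0 h0t).1 L0 p 0 hL0).2.2
      by_cases hb1 : hb 1 L0 = true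
      · by_cases hex : ∃ s, g 1 L0 = some s
        · obtain ⟨⟨c, i'⟩, hs⟩ := hex
          obtain ⟨L', h1, h2, h3⟩ := hA3 L0 p 0 c i' hb1 hL0 hs S hpS
          refine ⟨Sum.inl L', ?_, ?_⟩
          · simp only [hhi, hiM]
            left
            refine ⟨h1, fun c' i'' h' => ?_⟩
            rw [h2] at h'
            simp only [Option.some.injEq, Prod.mk.injEq] at h'
            rw [← h'.1, ← h'.2]
          · intro s hs
            rw [hposA, hposA]
            exact h3 s hs
        · refine ⟨Sum.inl L0, ?_, ?_⟩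
          · simp only [hhi, hiM]
            left
            exact ⟨hb1, fun c i h => absurd ⟨_, h⟩ hex⟩
          · intro s hs
            rw [hposA, hposA]
            exact hA2 L0 p 0 hL0 (Or.inr (fun s h => hex ⟨s, h⟩)) s (fun h => hpS (h ▸ hs))
      · have hb1' : hb 1 L0 = false := by simpa using hb1
        have hsz2 : sz 0 p = 2 := by
          rw [hs0, hb0 L0]; simp [hb1']
        obtain ⟨i, hi2, hine⟩ : ∃ i < 2, i ≠ lam 0 T p := by
          by_cases h : lam 0 T p = 0
          · exact ⟨1, by omega, by omega⟩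
          · exact ⟨0, by omega, by omega⟩
        obtain ⟨L1, hL1⟩ := (hLvl 0 h0t).2.2.1 p i (by omega)
        have hbL1 : hb 1 L1 = false := by
          rw [((hLvl 0 h0t).2.1 L1 L0 p i 0 hL1 hL0).2.1]; exact hb1'
        refine ⟨Sum.inl L1, ?_, ?_⟩
        · simp only [hhi, hiM]
          right
          exact ⟨hbL1, p, i, hL1, hine⟩
        · intro s hs
          rw [hposA, hposA]
          exact hA2 L1 p i hL1 (Or.inl (by rw [hbL1]; simp)) s (fun h => hpS (h ▸ hs))
  · -- Et
    intro r' p S T hr' hp hS hS' hT hT' hpT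
    obtain rfl : r' = r := by omega
    have hrt : r' + 1 < t := by omega
    have ha1 : a (r' + 1) ≠ 1 := by
      intro h1
      obtain ⟨s, hs⟩ := hT
      have h2 := mem_range.mp (hT' hs)
      have : s = p := by omega
      exact hpT (this ▸ hs)
    have hW : W (r' + 1) = a (r' + 1) := by
      have := (hlev (r' + 1) hrt).2.2.2.1 (Or.inr (by omega))
      rw [if_neg ha1] at this
      exact this
    have hposB : ∀ L x, pos (Sum.inl L) (r' + 1) x = 3 - posB L x := by
      intro L x
      simp only [hpos, hposM, if_neg (show ¬ (r' + 1 = 0) by omega),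
        if_pos (show r' + 1 + 1 = t by omega)]
    have hlamr : lam r' = lam1 := (hlam r').2 rfl
    by_cases hsz : sz (r' + 1) p = 0
    · obtain ⟨q, hq, hqc⟩ := hsel (r' + 1) hrt p (Or.inl ⟨by omega, hsz⟩)
      refine ⟨Sum.inr (Sum.inl (decide ((r' + 1) % 2 = 0), ⟨q, hq⟩)), ?_, ?_⟩
      · simp only [hhi]
        rw [decide_eq_decide]
        omega
      · intro s hs
        have hsp : s ≠ p := fun h => hpT (h ▸ hs)
        simp only [hpos, hposE, if_neg (show ¬ (r' + 1 = 0) by omega),
          if_pos (show r' + 1 + 1 = t by omega), hqc, if_neg hsp, if_true]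
        omega
    · obtain ⟨L0, hL0⟩ := (hLvl (r' + 1) hrt).2.2.1 p 0 (by omega)
      have hs0 := ((hLvl (r' + 1) hrt).1 L0 p 0 hL0).2.2
      have hbt' : hb (r' + 1 + 1) L0 = true := by
        rw [show r' + 1 + 1 = t by omega]; exact hbt L0
      by_cases hb1 : hb (r' + 1) L0 = true
      · have hsz2 : sz (r' + 1) p = 2 := by
          rw [hs0, hbt']; simp [hb1]
        obtain ⟨i, hi2, hine⟩ : ∃ i < 2, i ≠ kap r' S p := by
          by_cases h : kap r' S p = 0
          · exact ⟨1, by omega, by omega⟩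
          · exact ⟨0, by omega, by omega⟩
        obtain ⟨L1, hL1⟩ := (hLvl (r' + 1) hrt).2.2.1 p i (by omega)
        have hbL1 : hb (r' + 1) L1 = true := by
          rw [((hLvl (r' + 1) hrt).2.1 L1 L0 p i 0 hL1 hL0).1]; exact hb1
        refine ⟨Sum.inl L1, ?_, ?_⟩
        · simp only [hhi, hiM]
          rintro (⟨-, h2⟩ | ⟨h1, -⟩)
          · exact hine (h2 p i hL1)
          · rw [hbL1] at h1; simp at h1
        · intro s hs
          rw [hposB, hposB]
          have h1 := hB2 L1 p i hL1 (Or.inl (by rw [hbL1]; simp)) s (fun h => hpT (h ▸ hs))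
          have h2 := hB1 L1 s
          omega
      · have hb1' : hb (r' + 1) L0 = false := by simpa using hb1
        by_cases hex : ∃ s, g r' L0 = some s
        · obtain ⟨⟨c, i'⟩, hs⟩ := hex
          obtain ⟨L', h1, h2, h3⟩ := hB3 L0 p 0 c i' hb1' hL0 hs T hpT
          refine ⟨Sum.inl L', ?_, ?_⟩
          · simp only [hhi, hiM]
            rintro (⟨h4, -⟩ | ⟨-, c', i'', h4, h5⟩)
            · rw [h1] at h4; simp at h4
            · rw [h2] at h4
              simp only [Option.some.injEq, Prod.mk.injEq] at h4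
              apply h5
              rw [hlamr, ← h4.1, ← h4.2]
          · intro s hs
            rw [hposB, hposB]
            have h4 := h3 s hs
            have h5 := hB1 L' s
            omega
        · refine ⟨Sum.inl L0, ?_, ?_⟩
          · simp only [hhi, hiM]
            rintro (⟨h4, -⟩ | ⟨-, c', i'', h4, h5⟩)
            · exact hb1 h4
            · exact hex ⟨_, h4⟩
          · intro s hs
            rw [hposB, hposB]
            have h4 := hB2 L0 p 0 hL0 (Or.inr (fun s h => hex ⟨s, h⟩)) s (fun h => hpT (h ▸ hs))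
            have h5 := hB1 L0 s
            omega
  · -- IN
    exact ⟨Sum.inr (Sum.inr ()), fun _ _ => rfl, fun _ _ _ => trivial⟩
-- END S4

-- BEGIN F2
theorem main {t : ℕ} {a : ℕ → ℕ} (ht : 2 ≤ t) (ha : ∀ j < t, 0 < a j) :
    Realizable t a (dimX t a) ∧ D t a ≤ dimX t a ∧ dimX t a ≤ D t a + 925 ∧
      Feasible t a (D t a) ∧
      ∀ k, Feasible t a k ↔ ∀ j ≤ t, greedy t a k j ≤ k := by
  have hF : Feasible t a (D t a) := by
    have := exists_feasible a (show 0 < t by omega)
    exact Nat.sInf_mem this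
  have hR : Realizable t a (D t a + 925) := realizable_of_feasible ht ha hF
  have hd : Realizable t a (dimX t a) := Nat.sInf_mem (s := {k | Realizable t a k}) ⟨_, hR⟩
  refine ⟨hd, ?_, ?_, hF, fun k => feasible_iff_greedy a (by omega) k⟩
  · exact Nat.sInf_le (feasible_of_realizable ht ha hd)
  · exact Nat.sInf_le hR
-- END F2

end Pool.E98
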