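import Pool.Agent.E98.Pub

/-! The explicit form of the order. -/

namespace Pool.E98

open Finset

/-- explicit form of the strict order, `El.lt e e'`: `e` is below `e'`. -/
def El.lt : El → El → Prop
  | .A i _, .A i' _ => i' < i
  | .B j S _, .A i x => i < j ∨ (i = j ∧ x ∈ S)
  | .A i x, .B j _ T => j + 1 < i ∨ (i = j + 1 ∧ x ∈ T)
  | .B j S _, .B i _ T' => i + 2 ≤ j ∨ (j = i + 1 ∧ ¬ Disjoint T' S)

-- BEGIN O1
/-- a generating relation is an instance of the explicit form -/
theorem O1_gen {x y : El} (h : x.Gen y) : x.lt y := by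
  cases x with
  | A i x =>
    cases y with
    | A i' x' => simp only [El.Gen, El.lt] at *; omega
    | B j S T => exact Or.inr h
  | B i S T =>
    cases y with
    | A i' x' => exact Or.inr ⟨h.1.symm, h.2⟩
    | B j S' T' => exact h.elim

/-- the explicit form is transitive -/
theorem O1_trans {x y z : El} (h : x.lt y) (h' : y.lt z) : x.lt z := by
  cases x with
  | A i x =>
    cases y with
    | A i' x' =>
      cases z with
      | A k z => simp only [El.lt] at *; omega
      | B k S T => simp only [El.lt] at *; omega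
    | B j S T =>
      cases z with
      | A k z => simp only [El.lt] at *; omega
      | B k S' T' => simp only [El.lt] at *; omega
  | B i S T =>
    cases y with
    | A i' x' =>
      cases z with
      | A k z => simp only [El.lt] at *; omega
      | B k S' T' =>
        simp only [El.lt] at *
        rcases h with h | ⟨h, hx⟩
        · left; omega
        · rcases h' with h' | ⟨h', hx'⟩
          · left; omega
          · right
            refine ⟨by omega, ?_⟩
            rw [Finset.not_disjoint_iff]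
            exact ⟨x', hx', hx⟩
    | B j S' T' =>
      cases z with
      | A k z => simp only [El.lt] at *; omega
      | B k S'' T'' => simp only [El.lt] at *; left; omega

/-- from the transitive closure to the explicit form -/
theorem lt_of_Lt {t : ℕ} {a : ℕ → ℕ} {x y : Pt t a} (h : Lt t a x y) : x.1.lt y.1 := by
  unfold Lt at h
  induction h with
  | single h => exact O1_gen h
  | tail _ h ih => exact O1_trans ih (O1_gen h)

/-- the case of two antichain elements -/
theorem O1_AA {t : ℕ} {a : ℕ → ℕ} (ha : ∀ j < t, 0 < a j) (d : ℕ) : ∀ (i p q : ℕ)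
    (hp : El.Valid t a (.A (i + d + 1) p)) (hq : El.Valid t a (.A i q)),
    Lt t a ⟨.A (i + d + 1) p, hp⟩ ⟨.A i q, hq⟩ := by
  induction d with
  | zero =>
    intro i p q hp hq
    refine Relation.TransGen.single ?_
    simp [El.Gen]
  | succ d ih =>
    intro i p q hp hq
    have h1 : i + (d + 1) + 1 < t := hp.1
    have hv : El.Valid t a (.A (i + d + 1) 0) := ⟨by omega, ha _ (by omega)⟩
    refine Relation.TransGen.head ?_ (ih i 0 q hv hq)
    simp only [El.Gen]
    omega

theorem O1_AA' {t : ℕ} {a : ℕ → ℕ} (ha : ∀ j < t, 0 < a j) {i j p q : ℕ}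
    (hp : El.Valid t a (.A j p)) (hq : El.Valid t a (.A i q)) (hij : i < j) :
    Lt t a ⟨.A j p, hp⟩ ⟨.A i q, hq⟩ := by
  obtain ⟨d, rfl⟩ : ∃ d, j = i + d + 1 := ⟨j - i - 1, by omega⟩
  exact O1_AA ha d i p q hp hq

/-- from the explicit form to the transitive closure -/
theorem Lt_of_lt {t : ℕ} {a : ℕ → ℕ} (ha : ∀ j < t, 0 < a j) {x y : Pt t a}
    (h : x.1.lt y.1) : Lt t a x y := by
  obtain ⟨x, hx⟩ := x
  obtain ⟨y, hy⟩ := y
  cases x with
  | A i x =>
    cases y with
    | A i' x' => exact O1_AA' ha hx hy h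
    | B j S T =>
      obtain ⟨hj, hS, hT⟩ := hy
      rcases h with h | ⟨h, hxT⟩
      · obtain ⟨s, hs⟩ := hT.1
        have hv : El.Valid t a (.A (j + 1) s) := ⟨hj, mem_range.1 (hT.2 hs)⟩
        refine Relation.TransGen.tail (O1_AA' ha hx hv h) ?_
        exact ⟨rfl, hs⟩
      · refine Relation.TransGen.single ?_
        exact ⟨h, hxT⟩
  | B i S T =>
    obtain ⟨hi, hS, hT⟩ := id hx
    cases y with
    | A k y =>
      rcases h with h | ⟨h, hyS⟩
      · obtain ⟨s, hs⟩ := hS.1
        have hv : El.Valid t a (.A i s) := ⟨by omega, mem_range.1 (hS.2 hs)⟩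
        refine Relation.TransGen.head ?_ (O1_AA' ha hv hy h)
        exact ⟨rfl, hs⟩
      · refine Relation.TransGen.single ?_
        exact ⟨h.symm, hyS⟩
    | B k S' T' =>
      obtain ⟨hk, hS', hT'⟩ := id hy
      rcases h with h | ⟨h, hd⟩
      · obtain ⟨s, hs⟩ := hS.1
        obtain ⟨z, hz⟩ := hT'.1
        have hv : El.Valid t a (.A i s) := ⟨by omega, mem_range.1 (hS.2 hs)⟩
        have hv' : El.Valid t a (.A (k + 1) z) := ⟨hk, mem_range.1 (hT'.2 hz)⟩
        have h1 : Lt t a ⟨.B i S T, hx⟩ ⟨.A i s, hv⟩ := Relation.TransGen.single ⟨rfl, hs⟩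
        have h2 : Lt t a ⟨.A (k + 1) z, hv'⟩ ⟨.B k S' T', hy⟩ :=
          Relation.TransGen.single ⟨rfl, hz⟩
        exact (h1.trans (O1_AA' ha hv hv' (by omega))).trans h2
      · rw [Finset.not_disjoint_iff] at hd
        obtain ⟨z, hz, hz'⟩ := hd
        subst h
        have hv : El.Valid t a (.A (k + 1) z) := ⟨hk, mem_range.1 (hS.2 hz')⟩
        have h1 : Lt t a ⟨.B (k + 1) S T, hx⟩ ⟨.A (k + 1) z, hv⟩ :=
          Relation.TransGen.single ⟨rfl, hz'⟩
        have h2 : Lt t a ⟨.A (k + 1) z, hv⟩ ⟨.B k S' T', hy⟩ :=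
          Relation.TransGen.single ⟨rfl, hz⟩
        exact h1.trans h2
-- END O1

end Pool.E98
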