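import Pool.Agent.E98.Ext

/-! Which pairs have to be reversed. -/

namespace Pool.E98

open Finset

-- BEGIN R1
theorem R1_trans {α : Type*} (O : LinearOrder α) {x y z : α} (h : O.lt x y) (h' : O.lt y z) :
    O.lt x z := by
  let _ := O
  exact lt_trans h h'

theorem R1_le {α : Type*} (O : LinearOrder α) {x y : α} (h : O.lt x y) : O.le x y := by
  let _ := O
  exact le_of_lt h

theorem R1_refl {α : Type*} (O : LinearOrder α) (x : α) : O.le x x := by
  let _ := O
  exact le_refl x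

theorem R1_not {α : Type*} (O : LinearOrder α) {x y : α} (h : O.lt x y) : ¬ O.le y x := by
  let _ := O
  exact not_le_of_gt h

section R1_section

variable {t : ℕ} {a : ℕ → ℕ} {m : ℕ} (L : Fin m → LinearOrder (Pt t a))

/-- some extension has `x` below `y` -/
def R1_Rev (x y : Pt t a) : Prop := ∃ i, (L i).lt x y

variable {L}

theorem R1_left (hext : ∀ i x y, Lt t a x y → (L i).lt x y) {x x' y : Pt t a}
    (h : Lt t a x x') (h' : R1_Rev L x' y) : R1_Rev L x y := by
  obtain ⟨i, hi⟩ := h'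
  exact ⟨i, R1_trans _ (hext i _ _ h) hi⟩

theorem R1_right (hext : ∀ i x y, Lt t a x y → (L i).lt x y) {x y y' : Pt t a}
    (h : Lt t a y' y) (h' : R1_Rev L x y') : R1_Rev L x y := by
  obtain ⟨i, hi⟩ := h'
  exact ⟨i, R1_trans _ hi (hext i _ _ h)⟩

end R1_section

/-- A family of linear extensions that reverses the four kinds of pairs is a realizer. `L.lt x y`:
`x` is below `y`. -/
theorem realizable_of_reversed {t : ℕ} {a : ℕ → ℕ} (ht : 2 ≤ t) (ha : ∀ j < t, 0 < a j) {m : ℕ}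
    (hm : 0 < m) (L : Fin m → LinearOrder (Pt t a)) (hext : ∀ i x y, Lt t a x y → (L i).lt x y)
    (hCP : ∀ (x y : Pt t a) (j : ℕ) (S1 T S2 T2 : Finset ℕ), x.1 = .B j S1 T →
      y.1 = .B (j + 1) S2 T2 → Disjoint T S2 → ∃ i, (L i).lt x y)
    (hE0 : ∀ (x y : Pt t a) (p : ℕ) (S T : Finset ℕ), x.1 = .A 0 p → y.1 = .B 0 S T →
      p ∉ S → ∃ i, (L i).lt x y)
    (hEt : ∀ (x y : Pt t a) (r p : ℕ) (S T : Finset ℕ), r + 2 = t → x.1 = .B r S T →
      y.1 = .A (r + 1) p → p ∉ T → ∃ i, (L i).lt x y)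
    (hIN : ∀ (x y : Pt t a) (j : ℕ) (S T S' T' : Finset ℕ), x.1 = .B j S' T' → y.1 = .B j S T →
      S' ⊆ S → T ⊆ T' → x ≠ y → ∃ i, (L i).lt x y) :
    Realizable t a m := by
  -- one generating relation
  have gen : ∀ {x y : Pt t a}, x.1.Gen y.1 → Lt t a x y := fun h => Relation.TransGen.single h
  have rng : ∀ j < t, (range (a j)).Nonempty := fun j hj => ⟨0, mem_range.2 (ha j hj)⟩
  -- (2a): `A j x` below `B j S T`, `x ∉ S`
  have h2a : ∀ (j x : ℕ) (S T : Finset ℕ) (hp : El.Valid t a (.A j x))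
      (hq : El.Valid t a (.B j S T)), x ∉ S → R1_Rev L ⟨.A j x, hp⟩ ⟨.B j S T, hq⟩ := by
    intro j x S T hp hq hx
    cases j with
    | zero => exact hE0 _ _ x S T rfl rfl hx
    | succ j =>
      have hv : El.Valid t a (.B j (range (a j)) {x}) :=
        ⟨hp.1, ⟨rng j (by have := hp.1; omega), subset_rfl⟩, singleton_nonempty x,
          singleton_subset_iff.2 (mem_range.2 hp.2)⟩
      refine R1_left hext (x' := ⟨_, hv⟩) (gen ⟨rfl, mem_singleton_self x⟩) ?_
      exact hCP _ _ j _ _ _ _ rfl rfl (disjoint_singleton_left.2 hx)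
  -- (2b): `A (j+1) x` below `B j S T`, `x ∉ T`
  have h2b : ∀ (j x : ℕ) (S T : Finset ℕ) (hp : El.Valid t a (.A (j + 1) x))
      (hq : El.Valid t a (.B j S T)), x ∉ T → R1_Rev L ⟨.A (j + 1) x, hp⟩ ⟨.B j S T, hq⟩ := by
    intro j x S T hp hq hx
    obtain ⟨s, hs⟩ := hq.2.1.1
    have hv : El.Valid t a (.B j {s} (range (a (j + 1)))) :=
      ⟨hq.1, ⟨singleton_nonempty s, singleton_subset_iff.2 (hq.2.1.2 hs)⟩,
        rng _ hq.1, subset_rfl⟩
    refine R1_left hext (x' := ⟨_, hv⟩) (gen ⟨rfl, mem_range.2 hp.2⟩) ?_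
    refine hIN _ _ j S T {s} (range (a (j + 1))) rfl rfl (singleton_subset_iff.2 hs)
      hq.2.2.2 ?_
    intro h
    have h' : El.B j {s} (range (a (j + 1))) = El.B j S T := congrArg Subtype.val h
    injection h' with _ _ h3
    exact hx (h3 ▸ mem_range.2 hp.2)
  -- (3a): `B j S T` below `A j x`, `x ∉ S`
  have h3a : ∀ (j x : ℕ) (S T : Finset ℕ) (hp : El.Valid t a (.B j S T))
      (hq : El.Valid t a (.A j x)), x ∉ S → R1_Rev L ⟨.B j S T, hp⟩ ⟨.A j x, hq⟩ := by
    intro j x S T hp hq hx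
    obtain ⟨u, hu⟩ := hp.2.2.1
    have hv : El.Valid t a (.B j (range (a j)) {u}) :=
      ⟨hp.1, ⟨rng j hq.1, subset_rfl⟩, singleton_nonempty u,
        singleton_subset_iff.2 (hp.2.2.2 hu)⟩
    refine R1_right hext (y' := ⟨_, hv⟩) (gen ⟨rfl, mem_range.2 hq.2⟩) ?_
    refine hIN _ _ j (range (a j)) {u} S T rfl rfl hp.2.1.2 (singleton_subset_iff.2 hu) ?_
    intro h
    have h' : El.B j S T = El.B j (range (a j)) {u} := congrArg Subtype.val h
    injection h' with _ h2 _
    exact hx (h2 ▸ mem_range.2 hq.2)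
  -- (3b): `B j S T` below `A (j+1) x`, `x ∉ T`
  have h3b : ∀ (j x : ℕ) (S T : Finset ℕ) (hp : El.Valid t a (.B j S T))
      (hq : El.Valid t a (.A (j + 1) x)), x ∉ T →
      R1_Rev L ⟨.B j S T, hp⟩ ⟨.A (j + 1) x, hq⟩ := by
    intro j x S T hp hq hx
    by_cases hlast : j + 2 = t
    · exact hEt _ _ j x S T hlast rfl rfl hx
    · have h2 : j + 2 < t := by have := hq.1; omega
      have hv : El.Valid t a (.B (j + 1) {x} (range (a (j + 2)))) :=
        ⟨h2, ⟨singleton_nonempty x, singleton_subset_iff.2 (mem_range.2 hq.2)⟩,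
          rng _ h2, subset_rfl⟩
      refine R1_right hext (y' := ⟨_, hv⟩) (gen ⟨rfl, mem_singleton_self x⟩) ?_
      exact hCP _ _ j _ _ _ _ rfl rfl (disjoint_singleton_right.2 hx)
  -- all pairs
  have key : ∀ p q : Pt t a, p ≠ q → ¬ q.1.lt p.1 → R1_Rev L p q := by
    intro p q hne hn
    by_cases hlt : p.1.lt q.1
    · exact ⟨⟨0, hm⟩, hext _ _ _ (Lt_of_lt ha hlt)⟩
    obtain ⟨p, hp⟩ := p
    obtain ⟨q, hq⟩ := q
    cases p with
    | A i x =>
      cases q with
      | A i' x' =>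
        simp only [El.lt] at hn hlt
        have hii : i = i' := by omega
        subst hii
        have hxx : x' ≠ x := by
          rintro rfl
          exact hne rfl
        by_cases hi : i + 1 < t
        · have hv : El.Valid t a (.B i {x'} (range (a (i + 1)))) :=
            ⟨hi, ⟨singleton_nonempty x', singleton_subset_iff.2 (mem_range.2 hq.2)⟩,
              rng _ hi, subset_rfl⟩
          refine R1_right hext (y' := ⟨_, hv⟩) (gen ⟨rfl, mem_singleton_self x'⟩) ?_
          refine h2a i x _ _ hp hv ?_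
          rw [mem_singleton]
          exact fun h => hxx h.symm
        · obtain ⟨r, rfl⟩ : ∃ r, i = r + 1 := ⟨i - 1, by have := hp.1; omega⟩
          have hp1 := hp.1
          have hv : El.Valid t a (.B r (range (a r)) {x}) :=
            ⟨hp.1, ⟨rng r (by omega), subset_rfl⟩, singleton_nonempty x,
              singleton_subset_iff.2 (mem_range.2 hp.2)⟩
          refine R1_left hext (x' := ⟨_, hv⟩) (gen ⟨rfl, mem_singleton_self x⟩) ?_
          refine h3b r x' _ _ hv hq ?_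
          rw [mem_singleton]
          exact hxx
      | B j S T =>
        simp only [El.lt] at hn hlt
        push Not at hn hlt
        rcases Nat.lt_or_ge j i with hji | hji
        · have hij : i = j + 1 := by omega
          subst hij
          exact h2b j x S T hp hq (hlt.2 rfl)
        · have hij : i = j := by omega
          subst hij
          exact h2a i x S T hp hq (hn.2 rfl)
    | B j S T =>
      cases q with
      | A i x =>
        simp only [El.lt] at hn hlt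
        push Not at hn hlt
        rcases Nat.lt_or_ge j i with hji | hji
        · have hij : i = j + 1 := by omega
          subst hij
          exact h3b j x S T hp hq (hn.2 rfl)
        · have hij : i = j := by omega
          subst hij
          exact h3a i x S T hp hq (hlt.2 rfl)
      | B k S' T' =>
        simp only [El.lt] at hn hlt
        push Not at hn hlt
        rcases Nat.lt_trichotomy j k with hjk | hjk | hjk
        · have hij : k = j + 1 := by omega
          subst hij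
          exact hCP _ _ j _ _ _ _ rfl rfl (hn.2 rfl)
        · subst hjk
          by_cases hS : S ⊆ S'
          · by_cases hT : T' ⊆ T
            · exact hIN _ _ j S' T' S T rfl rfl hS hT hne
            · obtain ⟨u, hu, hu'⟩ := not_subset.1 hT
              have hv : El.Valid t a (.A (j + 1) u) :=
                ⟨hq.1, mem_range.1 (hq.2.2.2 hu)⟩
              refine R1_right hext (y' := ⟨_, hv⟩) (gen ⟨rfl, hu⟩) ?_
              exact h3b j u S T hp hv hu'
          · obtain ⟨s, hs, hs'⟩ := not_subset.1 hS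
            have hv : El.Valid t a (.A j s) :=
              ⟨by have := hp.1; omega, mem_range.1 (hp.2.1.2 hs)⟩
            refine R1_left hext (x' := ⟨_, hv⟩) (gen ⟨rfl, hs⟩) ?_
            exact h2a j s S' T' hv hq hs'
        · have hij : j = k + 1 := by omega
          subst hij
          have hd := hlt.2 rfl
          obtain ⟨u, hu⟩ := hq.2.2.1
          have hv : El.Valid t a (.A (k + 1) u) :=
            ⟨hq.1, mem_range.1 (hq.2.2.2 hu)⟩
          refine R1_right hext (y' := ⟨_, hv⟩) (gen ⟨rfl, hu⟩) ?_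
          exact h3a (k + 1) u S T hp hv (Finset.disjoint_left.1 hd hu)
  refine ⟨L, fun x y => ⟨?_, ?_⟩⟩
  · rintro (rfl | h) i
    · exact R1_refl _ _
    · exact R1_le _ (hext i _ _ h)
  · intro h
    by_contra hcon
    push Not at hcon
    obtain ⟨i, hi⟩ := key y x (fun h => hcon.1 h.symm) (fun h => hcon.2 (Lt_of_lt ha h))
    exact R1_not _ hi (h i)
-- END R1

-- BEGIN R2
/-- The data that give a realizer. -/
theorem realizable_of_data {t : ℕ} {a : ℕ → ℕ} (ht : 2 ≤ t) (ha : ∀ j < t, 0 < a j)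
    {ι : Type} [Fintype ι]
    (pos : ι → ℕ → ℕ → ℕ) (hi : ι → ℕ → Finset ℕ → Finset ℕ → Prop)
    (hCP : ∀ (j : ℕ) (S1 T S2 T2 : Finset ℕ), j + 2 < t → S1.Nonempty → S1 ⊆ range (a j) →
      T.Nonempty → T ⊆ range (a (j + 1)) → S2.Nonempty → S2 ⊆ range (a (j + 1)) →
      T2.Nonempty → T2 ⊆ range (a (j + 2)) → Disjoint T S2 →
      ∃ i, ¬ hi i j S1 T ∧ hi i (j + 1) S2 T2 ∧
        ∀ p ∈ T, ∀ q ∈ S2, pos i (j + 1) p < pos i (j + 1) q)
    (hE0 : ∀ (p : ℕ) (S T : Finset ℕ), p < a 0 → S.Nonempty → S ⊆ range (a 0) →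
      T.Nonempty → T ⊆ range (a 1) → p ∉ S → ∃ i, hi i 0 S T ∧ ∀ s ∈ S, pos i 0 p < pos i 0 s)
    (hEt : ∀ (r p : ℕ) (S T : Finset ℕ), r + 2 = t → p < a (r + 1) → S.Nonempty →
      S ⊆ range (a r) → T.Nonempty → T ⊆ range (a (r + 1)) → p ∉ T →
      ∃ i, ¬ hi i r S T ∧ ∀ s ∈ T, pos i (r + 1) s < pos i (r + 1) p)
    (hIN : ∃ i, (∀ j x, pos i j x = 0) ∧ ∀ j S T, hi i j S T) :
    Realizable t a (Fintype.card ι) := by
  classical
  choose Lx h1 h2 h3 h4 h5 using fun i => exists_ext t a (pos i) (hi i)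
  obtain ⟨i0, hi0p, hi0h⟩ := hIN
  have hm : 0 < Fintype.card ι := Fintype.card_pos_iff.2 ⟨i0⟩
  obtain ⟨φ⟩ : Nonempty (ι ≃ Fin (Fintype.card ι)) := ⟨Fintype.equivFin ι⟩
  have key : ∀ (x y : Pt t a), (∃ i, (Lx i).lt x y) → ∃ n, (Lx (φ.symm n)).lt x y := by
    rintro x y ⟨i, h⟩
    refine ⟨φ i, ?_⟩
    rw [Equiv.symm_apply_apply]
    exact h
  refine realizable_of_reversed ht ha hm (fun n => Lx (φ.symm n)) (fun n x y h => h1 _ x y h)
    ?_ ?_ ?_ ?_
  · intro x y j S1 T S2 T2 hx hy hd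
    have vx : El.Valid t a x.1 := x.2
    have vy : El.Valid t a y.1 := y.2
    rw [hx] at vx
    rw [hy] at vy
    obtain ⟨vx1, ⟨vx2, vx3⟩, vx4, vx5⟩ := vx
    obtain ⟨vy1, ⟨vy2, vy3⟩, vy4, vy5⟩ := vy
    obtain ⟨i, hi1, hi2, hi3⟩ := hCP j S1 T S2 T2 (by omega) vx2 vx3 vx4 vx5 vy2 vy3 vy4 vy5 hd
    exact key x y ⟨i, h2 i x y j S1 T S2 T2 hx hy hi1 hi2 hi3⟩
  · intro x y p S T hx hy hp
    have vx : El.Valid t a x.1 := x.2
    have vy : El.Valid t a y.1 := y.2
    rw [hx] at vx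
    rw [hy] at vy
    obtain ⟨vx1, vx2⟩ := vx
    obtain ⟨vy1, ⟨vy2, vy3⟩, vy4, vy5⟩ := vy
    obtain ⟨i, hi1, hi2⟩ := hE0 p S T vx2 vy2 vy3 vy4 vy5 hp
    exact key x y ⟨i, h3 i x y 0 p S T hx hy hi1 hi2⟩
  · intro x y r p S T hr hx hy hp
    have vx : El.Valid t a x.1 := x.2
    have vy : El.Valid t a y.1 := y.2
    rw [hx] at vx
    rw [hy] at vy
    obtain ⟨vy1, vy2⟩ := vy
    obtain ⟨vx1, ⟨vx2, vx3⟩, vx4, vx5⟩ := vx
    obtain ⟨i, hi1, hi2⟩ := hEt r p S T hr vy2 vx2 vx3 vx4 vx5 hp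
    exact key x y ⟨i, h4 i x y r p S T hx hy hi1 hi2⟩
  · intro x y j S T S' T' hx hy hS hT hne
    exact key x y ⟨i0, h5 i0 hi0p hi0h x y j S T S' T' hx hy hS hT hne⟩
-- END R2

end Pool.E98
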